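import Pool.Agent.AHA.Acya

set_option autoImplicit false

/-!
# AHA ACY: the action on the new space is acylindrical

Let `k` be the constant of `slim_D`, `ε` given, `ρ = ε + k`, `R` the bound in `three` for this `ρ`,
`n₁ = 3 (2 ε + 2 + 4 k) + 2`, `N₀` the number of `S.fin (2 M + c)`, `N = n₁ N₀`.

Let `R ≤ dD x y`, take `l₁, l₀, l₂` from `three`, `w₀ ∈ C l₀` (`S.ne`), `w ∈ pj l₀ x` (`pj_ne`), and let
`A` be the set of the `g` with `dD x (g x) ≤ ε`, `dD y (g y) ≤ ε`.  For `g ∈ A`, by `stab_pos` (for `x`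
and `l₁`, for `y` and `l₂`) the hypotheses of `pj_stable` hold with `x' = g x`, `y' = g y`.  So
(a) `pj l₀ (g x) = pj l₀ x`, (b) `l₀ ∈ LL (g x) (g y)`, so `g⁻¹ l₀ ∈ LL x y` (`LL_smul`).
Let `W = {l' ∈ LL x y | ∃ w' ∈ C l', b ≤ dD x w' ∧ dD x w' ≤ b + 2 ε}` with `b = dD x w₀ - ε`
(if `dD x w₀ < ε`, `b = 0` in ℕ, fine).  `g⁻¹ l₀ ∈ W`: `w' = g⁻¹ w₀` has
`dD x w' = dD (g x) w₀`, which differs from `dD x w₀` by at most `ε`.  By `window` `W` has at most `n₁`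
elements (finite as a subset of `LL x y`).

Apply `ncard_fib` to `A`, `φ g = g⁻¹ • l₀`, `W`, `N₀`.  Fibre of `l' ∈ W`: if it is empty, fine.
Otherwise fix `g₁` in it.  For `g` in the fibre let `h = g g₁⁻¹`; `h l₀ = g l' = l₀`; by (a)
`w ∈ pj l₀ (g₁ x)`, so `h w ∈ pj (h l₀) (h g₁ x) = pj l₀ (g x) = pj l₀ x` (`pj_smul_C`), and
`d w (h w) ≤ 2 M + c` by `pj_diam`.  So `g ↦ g g₁⁻¹` maps the fibre injectively to the finite set of
`S.fin (2 M + c)` for `l₀`, `w` (`w ∈ C l₀`).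
-/

namespace AHA

open Burn (Geo Btw Hyp Slim Fellow IsPath)

section
variable {X ι G : Type} [Group G] [MulAction G X] [MulAction G ι]
variable {d : X → X → ℕ} {C : ι → Set X} {P : ι → X → ℤ} {c M K : ℕ}

theorem acyD (S : Sys2 G d C P c M K) (ε : ℕ) : ∃ R N : ℕ, ∀ x y : X, R ≤ dD d C K x y →
    {g : G | dD d C K x (g • x) ≤ ε ∧ dD d C K y (g • y) ≤ ε}.Finite ∧
    {g : G | dD d C K x (g • x) ≤ ε ∧ dD d C K y (g • y) ≤ ε}.ncard ≤ N := by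
  obtain ⟨k, hk, -⟩ := slim_D S
  obtain ⟨N₀, hN₀⟩ := S.fin (2 * M + c)
  refine ⟨2 * (2 * (3 * ((ε + k) + 2 + 4 * k) + 2) + 3) + 2,
    (3 * (2 * ε + 2 + 4 * k) + 2) * N₀, fun x y hxy => ?_⟩
  obtain ⟨l₁, l₀, l₂, h₁, h₀, h₂, hlt, hlt', hf₁, -, hf₂⟩ := three S hk (ε + k) x y hxy
  obtain ⟨w₀, hw₀⟩ := S.ne l₀
  obtain ⟨w, hw⟩ := pj_ne (D := dh d C) (S.ne l₀) x
  have hgD := geoD S
  -- stability
  have hst : ∀ g : G, dD d C K x (g • x) ≤ ε → dD d C K y (g • y) ≤ ε →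
      pj (dh d C) (C l₀) (g • x) = pj (dh d C) (C l₀) x ∧ g⁻¹ • l₀ ∈ LL d C K x y := by
    intro g hgx hgy
    have a1 := stab_pos S hk hgx fun w hw => (hf₁ w hw).1
    have a2 := stab_pos S hk hgy fun w hw => (hf₂ w hw).2
    obtain ⟨a3, -, a4⟩ := pj_stable S h₁ h₀ h₂ hlt hlt' a1 a2
    refine ⟨a3, ?_⟩
    rw [← LL_smul S g, smul_inv_smul]
    exact a4
  let W : Set ι := {l' | l' ∈ LL d C K x y ∧ ∃ w' ∈ C l', dD d C K x w₀ - ε ≤ dD d C K x w' ∧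
    dD d C K x w' ≤ dD d C K x w₀ - ε + 2 * ε}
  have hWsub : W ⊆ LL d C K x y := fun l' hl' => hl'.1
  have hWn : W.ncard ≤ 3 * (2 * ε + 2 + 4 * k) + 2 :=
    window S hk x y (2 * ε) (dD d C K x w₀ - ε) W hWsub fun l hl => hl.2
  have hWfin : W.Finite := (LL_fin S x y).1.subset hWsub
  have hfib := ncard_fib {g : G | dD d C K x (g • x) ≤ ε ∧ dD d C K y (g • y) ≤ ε}
    (fun g : G => g⁻¹ • l₀) W hWfin N₀ ?_ ?_
  · exact ⟨hfib.1, hfib.2.trans (Nat.mul_le_mul_right _ hWn)⟩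
  · rintro g ⟨hgx, hgy⟩
    refine ⟨(hst g hgx hgy).2, g⁻¹ • w₀, S.act g⁻¹ l₀ w₀ hw₀, ?_⟩
    have e1 : dD d C K x (g⁻¹ • w₀) = dD d C K (g • x) w₀ := by
      rw [← dD_smul S g x, smul_inv_smul]
    have e2 := hgD.tri x (g • x) w₀
    have e3 := hgD.tri (g • x) x w₀
    have e4 := hgD.symm (g • x) x
    omega
  · intro l' _
    by_cases hemp : ∃ g₁ : G, (dD d C K x (g₁ • x) ≤ ε ∧ dD d C K y (g₁ • y) ≤ ε) ∧
        g₁⁻¹ • l₀ = l'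
    · obtain ⟨g₁, ⟨hg₁x, hg₁y⟩, hg₁⟩ := hemp
      obtain ⟨hF, hFn⟩ := hN₀ l₀ w hw.1
      have hmaps : ∀ g ∈ {g : G | g ∈ {g : G | dD d C K x (g • x) ≤ ε ∧
          dD d C K y (g • y) ≤ ε} ∧ g⁻¹ • l₀ = l'},
          g * g₁⁻¹ ∈ {g : G | g • l₀ = l₀ ∧ d w (g • w) ≤ 2 * M + c} := by
        rintro g ⟨⟨hgx, hgy⟩, hgl⟩
        have b1 : (g * g₁⁻¹) • l₀ = l₀ := by
          rw [mul_smul, hg₁, ← hgl, smul_inv_smul]
        refine ⟨b1, ?_⟩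
        have b2 : w ∈ pj (dh d C) (C l₀) (g₁ • x) := by
          rw [(hst g₁ hg₁x hg₁y).1]
          exact hw
        have b3 := (pj_smul_C S (g * g₁⁻¹) l₀ (g₁ • x) w).2 b2
        rw [b1, ← mul_smul, inv_mul_cancel_right, (hst g hgx hgy).1] at b3
        exact pj_diam S hw b3
      have hinj : Set.InjOn (fun g : G => g * g₁⁻¹) {g : G | g ∈ {g : G |
          dD d C K x (g • x) ≤ ε ∧ dD d C K y (g • y) ≤ ε} ∧ g⁻¹ • l₀ = l'} :=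
        fun a _ b _ hab => mul_right_cancel hab
      exact ⟨Set.Finite.of_injOn hmaps hinj hF,
        (Set.ncard_le_ncard_of_injOn _ hmaps hinj hF).trans hFn⟩
    · have he : {g : G | g ∈ {g : G | dD d C K x (g • x) ≤ ε ∧
          dD d C K y (g • y) ≤ ε} ∧ g⁻¹ • l₀ = l'} = ∅ := by
        rw [Set.eq_empty_iff_forall_notMem]
        rintro g ⟨hg, hg'⟩
        exact hemp ⟨g, hg, hg'⟩
      rw [he, Set.ncard_empty]
      exact ⟨Set.finite_empty, Nat.zero_le _⟩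

end

end AHA
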