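import Pool.Agent.AHA.Win

set_option autoImplicit false

/-!
# AHA ACYA: three lemmas for the acylindricity

`ds l x` means `ds (dh d C) (C l) x`.

`three`: let `n₀ = 3 (ρ + 2 + 4 k) + 2`.  By `window` with `b = 0`, `a = ρ` the set
`Wx = {l ∈ LL x y | ∃ w ∈ C l, dD x w ≤ ρ}` has at most `n₀` elements; by `window` for `y, x` (and
`LL_symm`) so has `Wy = {l ∈ LL x y | ∃ w ∈ C l, dD y w ≤ ρ}`.  By `le_cnt` `LL x y` has at least
`2 n₀ + 3` elements (it is finite by `LL_fin`), so `LL x y \ (Wx ∪ Wy)` has at least three; order them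
by `ds l x` (different values by `ord_ne`).

`stab_pos`: if `M < |P l x - P l x'|` take `u ∈ pj l x` (`pj_ne`), by `pass_btw` it is between `x` and
`x'` in `dh`.  For a `dD`-geodesic `p` from `x` to `x'` (`pathR`), `Fellow` gives `i ≤ dD x x' ≤ ε`
with `dD u (p i) ≤ k`, so `dD x u ≤ i + k ≤ ε + k`, and `u ∈ C l` contradicts `hfar`.

`pj_stable`: `pj l₀ x' = pr2 l₀ l₁` by `exact_pj`: take `w ∈ C l₀`; `|P l₁ w - P l₁ y| ≤ M + c`
(`ord_pos`), `|P l₁ x' - P l₁ x| ≤ M`, `|P l₁ x - P l₁ y| > 8 M + 9 c + 10`, so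
`|P l₁ w - P l₁ x'| > M + c`.  And `pj l₀ x = pr2 l₀ l₁` by `ord_exact`.  In the same way
`pj l₀ y' = pr2 l₀ l₂ = pj l₀ y`.  So `l₀ ∈ LL x' y'` by the definition of `Sep`.

`ncard_fib`: `A = ⋃ b ∈ W, {a ∈ A | φ a = b}`; e.g. induction on the finite set `W`, or
`Set.Finite.biUnion` and `Finset.card_le_mul_card_image`.
-/

namespace AHA

open Burn (Geo Btw Hyp Slim Fellow IsPath)

theorem ncard_fib {α β : Type} (A : Set α) (φ : α → β) (W : Set β) (hW : W.Finite) (N : ℕ)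
    (hφ : ∀ a ∈ A, φ a ∈ W)
    (hN : ∀ b ∈ W, {a | a ∈ A ∧ φ a = b}.Finite ∧ {a | a ∈ A ∧ φ a = b}.ncard ≤ N) :
    A.Finite ∧ A.ncard ≤ W.ncard * N := by
  classical
  have hAW : A = ⋃ b ∈ W, {a | a ∈ A ∧ φ a = b} := by
    ext a
    simp only [Set.mem_iUnion, Set.mem_setOf_eq, exists_prop]
    constructor
    · intro ha
      exact ⟨φ a, hφ a ha, ha, rfl⟩
    · rintro ⟨b, -, ha, -⟩
      exact ha
  have hfin : A.Finite := by
    rw [hAW]
    exact hW.biUnion fun b hb => (hN b hb).1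
  refine ⟨hfin, ?_⟩
  rw [Set.ncard_eq_toFinset_card A hfin, Set.ncard_eq_toFinset_card W hW]
  have h1 : hfin.toFinset.card ≤ N * (hfin.toFinset.image φ).card := by
    apply Finset.card_le_mul_card_image
    intro b hb
    rw [Finset.mem_image] at hb
    obtain ⟨a, ha, rfl⟩ := hb
    have ha' : a ∈ A := by simpa using ha
    have h2 := (hN (φ a) (hφ a ha')).2
    have h3 : (hfin.toFinset.filter fun x => φ x = φ a).card =
        {x | x ∈ A ∧ φ x = φ a}.ncard := by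
      rw [← Set.ncard_coe_finset]
      congr 1
      ext x
      simp
    rw [h3]
    exact h2
  have h4 : (hfin.toFinset.image φ).card ≤ hW.toFinset.card := by
    apply Finset.card_le_card
    intro b hb
    rw [Finset.mem_image] at hb
    obtain ⟨a, ha, rfl⟩ := hb
    have ha' : a ∈ A := by simpa using ha
    simpa using hφ a ha'
  calc hfin.toFinset.card ≤ N * (hfin.toFinset.image φ).card := h1
    _ ≤ N * hW.toFinset.card := Nat.mul_le_mul_left _ h4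
    _ = hW.toFinset.card * N := Nat.mul_comm _ _

section
variable {X ι G : Type} [Group G] [MulAction G X] [MulAction G ι]
variable {d : X → X → ℕ} {C : ι → Set X} {P : ι → X → ℤ} {c M K : ℕ}

theorem exists_three {α : Type} (U : Set α) (f : α → ℕ) (hU : U.Finite) (h3 : 3 ≤ U.ncard)
    (hf : ∀ a ∈ U, ∀ b ∈ U, a ≠ b → f a ≠ f b) :
    ∃ a ∈ U, ∃ b ∈ U, ∃ c ∈ U, f a < f b ∧ f b < f c := by
  classical
  have hne : U.Nonempty := by
    rw [Set.nonempty_iff_ne_empty]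
    rintro rfl
    simp at h3
  obtain ⟨a, ha, hmin⟩ := hU.exists_minimalFor f U hne
  obtain ⟨c, hc, hmax⟩ := hU.exists_maximalFor f U hne
  have h4 : (U \ {a, c}).Nonempty := by
    rw [Set.nonempty_iff_ne_empty]
    intro h5
    have h6 : U ⊆ {a, c} := Set.diff_eq_empty.1 h5
    have h7 := Set.ncard_le_ncard h6 (Set.toFinite _)
    have h8 := Set.ncard_insert_le a ({c} : Set α)
    rw [Set.ncard_singleton] at h8
    omega
  obtain ⟨b, hb, hb'⟩ := h4
  simp only [Set.mem_insert_iff, Set.mem_singleton_iff, not_or] at hb'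
  have h9 := hf a ha b hb (fun h => hb'.1 h.symm)
  have h10 := hf b hb c hc hb'.2
  have h11 : f a ≤ f b := by
    by_contra h
    push Not at h
    have := hmin hb h.le
    omega
  have h12 : f b ≤ f c := by
    by_contra h
    push Not at h
    have := hmax hb h.le
    omega
  exact ⟨a, ha, b, hb, c, hc, lt_of_le_of_ne h11 h9, lt_of_le_of_ne h12 h10⟩

theorem three (S : Sys2 G d C P c M K) {k : ℕ} (hk : Fellow (dh d C) (dD d C K) k) (ρ : ℕ)
    (x y : X) (h : 2 * (2 * (3 * (ρ + 2 + 4 * k) + 2) + 3) + 2 ≤ dD d C K x y) :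
    ∃ l₁ l₀ l₂ : ι, l₁ ∈ LL d C K x y ∧ l₀ ∈ LL d C K x y ∧ l₂ ∈ LL d C K x y ∧
      ds (dh d C) (C l₁) x < ds (dh d C) (C l₀) x ∧ ds (dh d C) (C l₀) x < ds (dh d C) (C l₂) x ∧
      (∀ w ∈ C l₁, ρ < dD d C K x w ∧ ρ < dD d C K y w) ∧
      (∀ w ∈ C l₀, ρ < dD d C K x w ∧ ρ < dD d C K y w) ∧
      (∀ w ∈ C l₂, ρ < dD d C K x w ∧ ρ < dD d C K y w) := by
  set n₀ := 3 * (ρ + 2 + 4 * k) + 2 with hn₀
  set Wx : Set ι := {l | l ∈ LL d C K x y ∧ ∃ w ∈ C l, dD d C K x w ≤ ρ} with hWx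
  set Wy : Set ι := {l | l ∈ LL d C K x y ∧ ∃ w ∈ C l, dD d C K y w ≤ ρ} with hWy
  have hfin := (LL_fin S x y).1
  have h1 : Wx.ncard ≤ n₀ := by
    refine window S hk x y ρ 0 Wx (fun l hl => hl.1) ?_
    rintro l ⟨-, w, hw, hw'⟩
    exact ⟨w, hw, Nat.zero_le _, by omega⟩
  have h2 : Wy.ncard ≤ n₀ := by
    refine window S hk y x ρ 0 Wy (fun l hl => ?_) ?_
    · rw [LL_symm S y x]
      exact hl.1
    · rintro l ⟨-, w, hw, hw'⟩
      exact ⟨w, hw, Nat.zero_le _, by omega⟩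
  have h3 := le_cnt S x y
  have hfx : Wx.Finite := hfin.subset fun l hl => hl.1
  have hfy : Wy.Finite := hfin.subset fun l hl => hl.1
  have h4 : (LL d C K x y).ncard ≤ (LL d C K x y \ (Wx ∪ Wy)).ncard + (Wx ∪ Wy).ncard :=
    Set.ncard_le_ncard_diff_add_ncard _ _ (hfx.union hfy)
  have h5 := Set.ncard_union_le Wx Wy
  obtain ⟨a, ha, b, hb, e, he, h6, h7⟩ := exists_three (LL d C K x y \ (Wx ∪ Wy))
    (fun l => ds (dh d C) (C l) x) (hfin.subset Set.diff_subset) (by omega)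
    (fun l hl l' hl' hne => ord_ne S hl.1 hl'.1 hne)
  have key : ∀ l ∈ LL d C K x y \ (Wx ∪ Wy), ∀ w ∈ C l, ρ < dD d C K x w ∧ ρ < dD d C K y w := by
    rintro l ⟨hl, hl'⟩ w hw
    rw [Set.mem_union, not_or] at hl'
    constructor
    · by_contra hcon
      push Not at hcon
      exact hl'.1 ⟨hl, w, hw, hcon⟩
    · by_contra hcon
      push Not at hcon
      exact hl'.2 ⟨hl, w, hw, hcon⟩
  exact ⟨a, b, e, ha.1, hb.1, he.1, h6, h7, key a ha, key b hb, key e he⟩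

theorem stab_pos (S : Sys2 G d C P c M K) {k : ℕ} (hk : Fellow (dh d C) (dD d C K) k) {ε : ℕ}
    {x x' : X} {l : ι} (hd : dD d C K x x' ≤ ε) (hfar : ∀ w ∈ C l, ε + k < dD d C K x w) :
    |P l x - P l x'| ≤ M := by
  by_contra hcon
  push Not at hcon
  obtain ⟨u, hu⟩ := pj_ne (D := dh d C) (S.ne l) x
  have h1 := pass_btw S hcon hu
  obtain ⟨p, hp, h0, h2⟩ := pathR (geoD S) (dD_eq0 S) x x'
  obtain ⟨i, hi, h3⟩ := hk p _ u hp (by rw [h0, h2]; exact h1)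
  have h4 := hp 0 i (Nat.zero_le _) hi
  rw [h0] at h4
  have h5 := (geoD S).tri x (p i) u
  have h6 := (geoD S).symm u (p i)
  have h7 := hfar u hu.1
  omega

theorem pj_stable (S : Sys2 G d C P c M K) {l₁ l₀ l₂ : ι} {x y x' y' : X}
    (h₁ : l₁ ∈ LL d C K x y) (h₀ : l₀ ∈ LL d C K x y) (h₂ : l₂ ∈ LL d C K x y)
    (hlt : ds (dh d C) (C l₁) x < ds (dh d C) (C l₀) x)
    (hlt' : ds (dh d C) (C l₀) x < ds (dh d C) (C l₂) x)
    (hx : |P l₁ x - P l₁ x'| ≤ M) (hy : |P l₂ y - P l₂ y'| ≤ M) :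
    pj (dh d C) (C l₀) x' = pj (dh d C) (C l₀) x ∧
      pj (dh d C) (C l₀) y' = pj (dh d C) (C l₀) y ∧ l₀ ∈ LL d C K x' y' := by
  have hM := Int.natCast_nonneg M
  have hc := Int.natCast_nonneg c
  have hne₁ : l₀ ≠ l₁ := by
    rintro rfl
    omega
  have hne₂ : l₀ ≠ l₂ := by
    rintro rfl
    omega
  obtain ⟨w, hw⟩ := S.ne l₀
  have tri : ∀ a b c' e : ℤ, |a - b| ≤ |a - c'| + |c' - e| + |e - b| := by
    intro a b c' e
    have t1 := abs_sub_le a c' b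
    have t2 := abs_sub_le c' e b
    linarith
  have e1 : pj (dh d C) (C l₀) x' = pj (dh d C) (C l₀) x := by
    rw [(ord_exact S h₁ h₀ hlt).2]
    apply exact_pj S hne₁ hw
    have a1 := (ord_pos S h₁ h₀ hlt).2 w hw
    have a2 := sep_pos2 S h₁
    have a3 := tri (P l₁ x) (P l₁ y) (P l₁ x') (P l₁ w)
    have a4 := abs_sub_comm (P l₁ x') (P l₁ w)
    linarith
  have e2 : pj (dh d C) (C l₀) y' = pj (dh d C) (C l₀) y := by
    rw [(ord_exact S h₀ h₂ hlt').1]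
    apply exact_pj S hne₂ hw
    have a1 := (ord_pos S h₀ h₂ hlt').1 w hw
    have a2 := sep_pos2 S h₂
    have a3 := tri (P l₂ y) (P l₂ x) (P l₂ y') (P l₂ w)
    have a4 := abs_sub_comm (P l₂ y') (P l₂ w)
    have a5 := abs_sub_comm (P l₂ x) (P l₂ y)
    linarith
  refine ⟨e1, e2, ?_⟩
  obtain ⟨u, hu, v, hv, huv⟩ := h₀
  exact ⟨u, by rw [e1]; exact hu, v, by rw [e2]; exact hv, huv⟩

end

end AHA
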