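import Pool.Agent.AHA.Cone

set_option autoImplicit false

/-!
# AHA AVD: electric geodesics which avoid `C l` do not change the position

Proof of `exists_avd`.  Let `k` be the constant of `slim_h`, `k₁ = k + c`, `M = 4 c + (2 k₁ + 1) c`.

Let `p` be as in `Avd`, `n` its length.  (a) Each step changes `P l` by at most `c`: if
`d (p i) (p (i+1)) ≤ 1` use `S.lip`; otherwise both points are in some `C l'`, where `l' ≠ l` as the
step is not inside `C l`; use `S.sep l l'`.

(b) If `i ≤ j ≤ n` and no point `p t`, `i ≤ t ≤ j`, satisfies `∃ w ∈ C l, dh (p t) w ≤ k₁`, then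
`|P l (p i) - P l (p j)| ≤ c`: otherwise `S.pass` gives `u, w` with `Btw d (p i) u (p j)`,
`w ∈ C l`, `d u w ≤ c`, and `Fellow` (for the path `t ↦ p (i + t)` of length `j - i`) gives `t` with
`dh u (p (i + t)) ≤ k`, so `dh (p (i + t)) w ≤ k + c`, contradiction.

(c) If no `t ≤ n` is near `C l` (in the sense of (b)), then (b) finishes.  Otherwise let `a` be the
first and `b` the last such index.  `|P l (p 0) - P l (p a)| ≤ 2 c` : it is `0` if `a = 0`, otherwise
(b) for `0 ≤ a - 1` and (a) for the step at `a - 1`.  In the same way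
`|P l (p b) - P l (p n)| ≤ 2 c`.  Finally `b - a = dh (p a) (p b) ≤ k₁ + 1 + k₁` (through the points
of `C l`, `dh_C`), so by (a) `|P l (p a) - P l (p b)| ≤ (2 k₁ + 1) c`.
-/

namespace AHA

open Burn (Geo Btw Hyp Slim Fellow IsPath)

section
variable {X ι G : Type} [Group G] [MulAction G X] [MulAction G ι]
variable {d : X → X → ℕ} {C : ι → Set X} {P : ι → X → ℤ} {c : ℕ}

private theorem avd_step (S : Sys G d C P c) {l : ι} {x y : X} (h : R1 d C x y)
    (hn : ¬ (x ∈ C l ∧ y ∈ C l)) : |P l x - P l y| ≤ c := by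
  rcases h with h | ⟨l', hx, hy⟩
  · refine (S.lip l x y).trans ?_
    have h1 : (c : ℤ) * (d x y : ℤ) ≤ (c : ℤ) * 1 :=
      mul_le_mul_of_nonneg_left (by exact_mod_cast h) (by positivity)
    rwa [mul_one] at h1
  · refine S.sep l l' x y ?_ hx hy
    rintro rfl
    exact hn ⟨hx, hy⟩

private theorem avd_steps {f : ℕ → ℤ} {n : ℕ} (h : ∀ i, i < n → |f i - f (i + 1)| ≤ c) (i : ℕ) :
    ∀ m : ℕ, i + m ≤ n → |f i - f (i + m)| ≤ m * (c : ℤ) := by
  intro m
  induction m with
  | zero => intro _; simp
  | succ m ih =>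
    intro hm
    have h1 := ih (by omega)
    have h2 := h (i + m) (by omega)
    have h3 : |f i - f (i + (m + 1))| ≤ |f i - f (i + m)| + |f (i + m) - f (i + m + 1)| := by
      rw [← add_assoc]
      exact abs_sub_le _ _ _
    push_cast
    linarith

private theorem avd_far (S : Sys G d C P c) {k : ℕ} (hf : Fellow d (dh d C) k) {l : ι}
    {p : ℕ → X} {n : ℕ} (hp : IsPath (dh d C) p n) {i j : ℕ} (hij : i ≤ j) (hj : j ≤ n)
    (hfar : ∀ t, i ≤ t → t ≤ j → ¬ ∃ w ∈ C l, dh d C (p t) w ≤ k + c) :
    |P l (p i) - P l (p j)| ≤ c := by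
  by_contra hcon
  obtain ⟨u, w, hb, hw, huw⟩ := S.pass l (p i) (p j) (not_le.1 hcon)
  have hq : IsPath (dh d C) (fun t => p (i + t)) (j - i) := by
    intro a b hab hb'
    have h := hp (i + a) (i + b) (by omega) (by omega)
    change dh d C (p (i + a)) (p (i + b)) = b - a
    omega
  have hb' : Btw d ((fun t => p (i + t)) 0) u ((fun t => p (i + t)) (j - i)) := by
    have e1 : i + (j - i) = j := by omega
    change Btw d (p (i + 0)) u (p (i + (j - i)))
    rw [add_zero, e1]
    exact hb
  obtain ⟨t, ht, hut⟩ := hf _ _ u hq hb'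
  refine hfar (i + t) (by omega) (by omega) ⟨w, hw, ?_⟩
  have h1 : dh d C (p (i + t)) w ≤ dh d C (p (i + t)) u + dh d C u w := (geoh S).tri _ _ _
  have h2 : dh d C (p (i + t)) u = dh d C u (p (i + t)) := (geoh S).symm _ _
  have h3 : dh d C u w ≤ d u w := dh_le S u w
  have h4 : dh d C u (p (i + t)) ≤ k := hut
  omega

theorem exists_avd (S : Sys G d C P c) : ∃ M : ℕ, Avd d C P M := by
  classical
  obtain ⟨k, hf, -⟩ := slim_h S
  refine ⟨4 * c + (2 * (k + c) + 1) * c, ?_⟩
  intro l p n hp hR hne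
  have hstep : ∀ i, i < n → |P l (p i) - P l (p (i + 1))| ≤ c := fun i hi =>
    avd_step S (hR i hi) (hne i hi)
  have hc0 : (0 : ℤ) ≤ c := by positivity
  have hk0 : (0 : ℤ) ≤ k := by positivity
  by_cases hN : ∃ t, t ≤ n ∧ ∃ w ∈ C l, dh d C (p t) w ≤ k + c
  swap
  · have h1 := avd_far S hf (l := l) hp (Nat.zero_le n) le_rfl
      (fun t _ ht hw => hN ⟨t, ht, hw⟩)
    push_cast
    nlinarith
  · set a := Nat.find hN with ha
    obtain ⟨han, w, hw, haw⟩ := Nat.find_spec hN
    rw [← ha] at han haw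
    set Q : ℕ → Prop := fun t => ∃ w ∈ C l, dh d C (p t) w ≤ k + c with hQ
    set b := Nat.findGreatest Q n with hb
    have hbn : b ≤ n := Nat.findGreatest_le n
    have hab : a ≤ b := Nat.le_findGreatest han ⟨w, hw, haw⟩
    have hQb : Q b := Nat.findGreatest_spec (P := Q) han ⟨w, hw, haw⟩
    obtain ⟨w', hw', hbw⟩ := hQb
    have hA : |P l (p 0) - P l (p a)| ≤ 2 * (c : ℤ) := by
      rcases Nat.eq_zero_or_pos a with h0 | h0
      · rw [h0, sub_self, abs_zero]
        positivity
      · have h1 := avd_far S hf (l := l) hp (Nat.zero_le (a - 1)) (by omega) (fun t _ ht hw => by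
          have h2 := Nat.find_min hN (m := t) (by omega)
          exact h2 ⟨by omega, hw⟩)
        have h2 := hstep (a - 1) (by omega)
        have e1 : a - 1 + 1 = a := by omega
        rw [e1] at h2
        have h3 := abs_sub_le (P l (p 0)) (P l (p (a - 1))) (P l (p a))
        linarith
    have hB : |P l (p b) - P l (p n)| ≤ 2 * (c : ℤ) := by
      rcases Nat.lt_or_ge b n with h0 | h0
      · have h1 := avd_far S hf (l := l) hp (show b + 1 ≤ n from h0) le_rfl (fun t ht ht' hw => by
          exact Nat.findGreatest_is_greatest (P := Q) (n := n) (k := t) (by omega) ht' hw)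
        have h2 := hstep b h0
        have h3 := abs_sub_le (P l (p b)) (P l (p (b + 1))) (P l (p n))
        linarith
      · have e1 : b = n := le_antisymm hbn h0
        rw [e1, sub_self, abs_zero]
        positivity
    have hba : b - a ≤ 2 * (k + c) + 1 := by
      have h1 := hp a b hab hbn
      have h2 := (geoh S).tri (p a) w (p b)
      have h3 := (geoh S).tri w w' (p b)
      have h4 := dh_C (d := d) hw hw'
      have h5 := (geoh S).symm w' (p b)
      omega
    have hAB : |P l (p a) - P l (p b)| ≤ ((b - a : ℕ) : ℤ) * (c : ℤ) := by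
      have h1 := avd_steps (f := fun i => P l (p i)) hstep a (b - a) (by omega)
      have e1 : a + (b - a) = b := by omega
      simp only [e1] at h1
      exact h1
    have hAB2 : ((b - a : ℕ) : ℤ) * (c : ℤ) ≤ (2 * (k + c) + 1) * c := by
      have h1 : ((b - a : ℕ) : ℤ) ≤ 2 * ((k : ℤ) + c) + 1 := by exact_mod_cast hba
      exact mul_le_mul_of_nonneg_right h1 hc0
    have h3 := abs_sub_le (P l (p 0)) (P l (p a)) (P l (p n))
    have h4 := abs_sub_le (P l (p a)) (P l (p b)) (P l (p n))
    push_cast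
    linarith

end

end AHA
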