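import Pool.Agent.AHA.Wpf

set_option autoImplicit false

/-!
# AHA BPR: bounded projections
-/

namespace AHA

open Burn (Geo Btw Hyp Slim Fellow IsPath)

theorem run_lip (F : ℤ → ℤ) (s : ℕ) (hF : ∀ k, |F (k + 1) - F k| ≤ s) (i : ℤ) (n : ℕ) :
    F (i + n) - F i ≤ s * n := by
  induction n with
  | zero => simp
  | succ n ih =>
    have h1 := (abs_le.1 (hF (i + n))).2
    push_cast
    rw [← add_assoc]
    linarith

theorem run (F : ℤ → ℤ) (s c T : ℕ) (hF : ∀ k, |F (k + 1) - F k| ≤ s) (i j : ℤ) (hij : i ≤ j)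
    (h : 2 * (c : ℤ) + s * (T + 3) < F j - F i) :
    ∃ k₀ : ℤ, i ≤ k₀ ∧ k₀ + T ≤ j ∧
      ∀ t : ℕ, t ≤ T → F i + c ≤ F (k₀ + t) ∧ F (k₀ + t) ≤ F j - c := by
  classical
  obtain ⟨N, rfl⟩ : ∃ N : ℕ, j = i + N := ⟨(j - i).toNat, by omega⟩
  set a := Nat.findGreatest (fun n : ℕ => F (i + n) ≤ F i + c) N with ha
  have ha1 : F (i + a) ≤ F i + c :=
    Nat.findGreatest_spec (P := fun n : ℕ => F (i + n) ≤ F i + c) (m := 0) (Nat.zero_le _)
      (by simp)
  have haN : a ≤ N := Nat.findGreatest_le N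
  have ha2 : ∀ n : ℕ, a < n → n ≤ N → F i + c < F (i + n) := by
    intro n h1 h2
    have := Nat.findGreatest_is_greatest (P := fun n : ℕ => F (i + n) ≤ F i + c) h1 h2
    push Not at this
    exact this
  have hex : ∃ n : ℕ, a ≤ n ∧ F (i + N) - c ≤ F (i + n) := ⟨N, haN, by omega⟩
  set b := Nat.find hex with hb
  obtain ⟨hb1, hb2⟩ := Nat.find_spec hex
  rw [← hb] at hb1 hb2
  have hb3 : ∀ n : ℕ, a ≤ n → n < b → F (i + n) < F (i + N) - c := by
    intro n h1 h2
    have := Nat.find_min hex h2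
    push Not at this
    exact this h1
  have hbN : b ≤ N := Nat.find_min' hex ⟨haN, by omega⟩
  have h1 := run_lip F s hF (i + a) (b - a)
  have e1 : i + (a : ℤ) + ((b - a : ℕ) : ℤ) = i + b := by omega
  rw [e1] at h1
  have h2 : (s : ℤ) * (T + 3) < s * ((b - a : ℕ) : ℤ) := by omega
  have h3 : (T : ℤ) + 3 < ((b - a : ℕ) : ℤ) := lt_of_mul_lt_mul_left h2 (Nat.cast_nonneg s)
  refine ⟨i + a + 1, by omega, by omega, fun t ht => ?_⟩
  have e2 : i + (a : ℤ) + 1 + t = i + ((a + 1 + t : ℕ) : ℤ) := by push_cast; ring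
  rw [e2]
  have h4 := ha2 (a + 1 + t) (by omega) (by omega)
  have h5 := hb3 (a + 1 + t) (by omega) (by omega)
  constructor <;> omega

section
variable {X G : Type} [Group G] [MulAction G X]
variable {d : X → X → ℕ} {δ κ q : ℕ} {f : G} {o : X} {P Q : X → ℤ}

theorem bpr (L : Lx d δ κ f o) (A : LxAx d δ f o P Q q) (W : Wpd d f o) :
    ∃ Δ : ℕ, ∀ g : G, g ∉ EE d f o → ∀ i j : ℤ,
      |P (g • f ^ i • o) - P (g • f ^ j • o)| ≤ Δ := by
  have hg := L.geo
  obtain ⟨r, hr⟩ := near_A L A (9 * δ + 2 * q)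
  obtain ⟨ρ, hρ⟩ := near_pm L A q (2 * r)
  obtain ⟨n, hn, hfin⟩ := wset L W (ρ + r)
  set S := {h : G | d o (h • o) ≤ ρ + r ∧ (d (h • f ^ n • o) (f ^ n • o) ≤ ρ + r ∨
      d (h • f ^ n • o) ((f ^ n)⁻¹ • o) ≤ ρ + r)} with hS
  set T := n + S.ncard with hT
  refine ⟨2 * (3 * δ) + 2 * d o (f • o) * (T + 3), fun g hgE => ?_⟩
  by_contra hcon
  push Not at hcon
  obtain ⟨i, j, hij⟩ := hcon
  -- we may assume `i ≤ j`
  obtain ⟨i, j, hle, hij⟩ : ∃ i j : ℤ, i ≤ j ∧ ((2 * (3 * δ) + 2 * d o (f • o) * (T + 3) : ℕ) : ℤ) <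
      |P (g • f ^ i • o) - P (g • f ^ j • o)| := by
    rcases le_total i j with h | h
    · exact ⟨i, j, h, hij⟩
    · exact ⟨j, i, h, by rw [abs_sub_comm]; exact hij⟩
  have hstep : ∀ k : ℤ, |P (g • f ^ (k + 1) • o) - P (g • f ^ k • o)| ≤
      ((2 * d o (f • o) : ℕ) : ℤ) := by
    intro k
    have h1 := A.axis.lipP (g • f ^ (k + 1) • o) (g • f ^ k • o)
    have h2 := eg_zadd L k 1
    rw [pow_one, Nat.cast_one] at h2
    rw [hg.symm, L.iso, h2] at h1
    push_cast
    exact h1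
  -- the run
  obtain ⟨k₀, hk1, hk2, hk3⟩ : ∃ k₀ : ℤ, i ≤ k₀ ∧ k₀ + T ≤ j ∧ ∀ t : ℕ, t ≤ T →
      3 * (δ : ℤ) ≤ |P (g • f ^ i • o) - P (g • f ^ (k₀ + t) • o)| ∧
      3 * (δ : ℤ) ≤ |P (g • f ^ (k₀ + t) • o) - P (g • f ^ j • o)| := by
    rcases abs_cases (P (g • f ^ i • o) - P (g • f ^ j • o)) with c1 | c1
    · obtain ⟨k₀, h1, h2, h3⟩ := run (fun k => - P (g • f ^ k • o)) (2 * d o (f • o)) (3 * δ) T
        (by
          intro k
          have := hstep k
          rw [abs_le] at this ⊢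
          constructor <;> omega) i j hle (by
          rw [c1.1] at hij
          push_cast at hij ⊢
          linarith)
      refine ⟨k₀, h1, h2, fun t ht => ?_⟩
      have h4 := h3 t ht
      push_cast at h4
      constructor
      · refine le_trans ?_ (le_abs_self _)
        omega
      · refine le_trans ?_ (le_abs_self _)
        omega
    · obtain ⟨k₀, h1, h2, h3⟩ := run (fun k => P (g • f ^ k • o)) (2 * d o (f • o)) (3 * δ) T
        hstep i j hle (by
          rw [c1.1] at hij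
          push_cast at hij ⊢
          linarith)
      refine ⟨k₀, h1, h2, fun t ht => ?_⟩
      have h4 := h3 t ht
      push_cast at h4
      constructor
      · refine le_trans ?_ (neg_le_abs _)
        omega
      · refine le_trans ?_ (neg_le_abs _)
        omega
  have hnear : ∀ t : ℕ, ∃ a : ℤ, t ≤ T → d (g • f ^ (k₀ + t) • o) (f ^ a • o) ≤ r := by
    intro t
    by_cases ht : t ≤ T
    · have h1 := A.btw i (k₀ + t) j (by omega) (by omega)
      rw [← L.iso g (f ^ i • o), ← L.iso g (f ^ (k₀ + t) • o), ← L.iso g (f ^ i • o)] at h1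
      obtain ⟨a, ha⟩ := hr _ (by push_cast; exact mid_Q L A h1 (hk3 t ht).1 (hk3 t ht).2)
      exact ⟨a, fun _ => ha⟩
    · exact ⟨0, fun h => absurd h ht⟩
  choose a ha using hnear
  have hmem : ∀ t : ℕ, t ≤ S.ncard → f ^ (- a t) * g * f ^ (k₀ + t) ∈ S := by
    intro t ht
    have b1 := ha t (by omega)
    have b2 := ha (t + n) (by omega)
    set h := f ^ (- a t) * g * f ^ (k₀ + t) with hh
    have c1 : d o (h • o) ≤ r := by
      have e := L.iso (f ^ (a t)) o (h • o)
      rw [hh, mul_assoc, mul_smul, zpow_neg, smul_inv_smul, mul_smul] at e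
      rw [hh, mul_assoc, mul_smul, mul_smul, zpow_neg, ← e, hg.symm]
      exact b1
    have c2 : d (h • f ^ n • o) (f ^ (a (t + n) - a t) • o) ≤ r := by
      have e1 : h • f ^ n • o = f ^ (- a t) • (g • f ^ (k₀ + ((t + n : ℕ) : ℤ)) • o) := by
        rw [hh, ← zpow_natCast, ← mul_smul, ← mul_smul, ← mul_smul]
        congr 1
        push_cast
        rw [mul_assoc, ← zpow_add, add_assoc]
      have e2 : f ^ (a (t + n) - a t) • o = f ^ (- a t) • (f ^ a (t + n) • o) := by
        rw [← mul_smul, ← zpow_add]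
        congr 2
        ring
      rw [e1, e2, L.iso]
      exact b2
    have c3 := L.iso h o (f ^ n • o)
    have c4 := A.hgt (a (t + n) - a t)
    generalize f ^ (a (t + n) - a t) • o = v at c2 c4
    have t1 := hg.tri (h • o) o v
    have t2 := hg.tri (h • o) v (h • f ^ n • o)
    have t3 := hg.tri o (h • o) v
    have t4 := hg.tri (h • o) (h • f ^ n • o) v
    have s1 := hg.symm (h • o) o
    have s2 := hg.symm v (h • f ^ n • o)
    have c5 := hρ n v c4 (by omega) (by omega)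
    refine ⟨by omega, ?_⟩
    rcases c5 with c5 | c5
    · left
      have := hg.tri (h • f ^ n • o) v (f ^ n • o)
      omega
    · right
      have := hg.tri (h • f ^ n • o) v ((f ^ n)⁻¹ • o)
      omega
  -- pigeonhole
  obtain ⟨t, ht, t', ht', hne, heq⟩ := Set.exists_ne_map_eq_of_ncard_lt_of_maps_to
    (s := (Finset.range (S.ncard + 1) : Set ℕ)) (t := S) (by
      rw [Set.ncard_coe_finset, Finset.card_range]
      exact Nat.lt_succ_self _) (f := fun t : ℕ => f ^ (- a t) * g * f ^ (k₀ + t))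
    (fun t ht => hmem t (by
      have := Finset.mem_coe.1 ht
      rw [Finset.mem_range] at this
      omega)) hfin
  have key : ∀ t t' : ℕ, t < t' →
      f ^ (- a t) * g * f ^ (k₀ + t) = f ^ (- a t') * g * f ^ (k₀ + t') → False := by
    intro t t' hlt he
    refine hgE (conj_EE L (p := t' - t) (m := a t' - a t) (by omega) ?_)
    have e1 : f ^ (t' - t) = f ^ (k₀ + (t' : ℤ)) * (f ^ (k₀ + (t : ℤ)))⁻¹ := by
      rw [← zpow_neg, ← zpow_add, ← zpow_natCast]
      congr 1
      omega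
    have e2 : f ^ (a t' - a t) = f ^ (a t') * f ^ (- a t) := by
      rw [← zpow_add]
      congr 1
    rw [e1, e2]
    have e3 : g * f ^ (k₀ + (t' : ℤ)) = f ^ (a t') * (f ^ (- a t) * g * f ^ (k₀ + (t : ℤ))) := by
      rw [he, zpow_neg, mul_assoc, mul_inv_cancel_left]
    rw [← mul_assoc, e3]
    group
  rcases lt_or_gt_of_ne hne with h | h
  · exact key t t' h heq
  · exact key t' t h heq.symm

end

end AHA
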