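import Pool.Agent.AHA.Finl

set_option autoImplicit false

/-!
# AHA TRI: the quasi-triangle inequality for the separating elements

`tri_card`: suppose `F` has three elements; order them by `ds l x` (they have different values by
`ord_ne`): `l₁ < l₂ < l₃`.  As `|P l₂ x - P l₂ y| > 8 M + 9 c + 10` (`sep_pos2`), one of
`|P l₂ z - P l₂ x|`, `|P l₂ z - P l₂ y|` is more than `2 M + 2 c`.

Case 1, `|P l₂ z - P l₂ x| > 2 M + 2 c`.  Take `w ∈ C l₁` (`S.ne`); by `ord_pos`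
`|P l₂ w - P l₂ x| ≤ M + c`, so `|P l₂ w - P l₂ z| > M + c` and `exact_pj` gives
`pj l₁ z = pr2 l₁ l₂`; by `ord_exact` `pj l₁ y = pr2 l₁ l₂`.  So `pj l₁ z = pj l₁ y`, and
`l₁ ∈ LL x y` gives `l₁ ∈ LL x z`, contradiction.

Case 2, `|P l₂ z - P l₂ y| > 2 M + 2 c`: in the same way with `w ∈ C l₃`: `pj l₃ z = pr2 l₃ l₂ = pj l₃ x`,
so `l₃ ∈ LL z y`, contradiction.

`tri_ncard`: the set `LL x y \ (LL x z ∪ LL z y)` is finite with at most 2 elements.
-/

namespace AHA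

open Burn (Geo Btw Hyp Slim Fellow IsPath)

section
variable {X ι G : Type} [Group G] [MulAction G X] [MulAction G ι]
variable {d : X → X → ℕ} {C : ι → Set X} {P : ι → X → ℤ} {c M K : ℕ}

private theorem tri_core (S : Sys2 G d C P c M K) (x y z : X) (l₁ l₂ l₃ : ι)
    (h1 : l₁ ∈ LL d C K x y ∧ l₁ ∉ LL d C K x z ∧ l₁ ∉ LL d C K z y)
    (h2 : l₂ ∈ LL d C K x y ∧ l₂ ∉ LL d C K x z ∧ l₂ ∉ LL d C K z y)
    (h3 : l₃ ∈ LL d C K x y ∧ l₃ ∉ LL d C K x z ∧ l₃ ∉ LL d C K z y)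
    (h12 : ds (dh d C) (C l₁) x < ds (dh d C) (C l₂) x)
    (h23 : ds (dh d C) (C l₂) x < ds (dh d C) (C l₃) x) : False := by
  have hs := sep_pos2 S (show Sep d C K x y l₂ from h2.1)
  have hne12 : l₁ ≠ l₂ := by
    rintro rfl
    exact lt_irrefl _ h12
  have hne32 : l₃ ≠ l₂ := by
    rintro rfl
    exact lt_irrefl _ h23
  have hM : (0 : ℤ) ≤ M := Int.natCast_nonneg _
  have hc : (0 : ℤ) ≤ c := Int.natCast_nonneg _
  have hor : 2 * (M : ℤ) + 2 * c < |P l₂ z - P l₂ x| ∨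
      2 * (M : ℤ) + 2 * c < |P l₂ z - P l₂ y| := by
    by_contra hn
    push Not at hn
    obtain ⟨e1, e2⟩ := hn
    have h4 : P l₂ x - P l₂ y = (P l₂ z - P l₂ y) - (P l₂ z - P l₂ x) := by ring
    rw [h4] at hs
    have h5 := abs_sub (P l₂ z - P l₂ y) (P l₂ z - P l₂ x)
    linarith
  rcases hor with hor | hor
  · obtain ⟨w, hw⟩ := S.ne l₁
    have h4 := (ord_pos S h1.1 h2.1 h12).1 w hw
    have h5 : (M : ℤ) + c < |P l₂ w - P l₂ z| := by
      have h6 : P l₂ z - P l₂ x = (P l₂ w - P l₂ x) - (P l₂ w - P l₂ z) := by ring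
      rw [h6] at hor
      have h7 := abs_sub (P l₂ w - P l₂ x) (P l₂ w - P l₂ z)
      linarith
    have h6 := exact_pj S hne12 hw h5
    have h7 := (ord_exact S h1.1 h2.1 h12).1
    obtain ⟨u, hu, v, hv, huv⟩ := (show Sep d C K x y l₁ from h1.1)
    rw [h7, ← h6] at hv
    exact h1.2.1 ⟨u, hu, v, hv, huv⟩
  · obtain ⟨w, hw⟩ := S.ne l₃
    have h4 := (ord_pos S h2.1 h3.1 h23).2 w hw
    have h5 : (M : ℤ) + c < |P l₂ w - P l₂ z| := by
      have h6 : P l₂ z - P l₂ y = (P l₂ w - P l₂ y) - (P l₂ w - P l₂ z) := by ring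
      rw [h6] at hor
      have h7 := abs_sub (P l₂ w - P l₂ y) (P l₂ w - P l₂ z)
      linarith
    have h6 := exact_pj S hne32 hw h5
    have h7 := (ord_exact S h2.1 h3.1 h23).2
    obtain ⟨u, hu, v, hv, huv⟩ := (show Sep d C K x y l₃ from h3.1)
    rw [h7, ← h6] at hu
    exact h3.2.2 ⟨u, hu, v, hv, huv⟩

theorem tri_card (S : Sys2 G d C P c M K) (x y z : X) (F : Finset ι)
    (hF : ∀ l ∈ F, l ∈ LL d C K x y ∧ l ∉ LL d C K x z ∧ l ∉ LL d C K z y) : F.card ≤ 2 := by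
  by_contra hcard
  push Not at hcard
  obtain ⟨a, b, e, ha, hb, he, hab, hae, hbe⟩ := Finset.two_lt_card_iff.1 hcard
  have Ha := hF a ha
  have Hb := hF b hb
  have He := hF e he
  have n1 := ord_ne S Ha.1 Hb.1 hab
  have n2 := ord_ne S Ha.1 He.1 hae
  have n3 := ord_ne S Hb.1 He.1 hbe
  rcases lt_or_gt_of_ne n1 with h1 | h1
  · rcases lt_or_gt_of_ne n3 with h3 | h3
    · exact tri_core S x y z a b e Ha Hb He h1 h3
    · rcases lt_or_gt_of_ne n2 with h2 | h2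
      · exact tri_core S x y z a e b Ha He Hb h2 h3
      · exact tri_core S x y z e a b He Ha Hb h2 h1
  · rcases lt_or_gt_of_ne n2 with h2 | h2
    · exact tri_core S x y z b a e Hb Ha He h1 h2
    · rcases lt_or_gt_of_ne n3 with h3 | h3
      · exact tri_core S x y z b e a Hb He Ha h3 h2
      · exact tri_core S x y z e b a He Hb Ha h3 h1

theorem tri_ncard (S : Sys2 G d C P c M K) (x y z : X) :
    (LL d C K x y).ncard ≤ (LL d C K x z).ncard + (LL d C K z y).ncard + 2 := by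
  have f1 := (LL_fin S x y).1
  have f2 := (LL_fin S x z).1
  have f3 := (LL_fin S z y).1
  have fA : (LL d C K x y \ (LL d C K x z ∪ LL d C K z y)).Finite := f1.subset Set.sdiff_subset
  have hA : (LL d C K x y \ (LL d C K x z ∪ LL d C K z y)).ncard ≤ 2 := by
    rw [Set.ncard_eq_toFinset_card _ fA]
    refine tri_card S x y z _ fun l hl => ?_
    rw [Set.Finite.mem_toFinset, Set.mem_sdiff, Set.mem_union, not_or] at hl
    exact hl
  have hsub : LL d C K x y ⊆ (LL d C K x z ∪ LL d C K z y) ∪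
      (LL d C K x y \ (LL d C K x z ∪ LL d C K z y)) := by
    intro l hl
    by_cases h : l ∈ LL d C K x z ∪ LL d C K z y
    · exact Or.inl h
    · exact Or.inr ⟨hl, h⟩
  have h1 := Set.ncard_le_ncard hsub ((f2.union f3).union fA)
  have h2 := Set.ncard_union_le (LL d C K x z ∪ LL d C K z y)
    (LL d C K x y \ (LL d C K x z ∪ LL d C K z y))
  have h3 := Set.ncard_union_le (LL d C K x z) (LL d C K z y)
  omega

end

end AHA
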