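import Pool.Agent.AHA.Dmet
import Pool.Agent.AHA.Tri

set_option autoImplicit false

/-!
# AHA CNT: the new metric is the number of separating elements

`cnt_le`: induction on `n` for points `p 0, …, p n` of a `dD`-geodesic (`pathR`): `LL (p 0) (p n)` has at
most `3 n` elements.  Step: by `tri_ncard` with `z = p n`,
`ncard LL (p 0) (p (n+1)) ≤ 3 n + ncard LL (p n) (p (n+1)) + 2`, and `LL (p n) (p (n+1))` has at most
one element (`dD_r2`, `LL_C`).  Start: `LL_self`.

`le_cnt`: strong induction on `ncard (LL x y)`.  If `LL x y = ∅` use `dD_LL`.  Otherwise let `l ∈ LL x y`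
with `i = ds l x` minimal (`ds l x` means `ds (dh d C) (C l) x`); take an electric geodesic `p` from
`x` to `y` (`pathR`); it has a step inside `C l` (`sep_pos2`, `exists_lstep`), at index `i`
(`lstep_eq`).  Let `u = p i`, `v = p (i+1)`, both in `C l`.
* `LL x u = ∅` : let `l' ∈ LL x u`; then `l' ∈ LL x y` (`sep_left`) and `ds l' x < dh x u = i` by
  `pass_ds`, contradiction to the choice of `l`.  So `dD x u ≤ 1`.
* `dD u v ≤ 1` (`dD_C`).
* `LL v y ⊆ LL x y` by `sep_right`, and `l ∉ LL v y`: by `lstep_eq` `dh v y = ds l y`, so
  `v ∈ pj l y`, `|P l v - P l y| ≤ M` by `pj_pos`, contradiction to `sep_pos2`.  So `LL v y` has at most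
  `ncard (LL x y) - 1` elements, and by induction
  `dD x y ≤ 1 + 1 + 2 (ncard (LL x y) - 1) + 1`.
-/

namespace AHA

open Burn (Geo Btw Hyp Slim Fellow IsPath)

section
variable {X ι G : Type} [Group G] [MulAction G X] [MulAction G ι]
variable {d : X → X → ℕ} {C : ι → Set X} {P : ι → X → ℤ} {c M K : ℕ}

theorem cnt_le (S : Sys2 G d C P c M K) (x y : X) :
    (LL d C K x y).ncard ≤ 3 * dD d C K x y := by
  obtain ⟨p, hp, h0, h1⟩ := pathR (geoD S) (dD_eq0 S) x y
  have key : ∀ n, n ≤ dD d C K x y → (LL d C K (p 0) (p n)).ncard ≤ 3 * n := by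
    intro n
    induction n with
    | zero =>
      intro _
      rw [LL_self S, Set.ncard_empty]
    | succ n ih =>
      intro hn
      have h2 := ih (by omega)
      have h3 := tri_ncard S (p 0) (p (n + 1)) (p n)
      have h4 : (LL d C K (p n) (p (n + 1))).ncard ≤ 1 := by
        have h5 := hp n (n + 1) (by omega) hn
        rcases dD_r2 S (x := p n) (y := p (n + 1)) (by omega) with h | ⟨l, hx, hy⟩
        · rw [h, Set.ncard_empty]
          exact Nat.zero_le _
        · have h6 := Set.ncard_le_ncard (LL_C S hx hy) (Set.finite_singleton l)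
          rwa [Set.ncard_singleton] at h6
      omega
  have h2 := key _ le_rfl
  rwa [h0, h1] at h2

theorem le_cnt (S : Sys2 G d C P c M K) (x y : X) :
    dD d C K x y ≤ 2 * (LL d C K x y).ncard + 1 := by
  have key : ∀ n : ℕ, ∀ x : X, (LL d C K x y).ncard = n → dD d C K x y ≤ 2 * n + 1 := by
    intro n
    induction n using Nat.strong_induction_on with
    | _ n ih =>
      intro x hn
      by_cases hemp : LL d C K x y = ∅
      · have h1 := dD_LL S hemp
        omega
      · obtain ⟨l, hl, hmin⟩ := Set.exists_min_image (LL d C K x y)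
          (fun l => ds (dh d C) (C l) x) (LL_fin S x y).1 (Set.nonempty_iff_ne_empty.2 hemp)
        have hM := Int.natCast_nonneg M
        have hc := Int.natCast_nonneg c
        have a1 := sep_pos2 S hl
        obtain ⟨p, hp, h0, h1⟩ := pathR (geoh S.toSys) (dh_eq0 S.toSys) x y
        obtain ⟨i, hi, h2, h3⟩ := exists_lstep S (l := l) hp (by rw [h0, h1]; linarith)
        obtain ⟨h4, h5⟩ := lstep_eq S hp hi h2 h3
        rw [h0] at h4
        rw [h1] at h5
        have e1 : dh d C x (p i) = i := by
          have := hp 0 i (by omega) (by omega)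
          rw [h0] at this
          omega
        have e2 : dh d C (p i) y = dh d C x y - i := by
          have := hp i _ hi.le le_rfl
          rwa [h1] at this
        have e3 : dh d C x (p (i + 1)) = i + 1 := by
          have := hp 0 (i + 1) (by omega) (by omega)
          rw [h0] at this
          omega
        have e4 : dh d C (p (i + 1)) y = dh d C x y - (i + 1) := by
          have := hp (i + 1) _ hi le_rfl
          rwa [h1] at this
        have hbu : Burn.Btw (dh d C) x (p i) y := by
          unfold Burn.Btw
          omega
        have hbv : Burn.Btw (dh d C) x (p (i + 1)) y := by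
          unfold Burn.Btw
          omega
        have g1 : dD d C K x (p i) ≤ 1 := by
          apply dD_LL S
          rw [Set.eq_empty_iff_forall_notMem]
          intro l' hl'
          have b1 : ds (dh d C) (C l) x ≤ ds (dh d C) (C l') x := hmin l' (sep_left S hbu hl')
          have b2 := sep_pos2 S hl'
          have b3 := pass_ds S (l := l') (x := x) (y := p i) (by linarith)
          omega
        have g2 : dD d C K (p i) (p (i + 1)) ≤ 1 := dD_C S h2 h3
        have g3 : (LL d C K (p (i + 1)) y).ncard < n := by
          rw [← hn]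
          apply Set.ncard_lt_ncard _ (LL_fin S x y).1
          refine ⟨fun l' hl' => sep_right S hbv hl', fun hsub => ?_⟩
          have b1 : Sep d C K (p (i + 1)) y l := hsub hl
          have b2 := sep_pos2 S b1
          have b3 : p (i + 1) ∈ pj (dh d C) (C l) y := by
            refine ⟨h3, ?_⟩
            rw [h5, (geoh S.toSys).symm, e4]
          have b4 := pj_pos S b3
          rw [abs_sub_comm] at b4
          linarith
        have g4 := ih _ g3 (p (i + 1)) rfl
        have g5 := (geoD S).tri x (p i) y
        have g6 := (geoD S).tri (p i) (p (i + 1)) y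
        omega
  exact key _ x rfl

end

end AHA
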