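import Pool.Agent.AHA.Relm

set_option autoImplicit false

/-!
# AHA CONE: the electric metric

Proofs.  `R1` is reflexive and symmetric, chains exist by `rc_geo`.  So `geoh` is `geoR`, `dh_le` is
`dR_le` of `rc_geo`, `dh_C` is `dR_one`, `dh_r1` is `dR_le_one`, `dh_smul` is `dR_smul`.

`slim_h` : `Burn.guess c (1 + c)` applied to `d` and `dh d C`.  Its last hypothesis: let
`dh x y ≤ 1` and `Btw d x u y`.  By `dh_r1` either `d x y ≤ 1`, then `dh x u ≤ d x u ≤ 1`; or
`x, y ∈ C l`, and by `S.qc` there is `w ∈ C l` with `d u w ≤ c`, so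
`dh x u ≤ dh x w + dh w u ≤ 1 + c`.
-/

namespace AHA

open Burn (Geo Btw Hyp Slim Fellow IsPath)

section
variable {X ι G : Type} [Group G] [MulAction G X] [MulAction G ι]
variable {d : X → X → ℕ} {C : ι → Set X} {P : ι → X → ℤ} {c : ℕ}

theorem r1_refl (S : Sys G d C P c) (x : X) : R1 d C x x :=
  Or.inl (by rw [S.geo.refl]; exact Nat.zero_le 1)

theorem r1_symm (S : Sys G d C P c) {x y : X} (h : R1 d C x y) : R1 d C y x := by
  rcases h with h | ⟨l, hx, hy⟩
  · exact Or.inl (by rw [S.geo.symm]; exact h)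
  · exact Or.inr ⟨l, hy, hx⟩

theorem r1_chain (S : Sys G d C P c) (x y : X) : RC (R1 d C) (d x y) x y :=
  rc_geo S.geo S.eq0 (fun _ _ h => Or.inl h) x y

theorem geoh (S : Sys G d C P c) : Geo (dh d C) :=
  geoR (fun _ _ => r1_symm S) (fun x y => ⟨_, r1_chain S x y⟩)

theorem dh_le (S : Sys G d C P c) (x y : X) : dh d C x y ≤ d x y := dR_le (r1_chain S x y)

theorem dh_C {l : ι} {x y : X} (hx : x ∈ C l) (hy : y ∈ C l) : dh d C x y ≤ 1 :=
  dR_one (Or.inr ⟨l, hx, hy⟩)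

theorem dh_r1 (S : Sys G d C P c) {x y : X} (h : dh d C x y ≤ 1) : R1 d C x y :=
  dR_le_one (r1_refl S) (fun x y => ⟨_, r1_chain S x y⟩) h

theorem dh_eq0 (S : Sys G d C P c) : ∀ x y : X, dh d C x y = 0 → x = y :=
  fun _ _ h => dR_eq0 (fun x y => ⟨_, r1_chain S x y⟩) h

theorem mem_C_iff (S : Sys G d C P c) (g : G) (l : ι) (x : X) : x ∈ C l ↔ g • x ∈ C (g • l) := by
  refine ⟨S.act g l x, fun h => ?_⟩
  have h1 := S.act g⁻¹ _ _ h
  rwa [inv_smul_smul, inv_smul_smul] at h1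

theorem dh_smul (S : Sys G d C P c) (g : G) (x y : X) :
    dh d C (g • x) (g • y) = dh d C x y := by
  refine dR_smul (fun g x y h => ?_) g x y
  rcases h with h | ⟨l, hx, hy⟩
  · exact Or.inl (by rw [S.iso]; exact h)
  · exact Or.inr ⟨g • l, S.act g l x hx, S.act g l y hy⟩

theorem slim_h (S : Sys G d C P c) : ∃ k : ℕ, Fellow d (dh d C) k ∧ Slim (dh d C) k := by
  obtain ⟨k, hk⟩ := Burn.guess c (1 + c)
  refine ⟨k, hk X d (dh d C) S.geo (geoh S) S.slim (dh_le S) fun x y u hxy hu => ?_⟩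
  rcases dh_r1 S hxy with h | ⟨l, hx, hy⟩
  · have h1 := dh_le S x u
    unfold Burn.Btw at hu
    omega
  · obtain ⟨w, hw, hw'⟩ := S.qc l x y u hx hy hu
    have h1 := (geoh S).tri x w u
    have h2 : dh d C x w ≤ 1 := dh_C hx hw
    have h3 := dh_le S w u
    have h4 := S.geo.symm w u
    omega

/-- Steps of electric geodesics are steps `R1`. -/
theorem path_r1 (S : Sys G d C P c) {p : ℕ → X} {n : ℕ} (hp : IsPath (dh d C) p n) :
    ∀ i, i < n → R1 d C (p i) (p (i + 1)) := by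
  intro i hi
  have h := hp i (i + 1) (Nat.le_succ i) hi
  exact dh_r1 S (by omega)

end

end AHA
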