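import Pool.Agent.Burn.Guess
import Pool.Agent.Burn.Axl

set_option autoImplicit false

/-!
# AHA: from a WPD element to an acylindrical action, definitions

Overview: /team-store/aha_blueprint.md.  `Burn.Geo`, `Burn.Btw`, `Burn.Slim`, `Burn.Hyp`, `Burn.IsPath`,
`Burn.Fellow`, `Burn.Axis` are in `Pool/Agent/Burn/Defs.lean`.
-/

namespace AHA

open Burn (Geo Btw Hyp Slim Fellow IsPath)

section relation

variable {X : Type}

/-- Chains of length `k` of the relation `R`. -/
inductive RC (R : X → X → Prop) : ℕ → X → X → Prop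
  | nil (x : X) : RC R 0 x x
  | cons {k : ℕ} {x y z : X} : R x y → RC R k y z → RC R (k + 1) x z

/-- The chain metric. -/
noncomputable def dR (R : X → X → Prop) (x y : X) : ℕ := sInf {k | RC R k x y}

/-- The distance from `x` to the set `A`. -/
noncomputable def ds (D : X → X → ℕ) (A : Set X) (x : X) : ℕ := sInf {k | ∃ u ∈ A, D x u = k}

/-- The points of `A` nearest to `x`. -/
def pj (D : X → X → ℕ) (A : Set X) (x : X) : Set X := {u | u ∈ A ∧ D x u = ds D A x}

end relation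

section electric

variable {X ι : Type} (d : X → X → ℕ) (C : ι → Set X)

/-- One step of the electric metric: a step of `X`, or any step inside a member of the family. -/
def R1 (x y : X) : Prop := d x y ≤ 1 ∨ ∃ l, x ∈ C l ∧ y ∈ C l

/-- The electric metric. -/
noncomputable def dh (x y : X) : ℕ := dR (R1 d C) x y

/-- `l` separates `x` and `y`: some nearest points of `C l` (in the electric metric) to `x` and to `y`
are at distance more than `K`. -/
def Sep (K : ℕ) (x y : X) (l : ι) : Prop :=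
  ∃ u ∈ pj (dh d C) (C l) x, ∃ v ∈ pj (dh d C) (C l) y, K < d u v

/-- The set of the `l` which separate `x` and `y`. -/
def LL (K : ℕ) (x y : X) : Set ι := {l | Sep d C K x y l}

/-- One step of the new metric: nothing separates the points, or they are in one member of the
family. -/
def R2 (K : ℕ) (x y : X) : Prop := LL d C K x y = ∅ ∨ ∃ l, x ∈ C l ∧ y ∈ C l

/-- The new metric. -/
noncomputable def dD (K : ℕ) (x y : X) : ℕ := dR (R2 d C K) x y

/-- The points of `C l` nearest to `C l'`. -/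
def pr2 (l l' : ι) : Set X :=
  {v | v ∈ C l ∧ ∀ w ∈ C l, ds (dh d C) (C l') v ≤ ds (dh d C) (C l') w}

/-- Along an electric geodesic which has no step inside `C l` the position `P l` changes by at most
`M`. -/
def Avd (P : ι → X → ℤ) (M : ℕ) : Prop :=
  ∀ (l : ι) (p : ℕ → X) (n : ℕ), IsPath (dh d C) p n →
    (∀ i, i < n → R1 d C (p i) (p (i + 1))) →
    (∀ i, i < n → ¬ (p i ∈ C l ∧ p (i + 1) ∈ C l)) → |P l (p 0) - P l (p n)| ≤ M

end electric

section system

variable {X ι : Type} (G : Type) [Group G] [MulAction G X] [MulAction G ι]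

/-- A hyperbolic space with an action of `G` and an equivariant family of quasi-lines `C l`; `P l x` is
the position of `x` with respect to `C l`. -/
structure Sys (d : X → X → ℕ) (C : ι → Set X) (P : ι → X → ℤ) (c : ℕ) : Prop where
  geo : Geo d
  slim : Slim d c
  eq0 : ∀ x y, d x y = 0 → x = y
  iso : ∀ (g : G) (x y : X), d (g • x) (g • y) = d x y
  act : ∀ (g : G) (l : ι) (x : X), x ∈ C l → g • x ∈ C (g • l)
  ne : ∀ l, (C l).Nonempty
  qc : ∀ l x y u, x ∈ C l → y ∈ C l → Btw d x u y → ∃ w ∈ C l, d u w ≤ c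
  lip : ∀ l x y, |P l x - P l y| ≤ c * d x y
  pass : ∀ l x y, (c : ℤ) < |P l x - P l y| → ∃ u w, Btw d x u y ∧ w ∈ C l ∧ d u w ≤ c
  emb : ∀ l x y, x ∈ C l → y ∈ C l → (d x y : ℤ) ≤ |P l x - P l y| + c
  sep : ∀ l l' x y, l ≠ l' → x ∈ C l' → y ∈ C l' → |P l x - P l y| ≤ c
  fin : ∀ r : ℕ, ∃ N : ℕ, ∀ l, ∀ w ∈ C l, {g : G | g • l = l ∧ d w (g • w) ≤ r}.Finite ∧
    {g : G | g • l = l ∧ d w (g • w) ≤ r}.ncard ≤ N

/-- The same with the constants `M` and `K`. -/
structure Sys2 (d : X → X → ℕ) (C : ι → Set X) (P : ι → X → ℤ) (c M K : ℕ) : Prop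
    extends Sys G d C P c where
  avoid : Avd d C P M
  big : 10 * (M + c) + 10 ≤ K

variable {G}

/-- The element `f` is loxodromic for the action of `G` on the hyperbolic space `X`. -/
structure Lx (d : X → X → ℕ) (δ κ : ℕ) (f : G) (o : X) : Prop where
  geo : Geo d
  hyp : Hyp d δ
  big : 10 ≤ δ
  eq0 : ∀ x y, d x y = 0 → x = y
  iso : ∀ (g : G) (x y : X), d (g • x) (g • y) = d x y
  lox : ∀ n : ℕ, n ≤ κ * d o (f ^ n • o)

/-- Position and height with respect to the orbit of `o` under the powers of `f`. -/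
structure LxAx (d : X → X → ℕ) (δ : ℕ) (f : G) (o : X) (P Q : X → ℤ) (q : ℕ) : Prop where
  axis : Burn.Axis d (3 * (δ : ℤ)) P Q
  hgt : ∀ k : ℤ, Q (f ^ k • o) ≤ q
  pos : ∀ n : ℕ, |P (f ^ n • o) - 2 * d o (f ^ n • o)| ≤ q
  neg : ∀ n : ℕ, |P ((f ^ n)⁻¹ • o) + 2 * d o (f ^ n • o)| ≤ q
  btw : ∀ i j k : ℤ, i ≤ j → j ≤ k → d (f ^ i • o) (f ^ j • o) + d (f ^ j • o) (f ^ k • o) ≤
    d (f ^ i • o) (f ^ k • o) + q

/-- The WPD condition at the point `o`. -/
def Wpd (d : X → X → ℕ) (f : G) (o : X) : Prop :=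
  ∀ r : ℕ, ∃ n : ℕ, 1 ≤ n ∧
    {g : G | d o (g • o) ≤ r ∧ d (f ^ n • o) (g • f ^ n • o) ≤ r}.Finite

/-- The elements which map the orbit of `o` under `⟨f⟩` to a set at bounded distance from it. -/
def EE (d : X → X → ℕ) (f : G) (o : X) : Set G :=
  {h | ∃ B : ℕ, (∀ k : ℤ, ∃ m : ℤ, d (h • f ^ k • o) (f ^ m • o) ≤ B) ∧
    ∀ k : ℤ, ∃ m : ℤ, d (h⁻¹ • f ^ k • o) (f ^ m • o) ≤ B}

/-- The family of quasi-lines. -/
def Cf {X G : Type} [Group G] [MulAction G X] (E : Subgroup G) (o : X) (l : G ⧸ E) : Set X :=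
  {x | ∃ g : G, (g : G ⧸ E) = l ∧ x = g • o}

/-- The positions. -/
noncomputable def Pf {X G : Type} [Group G] [MulAction G X] (E : Subgroup G) (P : X → ℤ)
    (l : G ⧸ E) (x : X) : ℤ := P ((Quotient.out l : G)⁻¹ • x)

end system

/-- The data of the final step: an acylindrical action with unbounded orbits on a hyperbolic space
with integer distances. -/
structure Fin0 (G : Type) [Group G] (X : Type) [MulAction G X] (D : X → X → ℕ) (δ : ℕ) (o : X) :
    Prop where
  geo : Geo D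
  hyp : Hyp D δ
  eq0 : ∀ x y, D x y = 0 → x = y
  iso : ∀ (g : G) (x y : X), D (g • x) (g • y) = D x y
  acyl : ∀ ε : ℕ, ∃ R N : ℕ, ∀ x y : X, R ≤ D x y →
    {g : G | D x (g • x) ≤ ε ∧ D y (g • y) ≤ ε}.Finite ∧
    {g : G | D x (g • x) ≤ ε ∧ D y (g • y) ≤ ε}.ncard ≤ N
  unb : ∀ n : ℕ, ∃ g : G, n ≤ D o (g • o)

section hull

variable {X : Type}

/-- Extremal functions (the injective hull of the metric space `X`). -/
def Ext (D : X → X → ℕ) : Type :=
  {f : X → ℝ // (∀ x y, (D x y : ℝ) ≤ f x + f y) ∧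
    ∀ x, ∀ ε : ℝ, 0 < ε → ∃ y, f x + f y < D x y + ε}

/-- The supremum distance. -/
noncomputable def hd {D : X → X → ℕ} (f g : Ext D) : ℝ := ⨆ x, |f.1 x - g.1 x|

end hull

end AHA
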