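import Pool.Agent.AHA.Lxp
import Pool.Agent.Burn.Axis

set_option autoImplicit false

/-!
# AHA LXA: position and height with respect to the orbit of a loxodromic element

Translation of the part of `Pool/Agent/Burn/Axis.lean` up to `axis_axis` from left invariant metrics
on `G` to an action on `X`.
-/

namespace AHA

open Burn (Geo Btw Hyp Slim Fellow IsPath)
open Filter

section
variable {X G : Type} [Group G] [MulAction G X]
variable {d : X → X → ℕ} {δ κ : ℕ} {f : G} {o : X}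

/-- four points -/
theorem lxa_4 (hg : Geo d) (hh : Hyp d δ) {x p q o : X} {C : ℕ} (hx : d x o ≤ C)
    (h : d p q + (2 * C + δ + 1) ≤ d o p + d o q) :
    |((d x p : ℤ) - d o p) - ((d x q : ℤ) - d o q)| ≤ δ := by
  have s1 := hg.symm x o
  have s2 := hg.symm p o
  have s3 := hg.symm q o
  have s4 := hg.symm p q
  have t1 := hg.tri o x p
  have t2 := hg.tri o x q
  rw [abs_le]
  rcases hh x p o q with h1 | h1 <;> rcases hh x q o p with h2 | h2 <;>
    constructor <;> omega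

theorem lxa_inv (L : Lx d δ κ f o) (u : G) : d o (u⁻¹ • o) = d o (u • o) := by
  have h1 := L.iso u o (u⁻¹ • o)
  rw [smul_inv_smul] at h1
  rw [← h1, L.geo.symm]

theorem lxa_pow (L : Lx d δ κ f o) {N M : ℕ} (h : N ≤ M) :
    d (f ^ N • o) (f ^ M • o) = d o (f ^ (M - N) • o) ∧
      d ((f ^ N)⁻¹ • o) ((f ^ M)⁻¹ • o) = d o (f ^ (M - N) • o) := by
  have e : f ^ M = f ^ N * f ^ (M - N) := by rw [← pow_add, Nat.add_sub_cancel' h]
  have e' : f ^ M = f ^ (M - N) * f ^ N := by rw [← pow_add, Nat.sub_add_cancel h]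
  constructor
  · have h1 := L.iso (f ^ N) o (f ^ (M - N) • o)
    rw [← mul_smul, ← e] at h1
    exact h1
  · have h1 := L.iso (f ^ M) ((f ^ N)⁻¹ • o) ((f ^ M)⁻¹ • o)
    rw [smul_inv_smul] at h1
    rw [← h1, L.geo.symm, e', mul_smul, smul_inv_smul]

theorem lxa_kpos (L : Lx d δ κ f o) : 0 < κ := by
  have := L.lox 1
  by_contra h
  have h0 : κ = 0 := by omega
  rw [h0] at this
  omega

theorem lxa_far (L : Lx d δ κ f o) (K : ℕ) :
    ∃ N0 : ℕ, ∀ N M : ℕ, N0 ≤ N → N0 ≤ M →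
      d (f ^ N • o) (f ^ M • o) + K ≤ d o (f ^ N • o) + d o (f ^ M • o) ∧
      d ((f ^ N)⁻¹ • o) ((f ^ M)⁻¹ • o) + K ≤ d o ((f ^ N)⁻¹ • o) + d o ((f ^ M)⁻¹ • o) := by
  obtain ⟨B, hb⟩ := lx_products L
  have hκ := lxa_kpos L
  have hs : ∀ N : ℕ, κ * (K + B) ≤ N → K + B ≤ d o (f ^ N • o) := by
    intro N hN
    have h1 := L.lox N
    exact Nat.le_of_mul_le_mul_left (hN.trans h1) hκ
  have key : ∀ N M : ℕ, κ * (K + B) ≤ N → N ≤ M →
      d o (f ^ (M - N) • o) + K ≤ d o (f ^ N • o) + d o (f ^ M • o) := by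
    intro N M hN hNM
    have h1 := hb N (M - N)
    rw [Nat.add_sub_cancel' hNM] at h1
    have h2 := hs N hN
    omega
  refine ⟨κ * (K + B), fun N M hN hM => ?_⟩
  rw [lxa_inv L, lxa_inv L]
  rcases le_total N M with h | h
  · obtain ⟨e1, e2⟩ := lxa_pow L h
    have := key N M hN h
    rw [e1, e2]
    exact ⟨this, this⟩
  · obtain ⟨e1, e2⟩ := lxa_pow L h
    have := key M N hM h
    rw [L.geo.symm (f ^ N • o) (f ^ M • o), L.geo.symm ((f ^ N)⁻¹ • o) ((f ^ M)⁻¹ • o), e1, e2]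
    exact ⟨by omega, by omega⟩

/-- the limit data -/
structure LxLim (d : X → X → ℕ) (f : G) (o : X) (α β : X → ℤ) (w : ℤ) : Prop where
  a : ∀ x, ∀ᶠ N in (hyperfilter ℕ : Filter ℕ), (d x (f ^ N • o) : ℤ) - d o (f ^ N • o) = α x
  b : ∀ x, ∀ᶠ N in (hyperfilter ℕ : Filter ℕ),
    (d x ((f ^ N)⁻¹ • o) : ℤ) - d o ((f ^ N)⁻¹ • o) = β x
  w : ∀ᶠ N in (hyperfilter ℕ : Filter ℕ),
    2 * (d o (f ^ N • o) : ℤ) - d (f ^ N • o) ((f ^ N)⁻¹ • o) = w

theorem lxa_opp (L : Lx d δ κ f o) (n N : ℕ) :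
    d (f ^ n • o) ((f ^ N)⁻¹ • o) = d o (f ^ (n + N) • o) := by
  have e1 := L.iso (f ^ N) (f ^ n • o) ((f ^ N)⁻¹ • o)
  rw [smul_inv_smul, ← mul_smul, ← pow_add, add_comm N n] at e1
  rw [← e1, L.geo.symm]

theorem lxa_lims (L : Lx d δ κ f o) :
    ∃ (α β : X → ℤ) (w : ℤ), LxLim d f o α β w := by
  have hg := L.geo
  have h1 : ∀ x, ∃ v : ℤ, ∀ᶠ N in (hyperfilter ℕ : Filter ℕ),
      (d x (f ^ N • o) : ℤ) - d o (f ^ N • o) = v := by
    intro x
    refine Burn.axis_lim (B := d x o) fun N => ?_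
    have t1 := hg.tri x o (f ^ N • o)
    have t2 := hg.tri o x (f ^ N • o)
    have s1 := hg.symm x o
    rw [abs_le]
    constructor <;> omega
  have h2 : ∀ x, ∃ v : ℤ, ∀ᶠ N in (hyperfilter ℕ : Filter ℕ),
      (d x ((f ^ N)⁻¹ • o) : ℤ) - d o ((f ^ N)⁻¹ • o) = v := by
    intro x
    refine Burn.axis_lim (B := d x o) fun N => ?_
    have t1 := hg.tri x o ((f ^ N)⁻¹ • o)
    have t2 := hg.tri o x ((f ^ N)⁻¹ • o)
    have s1 := hg.symm x o
    rw [abs_le]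
    constructor <;> omega
  have h3 : ∃ v : ℤ, ∀ᶠ N in (hyperfilter ℕ : Filter ℕ),
      2 * (d o (f ^ N • o) : ℤ) - d (f ^ N • o) ((f ^ N)⁻¹ • o) = v := by
    obtain ⟨B, hb⟩ := lx_products L
    refine Burn.axis_lim (B := B) fun N => ?_
    have e1 := lxa_opp L N N
    have e2 := hb N N
    have t1 := hg.tri (f ^ N • o) o ((f ^ N)⁻¹ • o)
    have s2 := hg.symm (f ^ N • o) o
    have e3 := lxa_inv L (f ^ N)
    rw [abs_le]
    constructor <;> omega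
  choose α hα using h1
  choose β hβ using h2
  obtain ⟨w, hw⟩ := h3
  exact ⟨α, β, w, hα, hβ, hw⟩

theorem lxa_axis (L : Lx d δ κ f o) {α β : X → ℤ} {w : ℤ} (h : LxLim d f o α β w) :
    Burn.Axis d (3 * (δ : ℤ)) (fun x => β x - α x) (fun x => α x + β x + w) := by
  have hg := L.geo
  have hi := lxa_inv L
  have hδ := L.big
  refine ⟨fun x => ?_, fun x y => ?_, fun x y hxy => ?_, fun x y => ?_, fun x y => ?_, fun x => ?_⟩
  · obtain ⟨N, ha, hb, hw⟩ := ((h.a x).and ((h.b x).and h.w)).exists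
    have t1 := hg.tri (f ^ N • o) x ((f ^ N)⁻¹ • o)
    have s1 := hg.symm (f ^ N • o) x
    have e1 := hi (f ^ N)
    omega
  · obtain ⟨N, ha, hb, ha', hb', hw⟩ :=
      ((h.a x).and ((h.b x).and ((h.a y).and ((h.b y).and h.w)))).exists
    have e1 := hi (f ^ N)
    have s1 := le_abs_self (β x - α x - (β y - α y))
    have s2 := neg_abs_le (β x - α x - (β y - α y))
    rcases L.hyp x y (f ^ N • o) ((f ^ N)⁻¹ • o) with h1 | h1 <;> omega
  · obtain ⟨N, ha, hb, ha', hb', hw⟩ :=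
      ((h.a x).and ((h.b x).and ((h.a y).and ((h.b y).and h.w)))).exists
    have e1 := hi (f ^ N)
    have s1 := hg.symm x (f ^ N • o)
    have s2 := hg.symm y (f ^ N • o)
    have s3 := hg.symm x ((f ^ N)⁻¹ • o)
    have s4 := hg.symm y ((f ^ N)⁻¹ • o)
    have s5 := hg.symm x y
    have s6 := hg.symm (f ^ N • o) ((f ^ N)⁻¹ • o)
    rcases abs_cases (β x - α x - (β y - α y)) with h1 | h1
    · rcases L.hyp x ((f ^ N)⁻¹ • o) y (f ^ N • o) with h2 | h2 <;> omega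
    · rcases L.hyp x (f ^ N • o) y ((f ^ N)⁻¹ • o) with h2 | h2 <;> omega
  · obtain ⟨N, ha, hb, ha', hb'⟩ := ((h.a x).and ((h.b x).and ((h.a y).and (h.b y)))).exists
    have t1 := hg.tri x y (f ^ N • o)
    have t2 := hg.tri y x (f ^ N • o)
    have t3 := hg.tri x y ((f ^ N)⁻¹ • o)
    have t4 := hg.tri y x ((f ^ N)⁻¹ • o)
    have s1 := hg.symm x y
    rw [abs_le]
    constructor <;> omega
  · obtain ⟨N, ha, hb, ha', hb'⟩ := ((h.a x).and ((h.b x).and ((h.a y).and (h.b y)))).exists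
    have t1 := hg.tri x y (f ^ N • o)
    have t2 := hg.tri y x (f ^ N • o)
    have t3 := hg.tri x y ((f ^ N)⁻¹ • o)
    have t4 := hg.tri y x ((f ^ N)⁻¹ • o)
    have s1 := hg.symm x y
    rw [abs_le]
    constructor <;> omega
  · -- a point near the axis
    obtain ⟨C, hC⟩ : ∃ C : ℕ, 2 * (d x o : ℤ) + (α x + β x + w) + 1 + 2 * δ ≤ C :=
      ⟨(2 * (d x o : ℤ) + (α x + β x + w) + 1 + 2 * δ).toNat, Int.self_le_toNat _⟩
    obtain ⟨N0, hN0⟩ := lxa_far L (2 * C + δ + 1)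
    obtain ⟨M, hM, ha, hb, hw⟩ :=
      ((Burn.axis_ge N0).and ((h.a x).and ((h.b x).and h.w))).exists
    have e1 := hi (f ^ M)
    have hN0' := fun N hN => hN0 N M hN hM
    -- the point
    generalize f ^ M • o = ξ at *
    generalize (f ^ M)⁻¹ • o = ξ' at *
    have t1 := hg.tri ξ' x ξ
    have t2 := hg.tri x ξ' ξ
    have t3 := hg.tri x ξ ξ'
    have s1 := hg.symm ξ x
    have s2 := hg.symm ξ' x
    have s3 := hg.symm ξ ξ'
    obtain ⟨k, hk1, hk2⟩ : ∃ k : ℕ, (2 * (k : ℤ) ≤ d ξ' ξ + ((d x ξ' : ℤ) - d x ξ)) ∧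
        ((d ξ' ξ : ℤ) + ((d x ξ' : ℤ) - d x ξ) ≤ 2 * k + 1) :=
      ⟨(((d ξ' ξ : ℤ) + ((d x ξ' : ℤ) - d x ξ)) / 2).toNat, by omega, by omega⟩
    obtain ⟨a, ha1, ha2⟩ := hg.mid ξ' ξ k (d ξ' ξ - k) (by omega)
    have s4 := hg.symm ξ' a
    have s5 := hg.symm ξ a
    have s6 := hg.symm x a
    have hxa : 2 * (d x a : ℤ) ≤ (α x + β x + w) + 1 + 2 * δ := by
      rcases L.hyp x a ξ' ξ with h1 | h1 <;> omega
    have ta := hg.tri a x o
    have haC : d a o ≤ C := by omega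
    obtain ⟨N, hN, hav, hbv⟩ := ((Burn.axis_ge N0).and ((h.a a).and (h.b a))).exists
    obtain ⟨f1, f2⟩ := hN0' N hN
    have g1 := abs_le.1 (lxa_4 hg L.hyp haC f1)
    have g2 := abs_le.1 (lxa_4 hg L.hyp haC f2)
    refine ⟨a, ?_, ?_⟩
    · omega
    · rw [abs_le]
      constructor <;> omega

theorem exists_lxAx (L : Lx d δ κ f o) :
    ∃ (P Q : X → ℤ) (q : ℕ), LxAx d δ f o P Q q := by
  obtain ⟨α, β, w, h⟩ := lxa_lims L
  have hA := lxa_axis L h
  obtain ⟨B, hb⟩ := lx_products L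
  have hg := L.geo
  have hi := lxa_inv L
  -- values on the positive half
  have v1 : ∀ n : ℕ, (-(d o (f ^ n • o) : ℤ) ≤ α (f ^ n • o) ∧
      α (f ^ n • o) ≤ -(d o (f ^ n • o) : ℤ) + B) ∧ ((d o (f ^ n • o) : ℤ) - B ≤ β (f ^ n • o) ∧
      β (f ^ n • o) ≤ (d o (f ^ n • o) : ℤ)) := by
    intro n
    obtain ⟨N, hN, ha, hb'⟩ := ((Burn.axis_ge n).and ((h.a (f ^ n • o)).and
      (h.b (f ^ n • o)))).exists
    have e1 := (lxa_pow L hN).1
    have e2 := hb n (N - n)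
    rw [Nat.add_sub_cancel' hN] at e2
    have e3 := lxa_opp L n N
    have e4 := hb n N
    have e5 := hi (f ^ N)
    have t1 := hg.tri o (f ^ n • o) (f ^ N • o)
    have t2 := hg.tri (f ^ n • o) o ((f ^ N)⁻¹ • o)
    have s1 := hg.symm (f ^ n • o) o
    refine ⟨⟨?_, ?_⟩, ?_, ?_⟩ <;> omega
  have v2 : ∀ n : ℕ, ((d o (f ^ n • o) : ℤ) - B ≤ α ((f ^ n)⁻¹ • o) ∧
      α ((f ^ n)⁻¹ • o) ≤ (d o (f ^ n • o) : ℤ)) ∧
      (-(d o (f ^ n • o) : ℤ) ≤ β ((f ^ n)⁻¹ • o) ∧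
      β ((f ^ n)⁻¹ • o) ≤ -(d o (f ^ n • o) : ℤ) + B) := by
    intro n
    obtain ⟨N, hN, ha, hb'⟩ := ((Burn.axis_ge n).and ((h.a ((f ^ n)⁻¹ • o)).and
      (h.b ((f ^ n)⁻¹ • o)))).exists
    have e1 := (lxa_pow L hN).2
    have e2 := hb n (N - n)
    rw [Nat.add_sub_cancel' hN] at e2
    have e3 := lxa_opp L N n
    have e3' := hg.symm (f ^ N • o) ((f ^ n)⁻¹ • o)
    have e4 := hb n N
    have e6 : N + n = n + N := add_comm _ _
    rw [e6] at e3
    have e5 := hi (f ^ N)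
    have e7 := hi (f ^ n)
    have t1 := hg.tri o ((f ^ n)⁻¹ • o) ((f ^ N)⁻¹ • o)
    have t2 := hg.tri (f ^ N • o) o ((f ^ n)⁻¹ • o)
    have s1 := hg.symm (f ^ N • o) o
    have s2 := hg.symm ((f ^ n)⁻¹ • o) o
    refine ⟨⟨?_, ?_⟩, ?_, ?_⟩ <;> omega
  have hw : 0 ≤ w ∧ w ≤ B := by
    obtain ⟨N, hN⟩ := h.w.exists
    have e3 := lxa_opp L N N
    have e4 := hb N N
    have t2 := hg.tri (f ^ N • o) o ((f ^ N)⁻¹ • o)
    have s1 := hg.symm (f ^ N • o) o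
    have e5 := hi (f ^ N)
    constructor <;> omega
  refine ⟨fun x => β x - α x, fun x => α x + β x + w, 2 * B, hA, fun k => ?_, fun n => ?_,
    fun n => ?_, fun i j k hij hjk => ?_⟩
  · push_cast
    rcases Int.eq_nat_or_neg k with ⟨n, rfl | rfl⟩
    · rw [zpow_natCast]
      have := v1 n
      omega
    · rw [zpow_neg, zpow_natCast]
      have := v2 n
      omega
  · have := v1 n
    push_cast
    rw [abs_le]
    constructor <;> omega
  · have := v2 n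
    push_cast
    rw [abs_le]
    constructor <;> omega
  · obtain ⟨m, rfl⟩ : ∃ m : ℕ, j = i + m := ⟨(j - i).toNat, by omega⟩
    obtain ⟨l, rfl⟩ : ∃ l : ℕ, k = i + m + l := ⟨(k - (i + m)).toNat, by omega⟩
    have e1 : ∀ (i : ℤ) (m : ℕ), d (f ^ i • o) (f ^ (i + (m : ℤ)) • o) = d o (f ^ m • o) := by
      intro i m
      rw [zpow_add, zpow_natCast, mul_smul, L.iso]
    have e2 := e1 i m
    have e3 := e1 (i + m) l
    have e4 := e1 i (m + l)
    rw [Nat.cast_add, ← add_assoc] at e4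
    have := hb m l
    omega

end

end AHA
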