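import Pool.Agent.AHA.Finl

set_option autoImplicit false

/-!
# AHA UNB: a Behrstock inequality and long chains

`behr`: let `w₁ ∈ pj l z` (`pj_ne`), so `w₁ ∈ C l`, `|P l' w' - P l' w₁| ≤ c` by `S.sep` and
`|P l' z - P l' w₁| > M`.  Take an electric geodesic `p` from `z` to `w₁` (`pathR`), of length
`n = ds l z`; it has a step `(j, j+1)` inside `C l'` (`exists_lstep`).  Its part up to `j` has no step
inside `C l`: for such a step, at `i < j`, `lstep_eq` for the whole path gives `i = ds l z = n`.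
So `avd2` gives `|P l z - P l (p j)| ≤ M`, and for `w ∈ C l'`: `|P l (p j) - P l w| ≤ c` by `S.sep`.

`unb_seq`: let `B₁ = M + c + c η`, `L` the bound in `hL` (so `L ≥ 4 B₁`, `L ≥ 2 B₁ + 2 M + c K` and
`L ≥ 2 B₁ + c + 1` etc.).
(1) For all `a ≤ i ≤ n`: `|P (l i) (x a) - P (l i) (x i)| ≤ B₁`.  Induction on `i`.  `i = a`: `0`.  Step:
`|P (l i) (x a) - P (l i) (y i)| > L - B₁`, and `|P (l i) (y i) - P (l i) (x (i+1))| ≤ c η` by `S.lip`, so
`|P (l i) (x (i+1)) - P (l i) (x a)| > L - B₁ - c η > M + c`.  `behr` with `l = l (i+1)`, `l' = l i`,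
`z = x a`, `w' = x (i+1)` gives, for `w = y i ∈ C (l i)`,
`|P (l (i+1)) (x a) - P (l (i+1)) (y i)| ≤ M + c`, and
`|P (l (i+1)) (y i) - P (l (i+1)) (x (i+1))| ≤ c η`.
(2) In the same way (or by applying (1) to the reversed chain) for all `i ≤ b ≤ n`:
`|P (l i) (y b) - P (l i) (y i)| ≤ B₁`.
(3) So for `a ≤ i ≤ b`: `|P (l i) (x a) - P (l i) (y b)| > L - 2 B₁`.  With `a = 0`, `b = n` and `pos_sep`:
`l i ∈ LL (x 0) (y n)`.
(4) The `l i` are different: let `i < j`, `l i = l j`.  Then `j ≥ i + 2` by `hl`.  Let `m = i + 1`,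
`l m ≠ l i`.  `x i, y j ∈ C (l i)`, so `|P (l m) (x i) - P (l m) (y j)| ≤ c` by `S.sep`, contradiction to
(3).
So `LL (x 0) (y n)` (finite by `LL_fin`) has at least `n + 1` elements.
-/

namespace AHA

open Burn (Geo Btw Hyp Slim Fellow IsPath)

section
variable {X ι G : Type} [Group G] [MulAction G X] [MulAction G ι]
variable {d : X → X → ℕ} {C : ι → Set X} {P : ι → X → ℤ} {c M K : ℕ}

theorem behr (S : Sys2 G d C P c M K) {l l' : ι} {z w' : X} (hne : l ≠ l') (hw' : w' ∈ C l)
    (h : (M : ℤ) + c < |P l' w' - P l' z|) : ∀ w ∈ C l', |P l z - P l w| ≤ M + c := by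
  intro w hw
  obtain ⟨w₁, hw₁⟩ := pj_ne (D := dh d C) (S.ne l) z
  have hw₁C : w₁ ∈ C l := hw₁.1
  have hds : dh d C z w₁ = ds (dh d C) (C l) z := hw₁.2
  have h1 : |P l' w' - P l' w₁| ≤ c := S.sep l' l w' w₁ (Ne.symm hne) hw' hw₁C
  obtain ⟨p, hp, hp0, hpn⟩ := pathR (geoh S.toSys) (dh_eq0 S.toSys) z w₁
  have h2 : (M : ℤ) < |P l' (p 0) - P l' (p (dh d C z w₁))| := by
    rw [hp0, hpn]
    have e1 : P l' w' - P l' z = (P l' w' - P l' w₁) + -(P l' z - P l' w₁) := by ring
    have e2 : |P l' w' - P l' z| ≤ |P l' w' - P l' w₁| + |P l' z - P l' w₁| := by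
      rw [e1]
      refine (abs_add_le _ _).trans ?_
      rw [abs_neg]
    linarith
  obtain ⟨j, hj, hj1, hj2⟩ := exists_lstep S hp h2
  have h3 : |P l (p 0) - P l (p j)| ≤ M := by
    refine avd2 S (path_head hp hj.le) ?_
    rintro i hi ⟨hi1, hi2⟩
    have h4 := (lstep_eq S hp (lt_trans hi hj) hi1 hi2).1
    rw [hp0, ← hds] at h4
    omega
  have h5 : |P l (p j) - P l w| ≤ c := S.sep l l' (p j) w hne hj1 hw
  rw [hp0] at h3
  have e1 : P l z - P l w = (P l z - P l (p j)) + (P l (p j) - P l w) := by ring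
  rw [e1]
  refine (abs_add_le _ _).trans ?_
  linarith

/-- Steps change a position by at most `c η`. -/
private lemma lipη (S : Sys2 G d C P c M K) {η : ℕ} {u v : X} (h : d u v ≤ η) (l : ι) :
    |P l u - P l v| ≤ (c : ℤ) * η := by
  refine (S.lip l u v).trans ?_
  have : ((d u v : ℕ) : ℤ) ≤ (η : ℤ) := by exact_mod_cast h
  exact mul_le_mul_of_nonneg_left this (Int.natCast_nonneg c)

theorem unb_seq (S : Sys2 G d C P c M K) (η n : ℕ) (l : ℕ → ι) (x y : ℕ → X)
    (hx : ∀ i, i ≤ n → x i ∈ C (l i)) (hy : ∀ i, i ≤ n → y i ∈ C (l i))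
    (hd : ∀ i, i < n → d (y i) (x (i + 1)) ≤ η) (hl : ∀ i, i < n → l i ≠ l (i + 1))
    (hL : ∀ i, i ≤ n → 4 * ((M : ℤ) + 2 * c + c * η) + 2 * M + c * K + 1 <
      |P (l i) (x i) - P (l i) (y i)|) :
    n + 1 ≤ (LL d C K (x 0) (y n)).ncard := by
  have hM0 : (0 : ℤ) ≤ M := Int.natCast_nonneg M
  have hc0 : (0 : ℤ) ≤ c := Int.natCast_nonneg c
  have hcη : (0 : ℤ) ≤ (c : ℤ) * η := mul_nonneg hc0 (Int.natCast_nonneg η)
  have hcK : (0 : ℤ) ≤ (c : ℤ) * K := mul_nonneg hc0 (Int.natCast_nonneg K)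
  have hds : ∀ u v : X, d u v = d v u := S.geo.symm
  -- (1)
  have h1 : ∀ k a, a + k ≤ n →
      |P (l (a + k)) (x a) - P (l (a + k)) (x (a + k))| ≤ (M : ℤ) + c + c * η := by
    intro k
    induction k with
    | zero => intro a _; simp only [Nat.add_zero, sub_self, abs_zero]; linarith
    | succ k ih =>
      intro a hak
      have hi : a + k ≤ n := by omega
      have hi' : a + k < n := by omega
      have IH := ih a hi
      have g1 := hL (a + k) hi
      have g2 : |P (l (a + k)) (y (a + k)) - P (l (a + k)) (x (a + k + 1))| ≤ (c : ℤ) * η :=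
        lipη S (hd (a + k) hi') _
      have g3 : (M : ℤ) + c < |P (l (a + k)) (x (a + k + 1)) - P (l (a + k)) (x a)| := by
        have e1 : P (l (a + k)) (x (a + k)) - P (l (a + k)) (y (a + k)) =
            -(P (l (a + k)) (x a) - P (l (a + k)) (x (a + k))) +
            (-(P (l (a + k)) (x (a + k + 1)) - P (l (a + k)) (x a)) +
            -(P (l (a + k)) (y (a + k)) - P (l (a + k)) (x (a + k + 1)))) := by ring
        rw [e1] at g1
        have e2 := abs_add_le (-(P (l (a + k)) (x a) - P (l (a + k)) (x (a + k))))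
          (-(P (l (a + k)) (x (a + k + 1)) - P (l (a + k)) (x a)) +
            -(P (l (a + k)) (y (a + k)) - P (l (a + k)) (x (a + k + 1))))
        have e3 := abs_add_le (-(P (l (a + k)) (x (a + k + 1)) - P (l (a + k)) (x a)))
            (-(P (l (a + k)) (y (a + k)) - P (l (a + k)) (x (a + k + 1))))
        rw [abs_neg] at e2
        rw [abs_neg, abs_neg] at e3
        linarith
      have g4 := behr S (Ne.symm (hl (a + k) hi')) (hx (a + k + 1) hak) g3 (y (a + k)) (hy _ hi)
      have g5 : |P (l (a + k + 1)) (y (a + k)) - P (l (a + k + 1)) (x (a + k + 1))| ≤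
          (c : ℤ) * η := lipη S (hd (a + k) hi') _
      show |P (l (a + k + 1)) (x a) - P (l (a + k + 1)) (x (a + k + 1))| ≤ _
      have e1 : P (l (a + k + 1)) (x a) - P (l (a + k + 1)) (x (a + k + 1)) =
          (P (l (a + k + 1)) (x a) - P (l (a + k + 1)) (y (a + k))) +
          (P (l (a + k + 1)) (y (a + k)) - P (l (a + k + 1)) (x (a + k + 1))) := by ring
      rw [e1]
      refine (abs_add_le _ _).trans ?_
      linarith
  -- (2)
  have h2 : ∀ k i, i + k ≤ n →
      |P (l i) (y (i + k)) - P (l i) (y i)| ≤ (M : ℤ) + c + c * η := by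
    intro k
    induction k with
    | zero => intro i _; simp only [Nat.add_zero, sub_self, abs_zero]; linarith
    | succ k ih =>
      intro i hik
      have hi' : i < n := by omega
      have hi1 : i + 1 ≤ n := by omega
      have IH := ih (i + 1) (by omega)
      have hk : i + 1 + k = i + (k + 1) := by omega
      rw [hk] at IH
      have g1 := hL (i + 1) hi1
      have g2 : |P (l (i + 1)) (y i) - P (l (i + 1)) (x (i + 1))| ≤ (c : ℤ) * η :=
        lipη S (hd i hi') _
      have g3 : (M : ℤ) + c < |P (l (i + 1)) (y i) - P (l (i + 1)) (y (i + (k + 1)))| := by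
        have e1 : P (l (i + 1)) (x (i + 1)) - P (l (i + 1)) (y (i + 1)) =
            -(P (l (i + 1)) (y i) - P (l (i + 1)) (x (i + 1))) +
            ((P (l (i + 1)) (y i) - P (l (i + 1)) (y (i + (k + 1)))) +
            (P (l (i + 1)) (y (i + (k + 1))) - P (l (i + 1)) (y (i + 1)))) := by ring
        rw [e1] at g1
        have e2 := abs_add_le (-(P (l (i + 1)) (y i) - P (l (i + 1)) (x (i + 1))))
            ((P (l (i + 1)) (y i) - P (l (i + 1)) (y (i + (k + 1)))) +
            (P (l (i + 1)) (y (i + (k + 1))) - P (l (i + 1)) (y (i + 1))))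
        have e3 := abs_add_le (P (l (i + 1)) (y i) - P (l (i + 1)) (y (i + (k + 1))))
            (P (l (i + 1)) (y (i + (k + 1))) - P (l (i + 1)) (y (i + 1)))
        rw [abs_neg] at e2
        linarith
      have g4 := behr S (hl i hi') (hy i hi'.le) g3 (x (i + 1)) (hx _ hi1)
      have g5 : |P (l i) (y i) - P (l i) (x (i + 1))| ≤ (c : ℤ) * η := lipη S (hd i hi') _
      have e1 : P (l i) (y (i + (k + 1))) - P (l i) (y i) =
          (P (l i) (y (i + (k + 1))) - P (l i) (x (i + 1))) +
          -(P (l i) (y i) - P (l i) (x (i + 1))) := by ring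
      rw [e1]
      refine (abs_add_le _ _).trans ?_
      rw [abs_neg]
      linarith
  -- (3)
  have h3 : ∀ a i b, a ≤ i → i ≤ b → b ≤ n →
      2 * (M : ℤ) + c * K + c < |P (l i) (x a) - P (l i) (y b)| := by
    intro a i b hai hib hbn
    have g1 := h1 (i - a) a (by omega)
    rw [show a + (i - a) = i by omega] at g1
    have g2 := h2 (b - i) i (by omega)
    rw [show i + (b - i) = b by omega] at g2
    have g3 := hL i (by omega)
    have e1 : P (l i) (x i) - P (l i) (y i) =
        -(P (l i) (x a) - P (l i) (x i)) +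
        ((P (l i) (x a) - P (l i) (y b)) + (P (l i) (y b) - P (l i) (y i))) := by ring
    rw [e1] at g3
    have e2 := abs_add_le (-(P (l i) (x a) - P (l i) (x i)))
        ((P (l i) (x a) - P (l i) (y b)) + (P (l i) (y b) - P (l i) (y i)))
    have e3 := abs_add_le (P (l i) (x a) - P (l i) (y b)) (P (l i) (y b) - P (l i) (y i))
    rw [abs_neg] at e2
    linarith
  -- (4)
  have h4 : ∀ i j, i < j → j ≤ n → l i ≠ l j := by
    intro i j hij hjn heq
    have g1 := h3 i (i + 1) j (by omega) (by omega) hjn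
    have g2 : l (i + 1) ≠ l i := Ne.symm (hl i (by omega))
    have hyj : y j ∈ C (l i) := by
      rw [heq]; exact hy j hjn
    have g3 := S.sep (l (i + 1)) (l i) (x i) (y j) g2 (hx i (by omega)) hyj
    linarith
  have hinj : Set.InjOn l (Finset.range (n + 1) : Set ℕ) := by
    intro i hi j hj hij
    have hi' : i < n + 1 := by simpa using hi
    have hj' : j < n + 1 := by simpa using hj
    rcases lt_trichotomy i j with hlt | heq | hgt
    · exact absurd hij (h4 i j hlt (by omega))
    · exact heq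
    · exact absurd hij.symm (h4 j i hgt (by omega))
  classical
  have hsub : (((Finset.range (n + 1)).image l : Finset ι) : Set ι) ⊆ LL d C K (x 0) (y n) := by
    intro t ht
    rw [Finset.mem_coe, Finset.mem_image] at ht
    obtain ⟨i, hi, rfl⟩ := ht
    have hi' : i ≤ n := by
      have := Finset.mem_range.1 hi
      omega
    refine pos_sep S ?_
    have := h3 0 i n (Nat.zero_le _) hi' le_rfl
    linarith
  have hcard := Set.ncard_le_ncard hsub (LL_fin S (x 0) (y n)).1
  rw [Set.ncard_coe_finset, Finset.card_image_of_injOn hinj, Finset.card_range] at hcard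
  exact hcard

end

end AHA
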