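import Pool.Agent.AHA.Wpf

set_option autoImplicit false

/-!
# AHA VCY: the case in which all elements preserve the quasi-axis

`ee_Q` with `k = 0`: `Q (g o) ≤ 9 δ + 2 q` for all `g`.  `near_A` gives `r` such that each `g o` is within
`r` of some `f ^ k o`, so `f ^ (-k) g` is in the finite set `T` of `fin_E r`.  So every `g` is in
`⟨f⟩ T`: every `g⁻¹` is in `T⁻¹ ⟨f⟩`, the quotient `G ⧸ ⟨f⟩` is finite
(`Subgroup.finiteIndex_of_finite_quotient`; it is the image of the finite set `T⁻¹`).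
-/

namespace AHA

open Burn (Geo Btw Hyp Slim Fellow IsPath)

section
variable {X G : Type} [Group G] [MulAction G X]
variable {d : X → X → ℕ} {δ κ q : ℕ} {f : G} {o : X} {P Q : X → ℤ}

theorem vcy (L : Lx d δ κ f o) (A : LxAx d δ f o P Q q) (W : Wpd d f o)
    (h : ∀ g : G, g ∈ EE d f o) : (Subgroup.zpowers f).FiniteIndex := by
  obtain ⟨r, hr⟩ := near_A L A (9 * δ + 2 * q)
  have hT := fin_E L A W r
  set T : Set G := {h : G | h ∈ EE d f o ∧ d o (h • o) ≤ r} with hTdef
  have hcov : (Set.univ : Set (G ⧸ Subgroup.zpowers f)) ⊆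
      (fun t : G => ((t⁻¹ : G) : G ⧸ Subgroup.zpowers f)) '' T := by
    intro a _
    obtain ⟨g, rfl⟩ := QuotientGroup.mk_surjective a
    have h1 := ee_Q L A (h g⁻¹) 0
    rw [zpow_zero, one_smul] at h1
    obtain ⟨k, hk⟩ := hr (g⁻¹ • o) (by exact_mod_cast h1)
    refine ⟨f ^ (-k) * g⁻¹, ⟨h _, ?_⟩, ?_⟩
    · rw [mul_smul]
      have h2 := L.iso (f ^ (-k)) (f ^ k • o) (g⁻¹ • o)
      rw [← mul_smul, ← zpow_add, neg_add_cancel, zpow_zero, one_smul] at h2
      rw [h2, L.geo.symm]
      exact hk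
    · simp only
      rw [QuotientGroup.eq]
      refine ⟨-k, ?_⟩
      simp only [inv_inv]
      group
  have : Finite (G ⧸ Subgroup.zpowers f) := by
    rw [← Set.finite_univ_iff]
    exact (hT.image _).subset hcov
  exact Subgroup.finiteIndex_of_finite_quotient

end

end AHA
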