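import Pool.Agent.AHA.Fams
import Pool.Agent.AHA.Vcy
import Pool.Agent.AHA.Avd
import Pool.Agent.AHA.Acy
import Pool.Agent.AHA.Unb
import Pool.Agent.AHA.Lxa

set_option autoImplicit false

/-!
# AHA DFIN: the acylindrical action on the space with the new metric

`unb_orbit`: let `η = d o (h o)`.  Let `N` be so large that `d o (f ^ N o)` is larger than the bound in
`unb_seq` plus `c` (`L.lox`).  `w = f ^ N h`, `g i = w ^ i`, `l i = g i E` (as a coset), `x i = g i o`,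
`y i = g i f ^ N o`; both are in `Cf E o (l i)` since `f ∈ E`.  `x (i+1) = g i f ^ N h o`, so
`d (y i) (x (i+1)) = η`.  `l (i+1) = g i f ^ N h E ≠ g i E` since otherwise `f ^ N h ∈ E`, `h ∈ E`.
`d (x i) (y i) = d o (f ^ N o) ≤ |P (x i) - P (y i)| + c` by `S.emb`.  So `unb_seq` gives
`n + 1 ≤ ncard (LL o (g n f ^ N o)) ≤ 3 dD o (g n f ^ N o)` (`cnt_le`), for every `n`; to get the bound
`m` use `n = 3 m`.

`dfin`: take `P, Q, q` from `exists_lxAx`, `E` from `exists_E`, `c` and the system from `exists_sys`, `M`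
from `exists_avd`, `K = 10 (M + c) + 10`.  `D = dD d (Cf E o) K`, `hyp` from `slim_D` and
`Burn.slim_hyp`.  If all `g ∈ E`, `vcy` contradicts `hv` (`H = zpowers f` is cyclic); so there is
`h ∉ E` and `unb_orbit` applies.
-/

namespace AHA

open Burn (Geo Btw Hyp Slim Fellow IsPath)

section
variable {X G : Type} [Group G] [MulAction G X]
variable {d : X → X → ℕ} {δ κ q c M K : ℕ} {f : G} {o : X} {P Q : X → ℤ}

theorem unb_orbit (L : Lx d δ κ f o) {E : Subgroup G}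
    (S : Sys2 G d (Cf E o) (Pf E P) c M K) (hf : f ∈ E) {h : G} (hh : h ∉ E) (m : ℕ) :
    ∃ g : G, m ≤ dD d (Cf E o) K o (g • o) := by
  have hκ := lxa_kpos L
  -- the bound
  obtain ⟨B, hB⟩ : ∃ B : ℕ, B = 4 * (M + 2 * c + c * d o (h • o)) + 2 * M + c * K + 1 + c :=
    ⟨_, rfl⟩
  obtain ⟨N, hN⟩ : ∃ N : ℕ, B < d o (f ^ N • o) := by
    refine ⟨κ * (B + 1), ?_⟩
    have h1 := L.lox (κ * (B + 1))
    exact Nat.le_of_mul_le_mul_left h1 hκ
  have hfN : f ^ N ∈ E := E.pow_mem hf N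
  have key := unb_seq S (d o (h • o)) (3 * m) (fun i => (((f ^ N * h) ^ i : G) : G ⧸ E))
    (fun i => (f ^ N * h) ^ i • o) (fun i => (f ^ N * h) ^ i • f ^ N • o)
    (fun i _ => ⟨_, rfl, rfl⟩) (fun i _ => by
      refine ⟨(f ^ N * h) ^ i * f ^ N, ?_, by rw [mul_smul]⟩
      rw [QuotientGroup.eq, mul_inv_rev, mul_assoc, inv_mul_cancel, mul_one]
      exact E.inv_mem hfN)
    (fun i _ => by
      show d ((f ^ N * h) ^ i • f ^ N • o) ((f ^ N * h) ^ (i + 1) • o) ≤ d o (h • o)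
      rw [pow_succ, mul_smul, mul_smul, L.iso, L.iso])
    (fun i _ hl => by
      have hl' : (((f ^ N * h) ^ i : G) : G ⧸ E) = (((f ^ N * h) ^ (i + 1) : G) : G ⧸ E) := hl
      rw [QuotientGroup.eq, pow_succ, inv_mul_cancel_left] at hl'
      exact hh ((E.mul_mem_cancel_left hfN).1 hl'))
    (fun i _ => by
      have h1 := S.emb (((f ^ N * h) ^ i : G) : G ⧸ E) ((f ^ N * h) ^ i • o)
        ((f ^ N * h) ^ i • f ^ N • o) ⟨_, rfl, rfl⟩ (by
          refine ⟨(f ^ N * h) ^ i * f ^ N, ?_, by rw [mul_smul]⟩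
          rw [QuotientGroup.eq, mul_inv_rev, mul_assoc, inv_mul_cancel, mul_one]
          exact E.inv_mem hfN)
      rw [L.iso] at h1
      have h2 : (B : ℤ) < d o (f ^ N • o) := by exact_mod_cast hN
      rw [hB] at h2
      push_cast at h2
      show 4 * ((M : ℤ) + 2 * c + c * (d o (h • o) : ℕ)) + 2 * M + c * K + 1 <
        |Pf E P (((f ^ N * h) ^ i : G) : G ⧸ E) ((f ^ N * h) ^ i • o) -
          Pf E P (((f ^ N * h) ^ i : G) : G ⧸ E) ((f ^ N * h) ^ i • f ^ N • o)|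
      linarith)
  have h1 := cnt_le S ((f ^ N * h) ^ 0 • o) ((f ^ N * h) ^ (3 * m) • f ^ N • o)
  refine ⟨(f ^ N * h) ^ (3 * m) * f ^ N, ?_⟩
  have e0 : (f ^ N * h) ^ 0 • o = o := by rw [pow_zero, one_smul]
  simp only [e0] at key h1
  rw [mul_smul]
  omega

theorem dfin (L : Lx d δ κ f o) (W : Wpd d f o)
    (hv : ¬ ∃ H : Subgroup G, IsCyclic H ∧ H.FiniteIndex) :
    ∃ (D : X → X → ℕ) (δ' : ℕ), Fin0 G X D δ' o := by
  obtain ⟨P, Q, q, A⟩ := exists_lxAx L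
  obtain ⟨E, hfE, hE⟩ := exists_E L
  obtain ⟨c, S⟩ := exists_sys L A W E hE
  obtain ⟨M, hM⟩ := exists_avd S
  have S2 : Sys2 G d (Cf E o) (Pf E P) c M (10 * (M + c) + 10) := ⟨S, hM, le_rfl⟩
  obtain ⟨k, -, hk⟩ := slim_D S2
  have hex : ∃ h : G, h ∉ E := by
    by_contra hall
    push Not at hall
    exact hv ⟨Subgroup.zpowers f, inferInstance, vcy L A W fun g => (hE g).1 (hall g)⟩
  obtain ⟨h, hh⟩ := hex
  exact ⟨dD d (Cf E o) (10 * (M + c) + 10), 4 * k + 2, geoD S2, Burn.slim_hyp (geoD S2) hk,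
    dD_eq0 S2, dD_smul S2, acyD S2, unb_orbit L S2 hfE hh⟩

end

end AHA
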