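import Pool.Agent.AHA.Ord

set_option autoImplicit false

/-!
# AHA FINL: the set of separating elements

`LL_fin` : `l ↦ ds (dh d C) (C l) x` is injective on `LL x y` by `ord_ne`, with values `< dh x y` by
`pass_ds` (and `sep_pos2`).  `LL_symm` : `sep_symm`.  `LL_smul` : `pj_smul` with `mem_C_iff`, `dh_smul`,
and `S.iso` (both directions, use `g⁻¹`).  `LL_C` : if `l ≠ l'` and `l ∈ LL x y` then `S.sep` contradicts
`sep_pos2`.  `LL_near` : `S.lip` contradicts `sep_pos2`.
-/

namespace AHA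

open Burn (Geo Btw Hyp Slim Fellow IsPath)

section
variable {X ι G : Type} [Group G] [MulAction G X] [MulAction G ι]
variable {d : X → X → ℕ} {C : ι → Set X} {P : ι → X → ℤ} {c M K : ℕ}

theorem LL_fin (S : Sys2 G d C P c M K) (x y : X) :
    (LL d C K x y).Finite ∧ (LL d C K x y).ncard ≤ dh d C x y := by
  have hinj : Set.InjOn (fun l => ds (dh d C) (C l) x) (LL d C K x y) := by
    intro l hl l' hl' h
    by_contra hne
    exact ord_ne S hl hl' hne h
  have hmap : ∀ l ∈ LL d C K x y, ds (dh d C) (C l) x ∈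
      ((Finset.range (dh d C x y) : Finset ℕ) : Set ℕ) := by
    intro l hl
    have h1 := sep_pos2 S hl
    have hM : (0 : ℤ) ≤ M := Int.natCast_nonneg _
    have hc : (0 : ℤ) ≤ c := Int.natCast_nonneg _
    have h2 := pass_ds S (l := l) (x := x) (y := y) (by linarith)
    rw [Finset.mem_coe, Finset.mem_range]
    omega
  refine ⟨Set.Finite.of_injOn hmap hinj (Finset.finite_toSet _), ?_⟩
  have h3 := Set.ncard_le_ncard_of_injOn _ hmap hinj (Finset.finite_toSet _)
  rwa [Set.ncard_coe_finset, Finset.card_range] at h3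

theorem LL_symm (S : Sys2 G d C P c M K) (x y : X) : LL d C K x y = LL d C K y x := by
  ext l
  exact ⟨fun h => sep_symm S h, fun h => sep_symm S h⟩

theorem pj_smul_C (S : Sys2 G d C P c M K) (g : G) (l : ι) (x u : X) :
    g • u ∈ pj (dh d C) (C (g • l)) (g • x) ↔ u ∈ pj (dh d C) (C l) x :=
  pj_smul (fun g x y => dh_smul S.toSys g x y) g (fun x => mem_C_iff S.toSys g l x) x u

theorem LL_smul (S : Sys2 G d C P c M K) (g : G) (l : ι) (x y : X) :
    g • l ∈ LL d C K (g • x) (g • y) ↔ l ∈ LL d C K x y := by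
  constructor
  · rintro ⟨u, hu, v, hv, huv⟩
    have hu' : u = g • g⁻¹ • u := (smul_inv_smul g u).symm
    have hv' : v = g • g⁻¹ • v := (smul_inv_smul g v).symm
    rw [hu', pj_smul_C S] at hu
    rw [hv', pj_smul_C S] at hv
    refine ⟨g⁻¹ • u, hu, g⁻¹ • v, hv, ?_⟩
    rwa [S.iso]
  · rintro ⟨u, hu, v, hv, huv⟩
    refine ⟨g • u, (pj_smul_C S g l x u).2 hu, g • v, (pj_smul_C S g l y v).2 hv, ?_⟩
    rwa [S.iso]

theorem LL_C (S : Sys2 G d C P c M K) {l' : ι} {x y : X} (hx : x ∈ C l') (hy : y ∈ C l') :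
    LL d C K x y ⊆ {l'} := by
  intro l hl
  rw [Set.mem_singleton_iff]
  by_contra hne
  have h1 := sep_pos2 S hl
  have h2 := S.sep l l' x y hne hx hy
  have hM : (0 : ℤ) ≤ M := Int.natCast_nonneg _
  have hc : (0 : ℤ) ≤ c := Int.natCast_nonneg _
  linarith

theorem LL_near (S : Sys2 G d C P c M K) {x y : X} (h : d x y ≤ 1) : LL d C K x y = ∅ := by
  rw [Set.eq_empty_iff_forall_notMem]
  intro l hl
  have h1 := sep_pos2 S hl
  have h2 := S.lip l x y
  have hM : (0 : ℤ) ≤ M := Int.natCast_nonneg _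
  have hc : (0 : ℤ) ≤ c := Int.natCast_nonneg _
  have hd : (d x y : ℤ) ≤ 1 := by exact_mod_cast h
  have h3 : (c : ℤ) * d x y ≤ c * 1 := mul_le_mul_of_nonneg_left hd hc
  linarith

theorem LL_self (S : Sys2 G d C P c M K) (x : X) : LL d C K x x = ∅ :=
  LL_near S (by rw [S.geo.refl]; exact Nat.zero_le _)

end

end AHA
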