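import Pool.Agent.AHA.Hered
import Pool.Agent.AHA.Finl

set_option autoImplicit false

/-!
# AHA DMET: the new metric

`R2` is symmetric (`LL_symm`) and reflexive (`LL_self`), and `R1` implies `R2` (`LL_near`).  Chains
exist by `r1_chain` and `rc_mono`.  `geoD` is `geoR`; `dD_le` is `dR_mono`; `dD_smul` is `dR_smul`
(use `LL_smul`: `LL (g • x) (g • y) = ∅` iff `LL x y = ∅`).

`slim_D`: `slim_h` gives `k₀` with `Slim (dh d C) k₀`; apply `Burn.guess k₀ 1` to `dh d C` and
`dD d C K`.  Last hypothesis: let `dD x y ≤ 1` and `Btw (dh) x u y`.  If `LL x y = ∅`, then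
`LL x u = ∅` by `sep_left`, so `dD x u ≤ 1`.  If `x, y ∈ C l`, then `dh x y ≤ 1` and therefore `u = x` or
`u = y` (`dh_eq0`), and `dD x u ≤ 1`.
-/

namespace AHA

open Burn (Geo Btw Hyp Slim Fellow IsPath)

section
variable {X ι G : Type} [Group G] [MulAction G X] [MulAction G ι]
variable {d : X → X → ℕ} {C : ι → Set X} {P : ι → X → ℤ} {c M K : ℕ}

private theorem r2_of_r1 (S : Sys2 G d C P c M K) {x y : X} (h : R1 d C x y) : R2 d C K x y := by
  rcases h with h | h
  · exact Or.inl (LL_near S h)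
  · exact Or.inr h

private theorem r2_symm (S : Sys2 G d C P c M K) {x y : X} (h : R2 d C K x y) :
    R2 d C K y x := by
  rcases h with h | ⟨l, hx, hy⟩
  · exact Or.inl (by rw [LL_symm S]; exact h)
  · exact Or.inr ⟨l, hy, hx⟩

private theorem r2_refl (S : Sys2 G d C P c M K) (x : X) : R2 d C K x x := Or.inl (LL_self S x)

private theorem r2_chain (S : Sys2 G d C P c M K) (x y : X) : ∃ k, RC (R2 d C K) k x y :=
  ⟨_, rc_mono (fun _ _ => r2_of_r1 S) (r1_chain S.toSys x y)⟩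

theorem geoD (S : Sys2 G d C P c M K) : Geo (dD d C K) :=
  geoR (fun _ _ => r2_symm S) (r2_chain S)

theorem dD_le (S : Sys2 G d C P c M K) (x y : X) : dD d C K x y ≤ dh d C x y :=
  dR_mono (fun x y => ⟨_, r1_chain S.toSys x y⟩) (fun _ _ => r2_of_r1 S) x y

theorem dD_C (S : Sys2 G d C P c M K) {l : ι} {x y : X} (hx : x ∈ C l) (hy : y ∈ C l) :
    dD d C K x y ≤ 1 := dR_one (Or.inr ⟨l, hx, hy⟩)

theorem dD_LL (S : Sys2 G d C P c M K) {x y : X} (h : LL d C K x y = ∅) :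
    dD d C K x y ≤ 1 := dR_one (Or.inl h)

theorem dD_r2 (S : Sys2 G d C P c M K) {x y : X} (h : dD d C K x y ≤ 1) : R2 d C K x y :=
  dR_le_one (r2_refl S) (r2_chain S) h

theorem dD_eq0 (S : Sys2 G d C P c M K) : ∀ x y : X, dD d C K x y = 0 → x = y :=
  fun _ _ h => dR_eq0 (r2_chain S) h

theorem dD_smul (S : Sys2 G d C P c M K) (g : G) (x y : X) :
    dD d C K (g • x) (g • y) = dD d C K x y := by
  refine dR_smul (fun g x y h => ?_) g x y
  rcases h with h | ⟨l, hx, hy⟩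
  · left
    rw [Set.eq_empty_iff_forall_notMem] at h ⊢
    intro l hl
    apply h (g⁻¹ • l)
    rw [← LL_smul S g, smul_inv_smul]
    exact hl
  · exact Or.inr ⟨g • l, S.act g l x hx, S.act g l y hy⟩

theorem slim_D (S : Sys2 G d C P c M K) :
    ∃ k : ℕ, Fellow (dh d C) (dD d C K) k ∧ Slim (dD d C K) k := by
  obtain ⟨k0, -, hk0⟩ := slim_h S.toSys
  obtain ⟨k, hk⟩ := Burn.guess k0 1
  refine ⟨k, hk X (dh d C) (dD d C K) (geoh S.toSys) (geoD S) hk0 (dD_le S)
    fun x y u hxy hu => ?_⟩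
  rcases dD_r2 S hxy with h | ⟨l, hx, hy⟩
  · apply dD_LL S
    rw [Set.eq_empty_iff_forall_notMem] at h ⊢
    intro l hl
    exact h l (sep_left S hu hl)
  · have h1 := dh_C (d := d) (C := C) hx hy
    have h2 := dD_le S x u
    unfold Burn.Btw at hu
    omega

end

end AHA
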