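import Pool.Agent.AHA.Defs

set_option autoImplicit false

/-!
# AHA EGRP: the elements which preserve the quasi-axis
-/

namespace AHA

open Burn (Geo Btw Hyp Slim Fellow IsPath)

section
variable {X G : Type} [Group G] [MulAction G X]
variable {d : X → X → ℕ} {δ κ q : ℕ} {f : G} {o : X} {P Q : X → ℤ}

theorem eg_zadd (L : Lx d δ κ f o) (i : ℤ) (m : ℕ) :
    d (f ^ i • o) (f ^ (i + (m : ℤ)) • o) = d o (f ^ m • o) := by
  rw [zpow_add, zpow_natCast, mul_smul, L.iso]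

theorem eg_kpos (L : Lx d δ κ f o) : 0 < κ := by
  have := L.lox 1
  by_contra h
  have h0 : κ = 0 := by omega
  rw [h0] at this
  omega

theorem eg_big (L : Lx d δ κ f o) (N : ℕ) : N ≤ d o (f ^ (κ * N) • o) :=
  Nat.le_of_mul_le_mul_left (L.lox (κ * N)) (eg_kpos L)

theorem exists_E (L : Lx d δ κ f o) :
    ∃ E : Subgroup G, f ∈ E ∧ ∀ g : G, g ∈ E ↔ g ∈ EE d f o := by
  have hg := L.geo
  refine ⟨{ carrier := EE d f o
            mul_mem' := ?_
            one_mem' := ?_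
            inv_mem' := ?_ }, ?_, fun g => Iff.rfl⟩
  · rintro a b ⟨A, ha1, ha2⟩ ⟨B, hb1, hb2⟩
    refine ⟨A + B, fun k => ?_, fun k => ?_⟩
    · obtain ⟨m, hm⟩ := hb1 k
      obtain ⟨m', hm'⟩ := ha1 m
      refine ⟨m', ?_⟩
      have e1 := L.iso a (b • f ^ k • o) (f ^ m • o)
      have t1 := hg.tri ((a * b) • f ^ k • o) (a • f ^ m • o) (f ^ m' • o)
      rw [mul_smul a b] at *
      omega
    · obtain ⟨m, hm⟩ := ha2 k
      obtain ⟨m', hm'⟩ := hb2 m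
      refine ⟨m', ?_⟩
      have e1 := L.iso b⁻¹ (a⁻¹ • f ^ k • o) (f ^ m • o)
      have t1 := hg.tri ((a * b)⁻¹ • f ^ k • o) (b⁻¹ • f ^ m • o) (f ^ m' • o)
      rw [mul_inv_rev, mul_smul b⁻¹ a⁻¹] at *
      omega
  · refine ⟨0, fun k => ⟨k, ?_⟩, fun k => ⟨k, ?_⟩⟩
    · rw [one_smul, hg.refl]
    · rw [inv_one, one_smul, hg.refl]
  · rintro a ⟨A, ha1, ha2⟩
    refine ⟨A, ha2, fun k => ?_⟩
    rw [inv_inv]
    exact ha1 k
  · refine ⟨0, fun k => ⟨k + 1, ?_⟩, fun k => ⟨k - 1, ?_⟩⟩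
    · rw [← mul_smul, ← zpow_one_add, add_comm, hg.refl]
    · have : f ^ (k - 1) = f⁻¹ * f ^ k := by
        rw [zpow_sub_one, (Commute.zpow_right (Commute.refl f) k).inv_left.eq]
      rw [this, mul_smul, hg.refl]

theorem eg_ivt (F : ℤ → ℤ) (s : ℕ) (hF : ∀ k, |F (k + 1) - F k| ≤ s) (a b : ℤ) (hab : a ≤ b)
    (v : ℤ) (ha : F a ≤ v) (hb : v ≤ F b) : ∃ k, |v - F k| ≤ s := by
  classical
  have hex : ∃ n : ℕ, v ≤ F (a + n) := ⟨(b - a).toNat, by
    have : a + ((b - a).toNat : ℤ) = b := by omega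
    rw [this]; exact hb⟩
  have hn := Nat.find_spec hex
  rcases Nat.eq_zero_or_pos (Nat.find hex) with h0 | h0
  · rw [h0] at hn
    simp only [Nat.cast_zero, add_zero] at hn
    exact ⟨a, by rw [abs_le]; constructor <;> omega⟩
  · have h1 := Nat.find_min hex (m := Nat.find hex - 1) (by omega)
    obtain ⟨n, hn'⟩ : ∃ n, Nat.find hex = n + 1 := ⟨Nat.find hex - 1, by omega⟩
    rw [hn'] at hn h1
    simp only [Nat.add_sub_cancel] at h1
    push_cast at hn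
    have h2 := hF (a + n)
    rw [← add_assoc] at hn
    refine ⟨a + n + 1, ?_⟩
    rw [abs_le] at h2 ⊢
    constructor <;> omega

theorem near_A (L : Lx d δ κ f o) (A : LxAx d δ f o P Q q) (q' : ℕ) :
    ∃ r : ℕ, ∀ x : X, Q x ≤ q' → ∃ k : ℤ, d x (f ^ k • o) ≤ r := by
  refine ⟨q' + q + 2 * d o (f • o) + 3 * δ, fun x hx => ?_⟩
  have hstep : ∀ k : ℤ, |P (f ^ (k + 1) • o) - P (f ^ k • o)| ≤ ((2 * d o (f • o) : ℕ) : ℤ) := by
    intro k
    have h1 := A.axis.lipP (f ^ (k + 1) • o) (f ^ k • o)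
    have h2 := eg_zadd L k 1
    rw [pow_one, Nat.cast_one] at h2
    rw [L.geo.symm, h2] at h1
    push_cast
    exact h1
  obtain ⟨N, hN⟩ : ∃ N : ℕ, |P x| + q ≤ N := ⟨(|P x| + q).toNat, Int.self_le_toNat _⟩
  have hb := eg_big L N
  have h1 := A.pos (κ * N)
  have h2 := A.neg (κ * N)
  have h3 := abs_le.1 (le_refl |P x|)
  rw [abs_le] at h1 h2
  obtain ⟨k, hk⟩ := eg_ivt (fun k : ℤ => P (f ^ k • o)) (2 * d o (f • o)) hstep
    (-((κ * N : ℕ) : ℤ)) ((κ * N : ℕ) : ℤ) (by omega) (P x)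
    (by
      show P (f ^ (-((κ * N : ℕ) : ℤ)) • o) ≤ P x
      rw [zpow_neg, zpow_natCast]
      omega)
    (by
      show P x ≤ P (f ^ ((κ * N : ℕ) : ℤ) • o)
      rw [zpow_natCast]
      omega)
  refine ⟨k, ?_⟩
  have h4 := A.axis.up x (f ^ k • o)
  have h5 := A.hgt k
  have h6 := A.axis.nonneg (f ^ k • o)
  push_cast at hk
  omega

/-- The middle of three coarsely aligned points is near the axis. -/
theorem mid_Q (L : Lx d δ κ f o) (A : LxAx d δ f o P Q q) {x u y : X}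
    (hb : d x u + d u y ≤ d x y + q) (h1 : 3 * (δ : ℤ) ≤ |P x - P u|)
    (h2 : 3 * (δ : ℤ) ≤ |P u - P y|) : Q u ≤ 9 * δ + 2 * q := by
  have e1 := A.axis.low x u h1
  have e2 := A.axis.low u y h2
  have e3 := A.axis.up x y
  have e4 := abs_sub_le (P x) (P u) (P y)
  have e5 := A.axis.nonneg u
  omega

theorem ee_Q (L : Lx d δ κ f o) (A : LxAx d δ f o P Q q) {h : G} (hh : h ∈ EE d f o) (k : ℤ) :
    Q (h • f ^ k • o) ≤ 9 * δ + 2 * q := by
  obtain ⟨B, hB, -⟩ := hh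
  have hQ : ∀ j : ℤ, Q (h • f ^ j • o) ≤ q + 2 * B := by
    intro j
    obtain ⟨m, hm⟩ := hB j
    have h1 := A.axis.lipQ (h • f ^ j • o) (f ^ m • o)
    have h2 := A.hgt m
    rw [abs_le] at h1
    omega
  have hbig := eg_big L (q + 2 * B + 3 * δ)
  generalize κ * (q + 2 * B + 3 * δ) = n at hbig
  have e1 : d (h • f ^ (k - n) • o) (h • f ^ k • o) = d o (f ^ n • o) := by
    rw [L.iso]
    have := eg_zadd L (k - n) n
    rwa [sub_add_cancel] at this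
  have e2 : d (h • f ^ k • o) (h • f ^ (k + n) • o) = d o (f ^ n • o) := by
    rw [L.iso]
    exact eg_zadd L k n
  have e3 := A.btw (k - n) k (k + n) (by omega) (by omega)
  rw [← L.iso h (f ^ (k - n) • o) (f ^ k • o), ← L.iso h (f ^ k • o) (f ^ (k + n) • o),
    ← L.iso h (f ^ (k - n) • o) (f ^ (k + n) • o)] at e3
  have h1 := hQ (k - n)
  have h2 := hQ k
  have h3 := hQ (k + n)
  have u1 := A.axis.up (h • f ^ (k - n) • o) (h • f ^ k • o)
  have u2 := A.axis.up (h • f ^ k • o) (h • f ^ (k + n) • o)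
  exact mid_Q L A e3 (by omega) (by omega)

theorem near_pm (L : Lx d δ κ f o) (A : LxAx d δ f o P Q q) (q' r : ℕ) :
    ∃ ρ : ℕ, ∀ (n : ℕ) (x : X), Q x ≤ q' → d o x ≤ d o (f ^ n • o) + r →
      d o (f ^ n • o) ≤ d o x + r → d x (f ^ n • o) ≤ ρ ∨ d x ((f ^ n)⁻¹ • o) ≤ ρ := by
  refine ⟨2 * r + 4 * q + 2 * q' + 6 * δ, fun n x hx h1 h2 => ?_⟩
  have p0 := A.pos 0
  have q0 := A.hgt 0
  rw [pow_zero, one_smul, L.geo.refl] at p0
  rw [zpow_zero, one_smul] at q0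
  have hp := A.pos n
  have hn := A.neg n
  have qp := A.hgt n
  have qn := A.hgt (-n)
  rw [zpow_natCast] at qp
  rw [zpow_neg, zpow_natCast] at qn
  have u0 := A.axis.up o x
  have l0 := A.axis.lipP o x
  have u1 := A.axis.up x (f ^ n • o)
  have u2 := A.axis.up x ((f ^ n)⁻¹ • o)
  generalize f ^ n • o = y at *
  generalize (f ^ n)⁻¹ • o = y' at *
  rcases abs_cases (P o - P x) with c1 | c1 <;> rcases abs_cases (P x - P y) with c2 | c2 <;>
    rcases abs_cases (P x - P y') with c3 | c3 <;> rw [abs_le] at p0 hp hn <;> omega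

theorem eg_conj (L : Lx d δ κ f o) {g : G} {p m : ℤ} (hp : p ≠ 0)
    (h : SemiconjBy g (f ^ p) (f ^ m)) :
    ∃ B : ℕ, ∀ k : ℤ, ∃ m' : ℤ, d (g • f ^ k • o) (f ^ m' • o) ≤ B := by
  refine ⟨∑ b ∈ Finset.range p.natAbs, d (g • f ^ (b : ℤ) • o) o, fun k => ?_⟩
  refine ⟨m * (k / p), ?_⟩
  have h1 := Int.emod_add_mul_ediv k p
  have h2 := Int.emod_nonneg k hp
  have h3 := Int.emod_lt_abs k hp
  rw [Int.abs_eq_natAbs] at h3
  obtain ⟨b, hb⟩ := Int.eq_ofNat_of_zero_le h2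
  rw [hb] at h1 h3
  have h4 : g • f ^ k • o = f ^ (m * (k / p)) • (g • f ^ (b : ℤ) • o) := by
    have e1 : f ^ k = (f ^ p) ^ (k / p) * f ^ (b : ℤ) := by
      rw [← zpow_mul, ← zpow_add]
      congr 1
      omega
    have e2 := h.zpow_right (k / p)
    rw [e1, ← mul_smul, ← mul_assoc, e2.eq, ← zpow_mul, mul_assoc, mul_smul, mul_smul]
  have h5 := L.iso (f ^ (m * (k / p))) (g • f ^ (b : ℤ) • o) o
  rw [h4, h5]
  refine Finset.single_le_sum (f := fun b : ℕ => d (g • f ^ (b : ℤ) • o) o)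
    (fun _ _ => Nat.zero_le _) (Finset.mem_range.2 ?_)
  omega

/-- A relation `g f ^ p g⁻¹ = f ^ m` forces `g` to preserve the quasi-axis. -/
theorem conj_EE (L : Lx d δ κ f o) {g : G} {p : ℕ} {m : ℤ} (hp : 1 ≤ p)
    (h : g * f ^ p * g⁻¹ = f ^ m) : g ∈ EE d f o := by
  have h1 : SemiconjBy g (f ^ (p : ℤ)) (f ^ m) := by
    unfold SemiconjBy
    rw [zpow_natCast, ← h, inv_mul_cancel_right]
  have hm : m ≠ 0 := by
    rintro rfl
    rw [zpow_zero, mul_inv_eq_one, mul_eq_left] at h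
    have h2 := L.lox (p * 1)
    rw [pow_mul, h, one_pow, one_smul, L.geo.refl] at h2
    omega
  have h2 : SemiconjBy g⁻¹ (f ^ m) (f ^ (p : ℤ)) := by
    rw [SemiconjBy.inv_symm_left_iff]
    exact h1
  obtain ⟨B1, hB1⟩ := eg_conj L (by omega) h1
  obtain ⟨B2, hB2⟩ := eg_conj L hm h2
  refine ⟨B1 + B2, fun k => ?_, fun k => ?_⟩
  · obtain ⟨m', hm'⟩ := hB1 k
    exact ⟨m', by omega⟩
  · obtain ⟨m', hm'⟩ := hB2 k
    exact ⟨m', by omega⟩

end

end AHA
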