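import Pool.Agent.AHA.Bpr

set_option autoImplicit false

/-!
# AHA FAMS: the family of quasi-lines

Let `q' = 9 δ + 2 q`, `r₁` the constant of `near_A` for `2 q' + 6 δ`, `r₂` the one for `6 δ`, `Δ` the
constant of `bpr`, `c = 18 δ + 4 q' + 2 q + r₁ + r₂ + 4 r₁ + Δ + 2` or any larger number.  For `l : G ⧸ E`
let `g = Quotient.out l`, so `(g : G ⧸ E) = l`; `x ∈ Cf E o l` iff `g⁻¹ x = h o` for some `h ∈ E`
(`QuotientGroup.eq`), and then `Q (g⁻¹ x) ≤ q'` (`ee_Q` with `k = 0`).  `Pf E P l x = P (g⁻¹ x)`.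

* `slim` : `Burn.hyp_slim`.  `act`, `ne` : definition.
* `qc` : after `g⁻¹` (`L.iso`): `u` between `x, y` with `Q x, Q y ≤ q'`; `Burn.Axis.axq` gives
  `Q u ≤ 2 q' + 6 δ`, `near_A` gives `k`; `w = g f ^ k o`, `f ^ k ∈ E`.
* `lip` : `A.axis.lipP`.
* `pass` : after `g⁻¹`: `Burn.Axis.axu` (constant `3 δ ≥ 10`) gives `u` between with `Q u ≤ 6 δ`; `near_A`.
* `emb` : `A.axis.up`: `d x y ≤ 2 d x y ≤ 2 q' + |P x - P y| + 3 δ`.
* `sep` : let `g = out l`, `g' = out l'`, `a = g⁻¹ g' ∉ E`.  `g⁻¹ x = a h o` with `h ∈ E`; by `near_A`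
  `h o` is within `r₁` of some `f ^ k o`, so `g⁻¹ x` is within `r₁` of `a f ^ k o`; the same for `y`; `bpr`
  for `a` and `lipP`: `|P_l x - P_l y| ≤ Δ + 4 r₁`.
* `fin` : let `w = g' o`, `(g' : G ⧸ E) = l`.  `g l = l` iff `g'⁻¹ g g' ∈ E`, and
  `d w (g w) = d o (g'⁻¹ g g' o)`.  So the set is the image of the set of `fin_E` under `h ↦ g' h g'⁻¹`.
-/

namespace AHA

open Burn (Geo Btw Hyp Slim Fellow IsPath)

section
variable {X G : Type} [Group G] [MulAction G X]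
variable {d : X → X → ℕ} {δ κ q : ℕ} {f : G} {o : X} {P Q : X → ℤ}

theorem cf_out (E : Subgroup G) {l : G ⧸ E} {x : X} (hx : x ∈ Cf E o l) :
    ∃ h ∈ E, (Quotient.out l : G)⁻¹ • x = h • o := by
  obtain ⟨g', hg', rfl⟩ := hx
  refine ⟨(Quotient.out l : G)⁻¹ * g', ?_, by rw [mul_smul]⟩
  rw [← QuotientGroup.eq, hg']
  exact Quotient.out_eq' l

theorem cf_mem (E : Subgroup G) (l : G ⧸ E) {h : G} (hh : h ∈ E) :
    (Quotient.out l : G) • h • o ∈ Cf E o l := by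
  refine ⟨(Quotient.out l : G) * h, ?_, by rw [mul_smul]⟩
  have h1 : ((Quotient.out l : G) : G ⧸ E) = l := Quotient.out_eq' l
  conv_rhs => rw [← h1]
  rw [QuotientGroup.eq, mul_inv_rev, mul_assoc, inv_mul_cancel, mul_one]
  exact E.inv_mem hh

theorem exists_sys (L : Lx d δ κ f o) (A : LxAx d δ f o P Q q) (W : Wpd d f o) (E : Subgroup G)
    (hE : ∀ g : G, g ∈ E ↔ g ∈ EE d f o) : ∃ c : ℕ, Sys G d (Cf E o) (Pf E P) c := by
  obtain ⟨r, hr⟩ := near_A L A (2 * (9 * δ + 2 * q) + 6 * δ)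
  obtain ⟨Δ, hΔ⟩ := bpr L A W
  have hg := L.geo
  have hd0 : (0 : ℤ) ≤ δ := Int.natCast_nonneg δ
  have hq0 : (0 : ℤ) ≤ q := Int.natCast_nonneg q
  have hr0 : (0 : ℤ) ≤ r := Int.natCast_nonneg r
  have hΔ0 : (0 : ℤ) ≤ Δ := Int.natCast_nonneg Δ
  have hfE : ∀ k : ℤ, f ^ k ∈ E := by
    obtain ⟨E', h1, h2⟩ := exists_E L
    have h3 : f ∈ E := (hE f).2 ((h2 f).1 h1)
    exact fun k => E.zpow_mem h3 k
  have hQ : ∀ h ∈ E, Q (h • o) ≤ 9 * δ + 2 * q := by
    intro h hh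
    have h1 := ee_Q L A ((hE h).1 hh) 0
    rwa [zpow_zero, one_smul] at h1
  -- distances after translation
  have hiso : ∀ (g : G) (x y : X), d x y = d (g⁻¹ • x) (g⁻¹ • y) := fun g x y => (L.iso _ _ _).symm
  have hcl : ∀ (l : G ⧸ E) (u : X), Q ((Quotient.out l : G)⁻¹ • u) ≤
      2 * (9 * δ + 2 * q) + 6 * δ → ∃ w ∈ Cf E o l, d u w ≤ r := by
    intro l u hu
    obtain ⟨k, hk⟩ := hr ((Quotient.out l : G)⁻¹ • u) (by exact_mod_cast hu)
    refine ⟨(Quotient.out l : G) • f ^ k • o, cf_mem E l (hfE k), ?_⟩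
    rw [hiso (Quotient.out l : G), inv_smul_smul]
    exact hk
  refine ⟨40 * δ + 10 * q + 5 * r + Δ + 2, ?_⟩
  refine ⟨hg, ?_, L.eq0, L.iso, ?_, ?_, ?_, ?_, ?_, ?_, ?_, ?_⟩
  · -- slim
    intro x y z p hp
    obtain ⟨u, hu, hu'⟩ := Burn.hyp_slim hg L.hyp x y z p hp
    exact ⟨u, hu, hu'.trans (by omega)⟩
  · -- act
    rintro g l x ⟨g', rfl, rfl⟩
    exact ⟨g * g', rfl, by rw [mul_smul]⟩
  · -- ne
    intro l
    exact ⟨_, cf_mem E l E.one_mem⟩
  · -- qc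
    intro l x y u hx hy hb
    obtain ⟨h, hh, hx'⟩ := cf_out E hx
    obtain ⟨h', hh', hy'⟩ := cf_out E hy
    have hb' : Btw d ((Quotient.out l : G)⁻¹ • x) ((Quotient.out l : G)⁻¹ • u)
        ((Quotient.out l : G)⁻¹ • y) := by
      show d _ _ + d _ _ = d _ _
      rw [L.iso, L.iso, L.iso]
      exact hb
    have h1 := A.axis.axq hg hb'
    rw [hx', hy'] at h1
    have h2 := hQ h hh
    have h3 := hQ h' hh'
    obtain ⟨w, hw, hw'⟩ := hcl l u (by linarith)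
    exact ⟨w, hw, hw'.trans (by omega)⟩
  · -- lip
    intro l x y
    have h1 := A.axis.lipP ((Quotient.out l : G)⁻¹ • x) ((Quotient.out l : G)⁻¹ • y)
    rw [L.iso] at h1
    have h2 : (2 : ℤ) * d x y ≤ ((40 * δ + 10 * q + 5 * r + Δ + 2 : ℕ) : ℤ) * d x y := by
      apply mul_le_mul_of_nonneg_right _ (Int.natCast_nonneg _)
      push_cast
      linarith
    exact h1.trans h2
  · -- pass
    intro l x y hxy
    unfold Pf at hxy
    push_cast at hxy
    obtain ⟨u, h1, h2, h3⟩ := A.axis.axu hg (by have := L.big; omega)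
      (a := (Quotient.out l : G)⁻¹ • x) (b := (Quotient.out l : G)⁻¹ • y) (by linarith)
    obtain ⟨w, hw, hw'⟩ := hcl l ((Quotient.out l : G) • u) (by
      rw [inv_smul_smul]
      linarith)
    refine ⟨(Quotient.out l : G) • u, w, ?_, hw, hw'.trans (by omega)⟩
    show d _ _ + d _ _ = d _ _
    rw [hiso (Quotient.out l : G) x, hiso (Quotient.out l : G) _ y, hiso (Quotient.out l : G) x y,
      inv_smul_smul]
    exact h1
  · -- emb
    intro l x y hx hy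
    obtain ⟨h, hh, hx'⟩ := cf_out E hx
    obtain ⟨h', hh', hy'⟩ := cf_out E hy
    have h1 := A.axis.up ((Quotient.out l : G)⁻¹ • x) ((Quotient.out l : G)⁻¹ • y)
    rw [L.iso] at h1
    have h2 := hQ h hh
    have h3 := hQ h' hh'
    rw [← hx'] at h2
    rw [← hy'] at h3
    unfold Pf
    push_cast
    have h4 : (0 : ℤ) ≤ d x y := Int.natCast_nonneg _
    linarith
  · -- sep
    intro l l' x y hne hx hy
    obtain ⟨h, hh, hx'⟩ := cf_out E hx
    obtain ⟨h', hh', hy'⟩ := cf_out E hy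
    set g := (Quotient.out l : G) with hgdef
    set g' := (Quotient.out l' : G) with hgdef'
    have ha : g⁻¹ * g' ∉ EE d f o := by
      intro h1
      rw [← hE, ← QuotientGroup.eq] at h1
      apply hne
      have e1 : (g : G ⧸ E) = l := Quotient.out_eq' l
      have e2 : (g' : G ⧸ E) = l' := Quotient.out_eq' l'
      rw [← e1, ← e2, h1]
    have key : ∀ z : X, ∀ a ∈ E, g'⁻¹ • z = a • o → ∃ k : ℤ,
        |P (g⁻¹ • z) - P ((g⁻¹ * g') • f ^ k • o)| ≤ 2 * r := by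
      intro z a ha' hz
      have h1 := hQ a ha'
      obtain ⟨k, hk⟩ := hr (a • o) (by push_cast; linarith)
      refine ⟨k, ?_⟩
      have h2 := A.axis.lipP (g⁻¹ • z) ((g⁻¹ * g') • f ^ k • o)
      have e1 : g⁻¹ • z = (g⁻¹ * g') • a • o := by
        rw [← hz, mul_smul, smul_inv_smul]
      rw [e1, L.iso] at h2
      rw [e1]
      refine h2.trans ?_
      have : (d (a • o) (f ^ k • o) : ℤ) ≤ r := by exact_mod_cast hk
      linarith
    obtain ⟨k, hk⟩ := key x h hh hx'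
    obtain ⟨k', hk'⟩ := key y h' hh' hy'
    have h5 := abs_le.1 (hΔ _ ha k k')
    have h3 := abs_le.1 hk
    have h4 := abs_le.1 hk'
    unfold Pf
    rw [← hgdef, abs_le]
    push_cast
    constructor <;> linarith [h3.1, h3.2, h4.1, h4.2, h5.1, h5.2]
  · -- fin
    intro s
    have hT := fin_E L A W s
    set T : Set G := {h : G | h ∈ EE d f o ∧ d o (h • o) ≤ s} with hTdef
    refine ⟨T.ncard, ?_⟩
    rintro l w ⟨g', rfl, rfl⟩
    have hsub : {g : G | g • ((g' : G) : G ⧸ E) = ((g' : G) : G ⧸ E) ∧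
        d (g' • o) (g • g' • o) ≤ s} ⊆ (fun h : G => g' * h * g'⁻¹) '' T := by
      rintro g ⟨h1, h2⟩
      refine ⟨g'⁻¹ * g * g', ⟨?_, ?_⟩, by group⟩
      · rw [← hE]
        have h3 : ((g * g' : G) : G ⧸ E) = ((g' : G) : G ⧸ E) := h1
        rw [eq_comm, QuotientGroup.eq] at h3
        rw [mul_assoc]
        exact h3
      · have e1 := hiso g' (g' • o) (g • g' • o)
        rw [inv_smul_smul] at e1
        rw [mul_smul, mul_smul, ← e1]
        exact h2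
    refine ⟨(hT.image _).subset hsub, ?_⟩
    exact (Set.ncard_le_ncard hsub (hT.image _)).trans (Set.ncard_image_le hT)

end

end AHA
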