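import Pool.Agent.AHA.Defs
import Pool.Agent.AHX.Defs

set_option autoImplicit false

/-!
# AHA GRA: from a graph to the conventions of this project

`geo_dist`: standard facts of `SimpleGraph.dist` for connected graphs; `mid`: a shortest walk from `x` to
`y` (`SimpleGraph.Connected.exists_walk_length_eq_dist`), `w = walk.getVert s`; the two parts have length
`s` and `t`, and they are shortest by the triangle inequality.
`dist_smul`: `g` maps walks to walks of the same length, so `dist (g x) (g y) ≤ dist x y`; use `g⁻¹` for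
the converse (e.g. with the graph homomorphism given by `g`).
`lx_of_wpd`: `d = T.dist`, `δ' = δ + 10` (`Burn.Hyp.mono`).
-/

namespace AHA

open Burn (Geo Btw Hyp Slim Fellow IsPath)

theorem geo_dist {X : Type} (T : SimpleGraph X) (hT : T.Connected) : Geo T.dist where
  refl := fun x => SimpleGraph.dist_self
  symm := fun x y => SimpleGraph.dist_comm
  tri := fun x y z => hT.dist_triangle
  mid := by
    intro x y s t h
    obtain ⟨p, hp⟩ := hT.exists_walk_length_eq_dist x y
    have h1 : T.dist x (p.getVert s) ≤ s :=
      (SimpleGraph.dist_le (p.take s)).trans (by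
        rw [SimpleGraph.Walk.take_length]
        exact Nat.min_le_left _ _)
    have h2 : T.dist (p.getVert s) y ≤ t :=
      (SimpleGraph.dist_le (p.drop s)).trans (by
        rw [SimpleGraph.Walk.drop_length]
        omega)
    have h3 : T.dist x y ≤ T.dist x (p.getVert s) + T.dist (p.getVert s) y := hT.dist_triangle
    exact ⟨p.getVert s, by omega, by omega⟩

private theorem gra_le {X G : Type} [Group G] [MulAction G X] (T : SimpleGraph X)
    (hT : T.Connected) (h : ∀ (g : G) (x y : X), T.Adj x y → T.Adj (g • x) (g • y)) (g : G)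
    (x y : X) : T.dist (g • x) (g • y) ≤ T.dist x y := by
  obtain ⟨p, hp⟩ := hT.exists_walk_length_eq_dist x y
  let φ : T →g T := ⟨fun x => g • x, fun {a b} hab => h g a b hab⟩
  have h1 : T.dist (φ x) (φ y) ≤ (p.map φ).length := SimpleGraph.dist_le (p.map φ)
  rw [SimpleGraph.Walk.length_map, hp] at h1
  exact h1

theorem dist_smul {X G : Type} [Group G] [MulAction G X] (T : SimpleGraph X) (hT : T.Connected)
    (h : ∀ (g : G) (x y : X), T.Adj x y → T.Adj (g • x) (g • y)) (g : G) (x y : X) :
    T.dist (g • x) (g • y) = T.dist x y := by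
  refine le_antisymm (gra_le T hT h g x y) ?_
  have h1 := gra_le T hT h g⁻¹ (g • x) (g • y)
  rwa [inv_smul_smul, inv_smul_smul] at h1

theorem lx_of_wpd {G : Type} [Group G] (h : AHX.WPDHyp G) :
    ∃ (X : Type) (_ : MulAction G X) (d : X → X → ℕ) (δ κ : ℕ) (f : G) (o : X),
      Lx d δ κ f o ∧ Wpd d f o := by
  obtain ⟨-, X, T, hact, hconn, hadj, ⟨δ, hδ⟩, f, ⟨o, κ, hlox⟩, hwpd⟩ := h
  refine ⟨X, hact, T.dist, δ + 10, κ, f, o, ⟨geo_dist T hconn, ?_, by omega, ?_,
    dist_smul T hconn hadj, hlox⟩, fun r => hwpd o r⟩
  · intro x y z w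
    have h1 := hδ x y z w
    rcases le_total (T.dist x z + T.dist y w) (T.dist x w + T.dist y z) with h2 | h2
    · right
      rw [max_eq_right h2] at h1
      omega
    · left
      rw [max_eq_left h2] at h1
      omega
  · intro x y h0
    exact hconn.dist_eq_zero_iff.1 h0

end AHA
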