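import Pool.Agent.AHA.Proj

set_option autoImplicit false

/-!
# AHA HERED: separation and points between

`pj_sub`: take an electric geodesic `p` from `x` to `y` through `z` (`pathR2`), `m = dh x z`.  By
`exists_lstep` for its part up to `m` (`path_head`) there is `i < m` with `p i, p (i+1) ∈ C l`.  By
`lstep_eq` for both paths `ds l z = m - (i+1)` and `ds l y = dh x y - (i+1)`.  So
`ds l y = dh z y + ds l z`.  For `v ∈ pj l z`: `dh y v ≤ dh y z + dh z v = ds l y`, so `v ∈ pj l y`
(`ds_le`).

`sep_left`: let `u ∈ pj l x`, `v ∈ pj l z`, `K < d u v`.  By `sep_pos2`, `pj_sub` applies, `v ∈ pj l y`.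
`sep_right`: from `sep_left` by symmetry (`sep_symm`, `Btw` is symmetric for the symmetric `dh`).
-/

namespace AHA

open Burn (Geo Btw Hyp Slim Fellow IsPath)

section
variable {X ι G : Type} [Group G] [MulAction G X] [MulAction G ι]
variable {d : X → X → ℕ} {C : ι → Set X} {P : ι → X → ℤ} {c M K : ℕ}

theorem pj_sub (S : Sys2 G d C P c M K) {l : ι} {x z y : X} (h : (M : ℤ) < |P l x - P l z|)
    (hb : Btw (dh d C) x z y) : pj (dh d C) (C l) z ⊆ pj (dh d C) (C l) y := by
  have hg := geoh S.toSys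
  obtain ⟨p, hp, h0, h1, h2⟩ := pathR2 hg (dh_eq0 S.toSys) hb
  have hb' : dh d C x z + dh d C z y = dh d C x y := hb
  have hp' : IsPath (dh d C) p (dh d C x z) := path_head hp (by omega)
  obtain ⟨i, hi, h3, h4⟩ := exists_lstep S (l := l) hp' (by rw [h0, h2]; exact h)
  have h5 := (lstep_eq S hp' hi h3 h4).2
  have h6 := (lstep_eq S hp (by omega) h3 h4).2
  rw [h2] at h5
  rw [h1] at h6
  intro v hv
  refine ⟨hv.1, ?_⟩
  have h7 := hv.2
  have h8 := hg.tri y z v
  have h9 := hg.symm y z
  have h10 := ds_le (D := dh d C) hv.1 y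
  omega

theorem sep_left (S : Sys2 G d C P c M K) {l : ι} {x z y : X} (hb : Btw (dh d C) x z y)
    (h : Sep d C K x z l) : Sep d C K x y l := by
  have h1 := sep_pos2 S h
  obtain ⟨u, hu, v, hv, h2⟩ := h
  exact ⟨u, hu, v, pj_sub S (by linarith [Int.natCast_nonneg M, Int.natCast_nonneg c]) hb hv, h2⟩

theorem sep_right (S : Sys2 G d C P c M K) {l : ι} {x z y : X} (hb : Btw (dh d C) x z y)
    (h : Sep d C K z y l) : Sep d C K x y l := by
  have hg := geoh S.toSys
  exact sep_symm S (sep_left S (Burn.Btw.symm hg hb) (sep_symm S h))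

end

end AHA
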