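import Pool.Agent.AHA.Defs

set_option autoImplicit false

/-!
# AHA HULLA: the injective hull, metric and action

Let `f : Ext D`, so `D x y ≤ f x + f y`, and for all `x`, `ε > 0` there is `y` with
`f x + f y < D x y + ε`.

* `ext_nonneg` : `0 = D x x ≤ 2 f x`.
* `ext_lip` : for `ε > 0` take `z` with `f x + f z < D x z + ε ≤ D x y + D y z + ε ≤ D x y + f y + f z + ε`.
* `ext_base` : `f x ≤ D v x + f v` and `D v x ≤ f v + f x`.
* `hd_bdd` : `|f x - g x| ≤ f o + g o` by `ext_base`.  `le_hd`, `hd_le` : `le_ciSup`, `ciSup_le`.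
* `ext_met` : the metric space structure (`hd f g = 0` implies `f = g` by `le_hd`).
* `ext_act` : `(g • f) x = f (g⁻¹ • x)`.
* `ext_e` : `e = D v ·` is extremal (take `y = v`); `|D v x - f x| ≤ f v` by `ext_base`, equality at
  `x = v`.
-/

namespace AHA

open Burn (Geo Btw Hyp Slim Fellow IsPath)

section
variable {X : Type} {D : X → X → ℕ}

theorem ext_nonneg (hD : Geo D) (f : Ext D) (x : X) : 0 ≤ f.1 x := by
  have h1 := f.2.1 x x
  have h2 : (0 : ℝ) ≤ D x x := Nat.cast_nonneg _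
  linarith

theorem ext_lip1 (hD : Geo D) (f : Ext D) (x y : X) : f.1 x ≤ f.1 y + D x y := by
  refine le_of_forall_pos_lt_add fun ε hε => ?_
  obtain ⟨z, hz⟩ := f.2.2 x ε hε
  have h1 := f.2.1 y z
  have h2 : (D x z : ℝ) ≤ D x y + D y z := by exact_mod_cast hD.tri x y z
  linarith

theorem ext_lip (hD : Geo D) (f : Ext D) (x y : X) : |f.1 x - f.1 y| ≤ D x y := by
  have h1 := ext_lip1 hD f x y
  have h2 := ext_lip1 hD f y x
  have h3 : (D y x : ℝ) = D x y := by rw [hD.symm]
  rw [abs_le]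
  constructor <;> linarith

theorem ext_base (hD : Geo D) (f : Ext D) (v x : X) : |(D v x : ℝ) - f.1 x| ≤ f.1 v := by
  have h1 := ext_lip1 hD f x v
  have h2 := f.2.1 v x
  have h3 : (D x v : ℝ) = D v x := by rw [hD.symm]
  rw [abs_le]
  constructor <;> linarith

theorem hd_bdd (hD : Geo D) (o : X) (f g : Ext D) :
    BddAbove (Set.range fun x => |f.1 x - g.1 x|) := by
  refine ⟨f.1 o + g.1 o, ?_⟩
  rintro _ ⟨x, rfl⟩
  have h1 := abs_le.1 (ext_base hD f o x)
  have h2 := abs_le.1 (ext_base hD g o x)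
  simp only
  rw [abs_le]
  constructor <;> linarith [h1.1, h1.2, h2.1, h2.2]

theorem le_hd (hD : Geo D) (f g : Ext D) (x : X) : |f.1 x - g.1 x| ≤ hd f g :=
  le_ciSup (hd_bdd hD x f g) x

theorem hd_le (o : X) (f g : Ext D) {b : ℝ} (h : ∀ x, |f.1 x - g.1 x| ≤ b) : hd f g ≤ b := by
  have : Nonempty X := ⟨o⟩
  exact ciSup_le h

theorem ext_met (hD : Geo D) (o : X) :
    ∃ m : MetricSpace (Ext D), ∀ f g : Ext D, m.dist f g = hd f g := by
  refine ⟨{ dist := fun f g => hd f g
            dist_self := ?_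
            dist_comm := ?_
            dist_triangle := ?_
            eq_of_dist_eq_zero := ?_ }, fun f g => rfl⟩
  · intro f
    refine le_antisymm (hd_le o f f fun x => by rw [sub_self, abs_zero]) ?_
    exact (abs_nonneg _).trans (le_hd hD f f o)
  · intro f g
    show hd f g = hd g f
    unfold hd
    congr 1
    funext x
    rw [abs_sub_comm]
  · intro f g h
    show hd f h ≤ hd f g + hd g h
    refine hd_le o f h fun x => ?_
    have h1 := le_hd hD f g x
    have h2 := le_hd hD g h x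
    have h3 := abs_sub_le (f.1 x) (g.1 x) (h.1 x)
    linarith
  · intro f g h
    have h' : hd f g = 0 := h
    apply Subtype.ext
    funext x
    have h1 := le_hd hD f g x
    rw [h'] at h1
    have h2 := abs_nonpos_iff.1 h1
    linarith

theorem ext_act (hD : Geo D) {G : Type} [Group G] [MulAction G X]
    (hi : ∀ (g : G) (x y : X), D (g • x) (g • y) = D x y) :
    ∃ a : MulAction G (Ext D), ∀ (g : G) (f : Ext D) (x : X),
      (a.smul g f).1 x = f.1 (g⁻¹ • x) := by
  refine ⟨{ smul := fun g f => ⟨fun x => f.1 (g⁻¹ • x), ?_, ?_⟩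
            one_smul := ?_
            mul_smul := ?_ }, fun g f x => rfl⟩
  · intro x y
    have h1 := f.2.1 (g⁻¹ • x) (g⁻¹ • y)
    rwa [hi] at h1
  · intro x ε hε
    obtain ⟨y, hy⟩ := f.2.2 (g⁻¹ • x) ε hε
    refine ⟨g • y, ?_⟩
    simp only
    rw [inv_smul_smul]
    have h1 := hi g⁻¹ x (g • y)
    rw [inv_smul_smul] at h1
    rw [← h1]
    exact hy
  · intro g h f
    apply Subtype.ext
    funext x
    show f.1 ((g * h)⁻¹ • x) = f.1 (h⁻¹ • g⁻¹ • x)
    rw [mul_inv_rev, mul_smul]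
  · intro f
    apply Subtype.ext
    funext x
    show f.1 ((1 : G)⁻¹ • x) = f.1 x
    rw [inv_one, one_smul]

theorem ext_e (hD : Geo D) (v : X) :
    ∃ e : Ext D, (∀ x, e.1 x = D v x) ∧ ∀ f : Ext D, hd e f = f.1 v := by
  obtain ⟨e, he⟩ : ∃ e : Ext D, ∀ x, e.1 x = D v x := by
    refine ⟨⟨fun x => (D v x : ℝ), fun x y => ?_, fun x ε hε => ⟨v, ?_⟩⟩, fun x => rfl⟩
    · have h1 := hD.tri x v y
      rw [hD.symm x v] at h1
      show (D x y : ℝ) ≤ (D v x : ℝ) + (D v y : ℝ)
      exact_mod_cast h1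
    · show (D v x : ℝ) + (D v v : ℝ) < (D x v : ℝ) + ε
      rw [hD.refl, hD.symm v x]
      simp only [Nat.cast_zero, add_zero]
      linarith
  refine ⟨e, he, fun f => le_antisymm (hd_le v _ _ fun x => ?_) ?_⟩
  · rw [he]
    exact ext_base hD f v x
  · have h1 := le_hd hD e f v
    rw [he, hD.refl, Nat.cast_zero, zero_sub, abs_neg] at h1
    exact (le_abs_self _).trans h1

end

end AHA
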