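import Pool.Agent.AHA.Hulla

set_option autoImplicit false

/-!
# AHA HULLB: the injective hull is hyperbolic and close to the space

* `hd_ge` : `D x y - f x - g y ≤ f y - g y ≤ hd f g`.
* `hd_approx` : by definition of the supremum there is `x` with `|f x - g x| > hd f g - ε / 2`.  If
  `g x ≥ f x`, take `y` with `g x + g y < D x y + ε / 2`: `g x - f x < D x y - f x - g y + ε / 2`.  If
  `f x ≥ g x`, take `y` with `f x + f y < D x y + ε / 2`: `f x - g x < D x y - f y - g x + ε / 2`, and use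
  the pair `(y, x)` (`hD.symm`).
* `hd_four` : let `ε > 0`; take `x, y` for `f, g` and `z, w` for `h, k` from `hd_approx`.  Then
  `hd f g + hd h k < D x y + D z w - f x - g y - h z - k w + 2 ε`; by the four point condition this is
  at most `δ + 2 ε` plus `(D x z - f x - h z) + (D y w - g y - k w) ≤ hd f h + hd g k` or
  `(D x w - f x - k w) + (D y z - g y - h z) ≤ hd f k + hd g h` (`hd_ge`).
* `ext_near` : take any `x = o`; `y` with `f x + f y < D x y + 1`.  Let `s = ⌊f x⌋₊ ≤ D x y`
  (as `f x < D x y + 1`, `ext_nonneg`).  `hD.mid` gives `z` with `D x z = s`, `D z y = D x y - s`.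
  Suppose `f z > δ + 2`.  Take `w` with `f z + f w < D z w + ε`, `ε = 1`.  Four points:
  `D x y + D z w ≤ D x z + D y w + δ ≤ f x + f y + f w + δ`, or
  `D x y + D z w ≤ D x w + D y z + δ ≤ f x + f w + (D x y - f x + 1) + δ`.
  Both give `f z < 2 + δ`.
-/

namespace AHA

open Burn (Geo Btw Hyp Slim Fellow IsPath)

section
variable {X : Type} {D : X → X → ℕ} {δ : ℕ}

theorem hd_ge (hD : Geo D) (f g : Ext D) (x y : X) : (D x y : ℝ) - f.1 x - g.1 y ≤ hd f g := by
  have h1 := f.2.1 x y
  have h2 := le_hd hD f g y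
  have h3 := le_abs_self (f.1 y - g.1 y)
  linarith

theorem hd_approx (hD : Geo D) (o : X) (f g : Ext D) {ε : ℝ} (hε : 0 < ε) :
    ∃ x y : X, hd f g < D x y - f.1 x - g.1 y + ε := by
  have hne : Nonempty X := ⟨o⟩
  obtain ⟨x, hx⟩ := exists_lt_of_lt_ciSup (show hd f g - ε / 2 < ⨆ x, |f.1 x - g.1 x| by
    unfold hd
    linarith)
  rcases le_total (f.1 x) (g.1 x) with h | h
  · obtain ⟨y, hy⟩ := g.2.2 x (ε / 2) (by linarith)
    rw [abs_of_nonpos (by linarith)] at hx
    exact ⟨x, y, by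
      have := f.2.1 x y
      have h3 : hd f g < g.1 x - f.1 x + ε / 2 := by linarith
      linarith⟩
  · obtain ⟨y, hy⟩ := f.2.2 x (ε / 2) (by linarith)
    rw [abs_of_nonneg (by linarith)] at hx
    refine ⟨y, x, ?_⟩
    have h3 : hd f g < f.1 x - g.1 x + ε / 2 := by linarith
    have h4 : (D y x : ℝ) = D x y := by rw [hD.symm]
    rw [h4]
    linarith

theorem hd_four (hD : Geo D) (hh : Hyp D δ) (o : X) (f g h k : Ext D) :
    hd f g + hd h k ≤ max (hd f h + hd g k) (hd f k + hd g h) + δ := by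
  refine le_of_forall_pos_lt_add fun ε hε => ?_
  obtain ⟨x, y, h1⟩ := hd_approx hD o f g (half_pos hε)
  obtain ⟨z, w, h2⟩ := hd_approx hD o h k (half_pos hε)
  have m1 := le_max_left (hd f h + hd g k) (hd f k + hd g h)
  have m2 := le_max_right (hd f h + hd g k) (hd f k + hd g h)
  rcases hh x y z w with h3 | h3
  · have h4 : (D x y : ℝ) + D z w ≤ D x z + D y w + δ := by exact_mod_cast h3
    have h5 := hd_ge hD f h x z
    have h6 := hd_ge hD g k y w
    linarith
  · have h4 : (D x y : ℝ) + D z w ≤ D x w + D y z + δ := by exact_mod_cast h3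
    have h5 := hd_ge hD f k x w
    have h6 := hd_ge hD g h y z
    linarith

theorem ext_near (hD : Geo D) (hh : Hyp D δ) (o : X) (f : Ext D) : ∃ v : X, f.1 v ≤ δ + 2 := by
  obtain ⟨y, hy⟩ := f.2.2 o 1 one_pos
  have n1 := ext_nonneg hD f o
  have n2 := ext_nonneg hD f y
  set s := ⌊f.1 o⌋₊ with hs
  have s1 : (s : ℝ) ≤ f.1 o := Nat.floor_le n1
  have s2 : f.1 o < s + 1 := Nat.lt_floor_add_one _
  have s3 : s ≤ D o y := by
    have h1 : (s : ℝ) < D o y + 1 := by linarith
    have h2 : s < D o y + 1 := by exact_mod_cast h1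
    omega
  obtain ⟨z, hz1, hz2⟩ := hD.mid o y s (D o y - s) (by omega)
  refine ⟨z, ?_⟩
  by_contra hcon
  push Not at hcon
  obtain ⟨w, hw⟩ := f.2.2 z 1 one_pos
  have e1 : (D z y : ℝ) = D o y - s := by
    rw [hz2, Nat.cast_sub s3]
  have e2 : (D o z : ℝ) = s := by rw [hz1]
  have e3 : (D y z : ℝ) = D z y := by rw [hD.symm]
  rcases hh o y z w with h3 | h3
  · have h4 : (D o y : ℝ) + D z w ≤ D o z + D y w + δ := by exact_mod_cast h3
    have h5 := f.2.1 y w
    linarith
  · have h4 : (D o y : ℝ) + D z w ≤ D o w + D y z + δ := by exact_mod_cast h3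
    have h5 := f.2.1 o w
    linarith

end

end AHA
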