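import Pool.Agent.AHA.Hulla

set_option autoImplicit false

/-!
# AHA HULLC: the injective hull is geodesic

Say `f : X → ℝ` is *good* if `D x y ≤ f x + f y` for all `x, y` (then `f ≥ 0`).  For a good `f` let
`f' x = ⨆ y, (D x y - f y)` (bounded above by `f x`, and `X` is not empty), and `q f = (f + f') / 2`.

(1) `f' ≤ f`, so `q f ≤ f`.  (2) `q f` is good: `f' x ≥ D x y - f y`, `f' y ≥ D x y - f x`, so
`q f x + q f y ≥ (f x + f y + 2 D x y - f x - f y) / 2`.  (3) If `|f - g| ≤ b` everywhere then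
`|f' - g'| ≤ b`, so `|q f - q g| ≤ b`.  (4) If `f ≤ g` then `g' ≤ f'`.  (5) `q^[n] f` is decreasing and
nonnegative, so it converges pointwise to a function `p f`, which is good.  (6) `p f` is extremal:
`(q^[n] f)' = 2 q^[n+1] f - q^[n] f → p f` pointwise, and `(q^[n] f)' ≤ (p f)'` by (4), so `p f ≤ (p f)'`;
given `x` and `ε`, choose `y` with `D x y - p f y > (p f)' x - ε`.  (7) If `f` is extremal, `f' = f`, so
`q f = f`, `p f = f`.  (8) `|p f - p g| ≤ b` if `|f - g| ≤ b`, by (3) and the limit.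
For `f` which are not good let `p f` be any extremal function (`ext_e`).

`ext_geod`: let `ℓ = hd f g`.  If `ℓ = 0` then `f = g` (`le_hd`) and the constant path works.  Otherwise
`γ t = p (x ↦ (1 - t / ℓ) f x + (t / ℓ) g x)`; for `t ∈ [0, ℓ]` the argument is good (a convex
combination).  For `s, t ∈ [0, ℓ]` the arguments differ by `|s - t| / ℓ * |f x - g x| ≤ |s - t|`
(`le_hd`), so `hd (γ s) (γ t) ≤ |s - t|` (`hd_le`).  For `s ≤ t` the triangle inequality
`ℓ = hd f g ≤ hd f (γ s) + hd (γ s) (γ t) + hd (γ t) g ≤ s + hd (γ s) (γ t) + (ℓ - t)` gives equality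
(`γ 0 = f`, `γ ℓ = g` by (7)).
-/

namespace AHA

open Burn (Geo Btw Hyp Slim Fellow IsPath)

open Filter

section
variable {X : Type} {D : X → X → ℕ}

/-- Good functions. -/
def Gd (D : X → X → ℕ) (f : X → ℝ) : Prop := ∀ x y, (D x y : ℝ) ≤ f x + f y

/-- The conjugate function. -/
noncomputable def st (D : X → X → ℕ) (f : X → ℝ) (x : X) : ℝ := ⨆ y, ((D x y : ℝ) - f y)

/-- The mean of a function and its conjugate. -/
noncomputable def qq (D : X → X → ℕ) (f : X → ℝ) (x : X) : ℝ := (f x + st D f x) / 2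

theorem gd_bdd {f : X → ℝ} (hf : Gd D f) (x : X) :
    BddAbove (Set.range fun y => ((D x y : ℝ) - f y)) := by
  refine ⟨f x, ?_⟩
  rintro _ ⟨y, rfl⟩
  have := hf x y
  simp only
  linarith

theorem le_st {f : X → ℝ} (hf : Gd D f) (x y : X) : (D x y : ℝ) - f y ≤ st D f x :=
  le_ciSup (gd_bdd hf x) y

theorem st_le {f : X → ℝ} (hf : Gd D f) (x : X) : st D f x ≤ f x := by
  have : Nonempty X := ⟨x⟩
  refine ciSup_le fun y => ?_
  have := hf x y
  linarith

theorem qq_gd (hD : Geo D) {f : X → ℝ} (hf : Gd D f) : Gd D (qq D f) := by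
  intro x y
  have h1 := le_st hf x y
  have h2 := le_st hf y x
  have h3 : (D y x : ℝ) = D x y := by rw [hD.symm]
  unfold qq
  linarith

theorem qq_le {f : X → ℝ} (hf : Gd D f) (x : X) : qq D f x ≤ f x := by
  have := st_le hf x
  unfold qq
  linarith

theorem gd_nonneg {f : X → ℝ} (hf : Gd D f) (x : X) : 0 ≤ f x := by
  have h1 := hf x x
  have h2 : (0 : ℝ) ≤ D x x := Nat.cast_nonneg _
  linarith

theorem st_lip1 {f g : X → ℝ} (hg : Gd D g) {b : ℝ} (h : ∀ x, |f x - g x| ≤ b) (x : X) :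
    st D f x ≤ st D g x + b := by
  have : Nonempty X := ⟨x⟩
  refine ciSup_le fun y => ?_
  have h1 := le_st hg x y
  have h2 := abs_le.1 (h y)
  linarith [h2.1]

theorem qq_lip {f g : X → ℝ} (hf : Gd D f) (hg : Gd D g) {b : ℝ} (h : ∀ x, |f x - g x| ≤ b)
    (x : X) : |qq D f x - qq D g x| ≤ b := by
  have h1 := st_lip1 (D := D) hg h x
  have h2 := st_lip1 (D := D) hf (fun x => by rw [abs_sub_comm]; exact h x) x
  have h3 := abs_le.1 (h x)
  unfold qq
  rw [abs_le]
  constructor <;> linarith [h3.1, h3.2]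

theorem st_anti {f g : X → ℝ} (hf : Gd D f) (h : ∀ x, f x ≤ g x) (x : X) :
    st D g x ≤ st D f x := by
  have : Nonempty X := ⟨x⟩
  refine ciSup_le fun y => ?_
  have h1 := le_st hf x y
  have h2 := h y
  linarith

theorem it_gd (hD : Geo D) {f : X → ℝ} (hf : Gd D f) (n : ℕ) : Gd D ((qq D)^[n] f) := by
  induction n with
  | zero => exact hf
  | succ n ih =>
    rw [Function.iterate_succ_apply']
    exact qq_gd hD ih

theorem it_anti (hD : Geo D) {f : X → ℝ} (hf : Gd D f) (x : X) :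
    Antitone fun n => (qq D)^[n] f x := by
  refine antitone_nat_of_succ_le fun n => ?_
  rw [Function.iterate_succ_apply']
  exact qq_le (it_gd hD hf n) x

theorem it_lim (hD : Geo D) {f : X → ℝ} (hf : Gd D f) (x : X) :
    Tendsto (fun n => (qq D)^[n] f x) atTop (nhds (⨅ n, (qq D)^[n] f x)) := by
  refine tendsto_atTop_ciInf (it_anti hD hf x) ⟨0, ?_⟩
  rintro _ ⟨n, rfl⟩
  exact gd_nonneg (it_gd hD hf n) x

theorem lim_gd (hD : Geo D) {f : X → ℝ} (hf : Gd D f) :
    Gd D (fun x => ⨅ n, (qq D)^[n] f x) := by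
  intro x y
  refine ge_of_tendsto' ((it_lim hD hf x).add (it_lim hD hf y)) fun n => ?_
  exact it_gd hD hf n x y

theorem lim_ext (hD : Geo D) {f : X → ℝ} (hf : Gd D f) (x : X) :
    ∀ ε : ℝ, 0 < ε → ∃ y, (⨅ n, (qq D)^[n] f x) + (⨅ n, (qq D)^[n] f y) < D x y + ε := by
  intro ε hε
  set F : X → ℝ := fun x => ⨅ n, (qq D)^[n] f x with hF
  have hFg : Gd D F := lim_gd hD hf
  have hFle : ∀ n y, F y ≤ (qq D)^[n] f y := fun n y =>
    (it_anti hD hf y).le_of_tendsto (it_lim hD hf y) n
  have h1 : ∀ n, 2 * (qq D)^[n + 1] f x - (qq D)^[n] f x ≤ st D F x := by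
    intro n
    have h2 := st_anti hFg (hFle n) x
    have h3 : (qq D)^[n + 1] f x = ((qq D)^[n] f x + st D ((qq D)^[n] f) x) / 2 := by
      rw [Function.iterate_succ_apply']
      rfl
    rw [h3]
    linarith
  have h4 : Tendsto (fun n => 2 * (qq D)^[n + 1] f x - (qq D)^[n] f x) atTop
      (nhds (2 * F x - F x)) :=
    (((it_lim hD hf x).comp (tendsto_add_atTop_nat 1)).const_mul 2).sub (it_lim hD hf x)
  have h5 : 2 * F x - F x ≤ st D F x := le_of_tendsto' h4 h1
  have : Nonempty X := ⟨x⟩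
  obtain ⟨y, hy⟩ := exists_lt_of_lt_ciSup (show st D F x - ε < ⨆ y, ((D x y : ℝ) - F y) by
    show st D F x - ε < st D F x
    linarith)
  exact ⟨y, by
    show F x + F y < D x y + ε
    linarith⟩

/-- The retraction on good functions. -/
noncomputable def pp (hD : Geo D) (f : X → ℝ) (hf : Gd D f) : Ext D :=
  ⟨fun x => ⨅ n, (qq D)^[n] f x, lim_gd hD hf, lim_ext hD hf⟩

theorem retr (hD : Geo D) (o : X) : ∃ p : (X → ℝ) → Ext D, (∀ f : Ext D, p f.1 = f) ∧
    ∀ (f g : X → ℝ) (b : ℝ), (∀ x y, (D x y : ℝ) ≤ f x + f y) →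
      (∀ x y, (D x y : ℝ) ≤ g x + g y) → (∀ x, |f x - g x| ≤ b) →
      ∀ x, |(p f).1 x - (p g).1 x| ≤ b := by
  classical
  obtain ⟨e, -⟩ := ext_e hD o
  refine ⟨fun f => if hf : Gd D f then pp hD f hf else e, fun f => ?_, fun f g b hf hg h x => ?_⟩
  · have hf : Gd D f.1 := f.2.1
    simp only [dif_pos hf]
    have h1 : qq D f.1 = f.1 := by
      funext x
      have h2 := st_le hf x
      have h3 : f.1 x ≤ st D f.1 x := by
        refine le_of_forall_pos_lt_add fun ε hε => ?_
        obtain ⟨y, hy⟩ := f.2.2 x ε hε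
        have h4 := le_st hf x y
        linarith
      unfold qq
      linarith
    apply Subtype.ext
    funext x
    show (⨅ n, (qq D)^[n] f.1 x) = f.1 x
    have h2 : ∀ n : ℕ, (qq D)^[n] f.1 x = f.1 x := fun n => by
      rw [Function.iterate_fixed h1]
    simp only [h2, ciInf_const]
  · have hf' : Gd D f := hf
    have hg' : Gd D g := hg
    simp only [dif_pos hf', dif_pos hg']
    have h1 : ∀ n x, |(qq D)^[n] f x - (qq D)^[n] g x| ≤ b := by
      intro n
      induction n with
      | zero => exact h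
      | succ n ih =>
        intro x
        rw [Function.iterate_succ_apply', Function.iterate_succ_apply']
        exact qq_lip (it_gd hD hf' n) (it_gd hD hg' n) ih x
    exact le_of_tendsto' ((it_lim hD hf' x).sub (it_lim hD hg' x)).abs fun n => h1 n x

theorem hd_tri (hD : Geo D) (o : X) (f g h : Ext D) : hd f h ≤ hd f g + hd g h := by
  refine hd_le o f h fun x => ?_
  have h1 := le_hd hD f g x
  have h2 := le_hd hD g h x
  have h3 := abs_sub_le (f.1 x) (g.1 x) (h.1 x)
  linarith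

theorem ext_geod (hD : Geo D) (o : X) (f g : Ext D) :
    ∃ γ : ℝ → Ext D, γ 0 = f ∧ γ (hd f g) = g ∧
      ∀ s ∈ Set.Icc (0 : ℝ) (hd f g), ∀ t ∈ Set.Icc (0 : ℝ) (hd f g),
        hd (γ s) (γ t) = |s - t| := by
  have hn : 0 ≤ hd f g := (abs_nonneg _).trans (le_hd hD f g o)
  rcases hn.eq_or_lt with h0 | h0
  · have hfg : f = g := by
      apply Subtype.ext
      funext x
      have h1 := le_hd hD f g x
      rw [← h0] at h1
      have h2 := abs_nonpos_iff.1 h1
      linarith
    refine ⟨fun _ => f, rfl, hfg, ?_⟩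
    rintro s ⟨hs1, hs2⟩ t ⟨ht1, ht2⟩
    have e1 : s = 0 := by linarith
    have e2 : t = 0 := by linarith
    rw [e1, e2, sub_self, abs_zero]
    refine le_antisymm (hd_le o f f fun x => by rw [sub_self, abs_zero]) ?_
    exact (abs_nonneg _).trans (le_hd hD f f o)
  · obtain ⟨p, hp1, hp2⟩ := retr hD o
    set ℓ := hd f g with hℓ
    set ln : ℝ → X → ℝ := fun t x => (1 - t / ℓ) * f.1 x + t / ℓ * g.1 x with hln
    have hgood : ∀ t, 0 ≤ t → t ≤ ℓ → ∀ x y, (D x y : ℝ) ≤ ln t x + ln t y := by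
      intro t h1 h2 x y
      have h3 : 0 ≤ t / ℓ := div_nonneg h1 h0.le
      have h4 : t / ℓ ≤ 1 := by
        rw [div_le_one h0]
        exact h2
      have h5 := f.2.1 x y
      have h6 := g.2.1 x y
      simp only [hln]
      nlinarith
    have hdist : ∀ s t, ∀ x, |ln s x - ln t x| ≤ |s - t| := by
      intro s t x
      have e1 : ln s x - ln t x = (s - t) / ℓ * (g.1 x - f.1 x) := by
        simp only [hln]
        ring
      have h1 := le_hd hD f g x
      rw [abs_sub_comm] at h1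
      rw [e1, abs_mul, abs_div, abs_of_pos h0, div_mul_eq_mul_div, div_le_iff₀ h0]
      exact mul_le_mul_of_nonneg_left h1 (abs_nonneg _)
    have hle : ∀ s t, 0 ≤ s → s ≤ ℓ → 0 ≤ t → t ≤ ℓ → hd (p (ln s)) (p (ln t)) ≤ |s - t| := by
      intro s t h1 h2 h3 h4
      exact hd_le o _ _ fun x => hp2 _ _ _ (hgood s h1 h2) (hgood t h3 h4) (hdist s t) x
    have hz : p (ln 0) = f := by
      have : ln 0 = f.1 := by
        funext x
        simp only [hln]
        ring
      rw [this, hp1]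
    have he : p (ln ℓ) = g := by
      have : ln ℓ = g.1 := by
        funext x
        simp only [hln]
        rw [div_self h0.ne']
        ring
      rw [this, hp1]
    have hmain : ∀ s t, 0 ≤ s → s ≤ t → t ≤ ℓ → hd (p (ln s)) (p (ln t)) = t - s := by
      intro s t h1 h2 h3
      have a1 := hle s t h1 (h2.trans h3) (h1.trans h2) h3
      have a2 := hle 0 s le_rfl h0.le h1 (h2.trans h3)
      have a3 := hle t ℓ (h1.trans h2) h3 h0.le le_rfl
      rw [hz] at a2
      rw [he] at a3
      have t1 := hd_tri hD o f (p (ln s)) g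
      have t2 := hd_tri hD o (p (ln s)) (p (ln t)) g
      rw [abs_of_nonpos (by linarith)] at a1 a2 a3
      have e1 : hd f g = ℓ := rfl
      linarith
    have hsymm : ∀ a b : Ext D, hd a b = hd b a := by
      intro a b
      unfold hd
      congr 1
      funext x
      rw [abs_sub_comm]
    refine ⟨fun t => p (ln t), hz, he, ?_⟩
    rintro s ⟨hs1, hs2⟩ t ⟨ht1, ht2⟩
    simp only
    rcases le_total s t with h | h
    · rw [hmain s t hs1 h ht2, abs_of_nonpos (by linarith)]
      ring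
    · rw [hsymm, hmain t s ht1 h hs2, abs_of_nonneg (by linarith)]

end

end AHA
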