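import Pool.Agent.AHA.Hullb
import Pool.Agent.AHA.Hullc

set_option autoImplicit false

/-!
# AHA HULLD: an acylindrical action on a geodesic hyperbolic space

The space is `Ext D` with the metric of `ext_met` and the action of `ext_act`.

* isometric: `hd (g • f) (g • h) = ⨆ x, |f (g⁻¹ x) - h (g⁻¹ x)|`, reindex (or `hd_le`, `le_hd`).
* geodesics: `ext_geod`.  Four points: `hd_four` with `2 δ' = δ`.
* acylindricity: let `ε > 0` be real and `r = δ + 2`; take `R', N` from `F.acyl` for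
  `ε' = ⌈ε⌉₊ + 2 (δ + 2)`, `R = R' + 2 r`.  For `f, h` with `hd f h ≥ R` take `v, w` with `f v ≤ r`,
  `h w ≤ r` (`ext_near`).  Let `e v` be the function `D v ·`: `hd (e v) f = f v ≤ r` (`ext_e`), and
  `D v w = hd (e v) (e w) ≥ R - 2 r = R'`.  `g • e v = e (g • v)` (`F.iso`).  If `hd f (g • f) ≤ ε` then
  `D v (g v) = hd (e v) (g • e v) ≤ r + ε + r ≤ ε'`; the same for `w`.  So the set is contained in the
  one of `F.acyl` (`Set.Finite.subset`, `Set.ncard_le_ncard`).
* unbounded: `dist (e o) (g • e o) = D o (g o)` is unbounded by `F.unb`.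
-/

namespace AHA

open Burn (Geo Btw Hyp Slim Fellow IsPath)

theorem hull (G : Type) [Group G] (X : Type) [MulAction G X] (D : X → X → ℕ) (δ : ℕ) (o : X)
    (F : Fin0 G X D δ o) :
    ∃ (X : Type) (_ : MetricSpace X) (_ : MulAction G X),
      (∀ (g : G) (x y : X), dist (g • x) (g • y) = dist x y) ∧
      (∀ x y : X, ∃ γ : ℝ → X, γ 0 = x ∧ γ (dist x y) = y ∧
        ∀ s ∈ Set.Icc (0 : ℝ) (dist x y), ∀ t ∈ Set.Icc (0 : ℝ) (dist x y),
          dist (γ s) (γ t) = |s - t|) ∧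
      (∃ δ : ℝ, ∀ x y z w : X,
        dist x y + dist z w ≤ max (dist x z + dist y w) (dist x w + dist y z) + 2 * δ) ∧
      (∀ ε : ℝ, 0 < ε → ∃ (R : ℝ) (N : ℕ), ∀ x y : X, R ≤ dist x y →
        ({g : G | dist x (g • x) ≤ ε ∧ dist y (g • y) ≤ ε} : Set G).Finite ∧
        ({g : G | dist x (g • x) ≤ ε ∧ dist y (g • y) ≤ ε} : Set G).ncard ≤ N) ∧
      (∃ x : X, ¬ Bornology.IsBounded (MulAction.orbit G x)) := by
  have hD := F.geo
  obtain ⟨m, hm⟩ := ext_met hD o
  obtain ⟨a, ha⟩ := ext_act hD F.iso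
  have hdist : ∀ f g : Ext D, dist f g = hd f g := hm
  have hact : ∀ (g : G) (f : Ext D) (x : X), (g • f).1 x = f.1 (g⁻¹ • x) := ha
  -- the action is isometric
  have hiso : ∀ (g : G) (f h : Ext D), hd (g • f) (g • h) = hd f h := by
    intro g f h
    apply le_antisymm
    · refine hd_le o _ _ fun x => ?_
      rw [hact, hact]
      exact le_hd hD f h _
    · refine hd_le o _ _ fun x => ?_
      have h1 := le_hd hD (g • f) (g • h) (g • x)
      rw [hact, hact, inv_smul_smul] at h1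
      exact h1
  -- the functions of the points
  choose e he using fun v : X => ext_e hD v
  have hge : ∀ (g : G) (v : X), g • e v = e (g • v) := by
    intro g v
    apply Subtype.ext
    funext x
    rw [hact, (he v).1, (he (g • v)).1, ← F.iso g v (g⁻¹ • x), smul_inv_smul]
  have hee : ∀ v w : X, hd (e v) (e w) = D v w := by
    intro v w
    rw [(he v).2, (he w).1, hD.symm]
  have htri : ∀ f g h : Ext D, hd f h ≤ hd f g + hd g h := by
    intro f g h
    rw [← hdist, ← hdist, ← hdist]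
    exact dist_triangle f g h
  have hcomm : ∀ f g : Ext D, hd f g = hd g f := by
    intro f g
    rw [← hdist, ← hdist]
    exact dist_comm f g
  refine ⟨Ext D, m, a, ?_, ?_, ?_, ?_, ?_⟩
  · intro g f h
    rw [hdist, hdist]
    exact hiso g f h
  · intro f g
    rw [hdist]
    obtain ⟨γ, h0, h1, h2⟩ := ext_geod hD o f g
    refine ⟨γ, h0, h1, fun s hs t ht => ?_⟩
    rw [hdist]
    exact h2 s hs t ht
  · refine ⟨(δ : ℝ) / 2, fun x y z w => ?_⟩
    simp only [hdist]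
    have h1 := hd_four hD F.hyp o x y z w
    have h2 : 2 * ((δ : ℝ) / 2) = δ := by ring
    rw [h2]
    exact h1
  · intro ε hε
    obtain ⟨R', N, hRN⟩ := F.acyl (⌈ε⌉₊ + 2 * (δ + 2))
    refine ⟨(R' : ℝ) + 2 * ((δ : ℝ) + 2), N, fun f h hfh => ?_⟩
    rw [hdist] at hfh
    obtain ⟨v, hv⟩ := ext_near hD F.hyp o f
    obtain ⟨w, hw⟩ := ext_near hD F.hyp o h
    have hvf : hd (e v) f ≤ δ + 2 := by rw [(he v).2]; exact hv
    have hwh : hd (e w) h ≤ δ + 2 := by rw [(he w).2]; exact hw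
    have h1 : R' ≤ D v w := by
      have h2 : hd f h ≤ hd f (e v) + (hd (e v) (e w) + hd (e w) h) :=
        (htri f (e v) h).trans (by linarith [htri (e v) (e w) h])
      rw [hcomm f (e v), hee] at h2
      have h3 : (R' : ℝ) ≤ D v w := by linarith
      exact_mod_cast h3
    obtain ⟨hfin, hcard⟩ := hRN v w h1
    have key : ∀ (u : X) (k : Ext D) (g : G), hd (e u) k ≤ δ + 2 → dist k (g • k) ≤ ε →
        D u (g • u) ≤ ⌈ε⌉₊ + 2 * (δ + 2) := by
      intro u k g h2 h3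
      rw [hdist] at h3
      have h4 : hd (e u) (e (g • u)) ≤ hd (e u) k + (hd k (g • k) + hd (g • k) (e (g • u))) :=
        (htri (e u) k _).trans (by linarith [htri k (g • k) (e (g • u))])
      have h5 : hd (g • k) (e (g • u)) = hd (e u) k := by
        rw [← hge, hiso, hcomm]
      rw [hee, h5] at h4
      have h6 : (ε : ℝ) ≤ ⌈ε⌉₊ := Nat.le_ceil ε
      have h7 : (D u (g • u) : ℝ) ≤ ⌈ε⌉₊ + 2 * (δ + 2) := by linarith
      exact_mod_cast h7
    have hsub : ({g : G | dist f (g • f) ≤ ε ∧ dist h (g • h) ≤ ε} : Set G) ⊆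
        {g : G | D v (g • v) ≤ ⌈ε⌉₊ + 2 * (δ + 2) ∧ D w (g • w) ≤ ⌈ε⌉₊ + 2 * (δ + 2)} := by
      rintro g ⟨h2, h3⟩
      exact ⟨key v f g hvf h2, key w h g hwh h3⟩
    exact ⟨hfin.subset hsub, (Set.ncard_le_ncard hsub hfin).trans hcard⟩
  · refine ⟨e o, fun hb => ?_⟩
    obtain ⟨C, hC⟩ := Metric.isBounded_iff.1 hb
    obtain ⟨g, hg⟩ := F.unb (⌈C⌉₊ + 1)
    have h1 : dist (e o) (g • e o) ≤ C :=
      hC (MulAction.mem_orbit_self (e o)) (MulAction.mem_orbit (e o) g)
    rw [hdist, hge, hee] at h1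
    have h2 : (C : ℝ) ≤ ⌈C⌉₊ := Nat.le_ceil C
    have h3 : ((⌈C⌉₊ + 1 : ℕ) : ℝ) ≤ D o (g • o) := by exact_mod_cast hg
    push_cast at h3
    linarith

end AHA
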