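import Pool.Agent.AHA.Defs
import Pool.Agent.Burn.Prod

set_option autoImplicit false

/-!
# AHA LXP: Gromov products on the orbit of a loxodromic element are bounded

Translation of `Pool/Agent/Burn/Grow.lean` (theorem `grow`) and `Pool/Agent/Burn/Prod.lean`
(`prod_two`, `lox_products`) from left invariant metrics on `G` to an action on `X`.
-/

namespace AHA

open Burn (Geo Btw Hyp Slim Fellow IsPath)

section
variable {X G : Type} [Group G] [MulAction G X]
variable {d : X → X → ℕ} {δ κ : ℕ} {f : G} {o : X}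

lemma lxg_dist (hl : ∀ (g : G) (x y : X), d (g • x) (g • y) = d x y) (g : G) (x : X) (i j : ℕ) :
    d (g ^ i • x) (g ^ (i + j) • x) = d x (g ^ j • x) := by
  rw [pow_add, mul_smul]
  exact hl (g ^ i) x (g ^ j • x)

theorem lx_dist (L : Lx d δ κ f o) (i j : ℕ) :
    d (f ^ i • o) (f ^ (i + j) • o) = d o (f ^ j • o) := lxg_dist L.iso f o i j

theorem lxg_grow {δ a : ℕ} (hg : Geo d) (hh : Hyp d δ)
    (hl : ∀ (g : G) (x y : X), d (g • x) (g • y) = d x y) {g : G} {x : X}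
    (h1 : 2 * d x (g • x) ≤ d x (g ^ 2 • x) + a) (h2 : 2 * a + 3 * δ < 2 * d x (g • x)) :
    (∀ i j : ℕ, d x (g ^ i • x) + d x (g ^ j • x) ≤ d x (g ^ (i + j) • x) + a + 2 * δ) := by
  have hs : ∀ i j : ℕ, d (g ^ i • x) (g ^ (i + j) • x) = d x (g ^ j • x) :=
    fun i j => lxg_dist hl g x i j
  have h00 : d x (g ^ 0 • x) = 0 := by rw [pow_zero, one_smul]; exact hg.refl x
  have hone : d x (g ^ 1 • x) = d x (g • x) := by rw [pow_one]
  have hx0 : ∀ i : ℕ, d (g ^ 0 • x) (g ^ i • x) = d x (g ^ i • x) := fun i => by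
    rw [pow_zero, one_smul]
  rw [← hone] at h1 h2
  have A : ∀ i : ℕ, d x (g ^ i • x) + d x (g ^ 1 • x) ≤ d x (g ^ (i + 1) • x) + a + δ := by
    intro i
    induction i with
    | zero => simp only [h00, zero_add]; omega
    | succ i ih =>
      have h4 := hh (g ^ 0 • x) (g ^ (i + 1) • x) (g ^ i • x) (g ^ (i + 2) • x)
      rw [hx0, hx0, hx0, hs i 2] at h4
      have e1 : d (g ^ (i + 1) • x) (g ^ (i + 2) • x) = d x (g ^ 1 • x) := hs (i + 1) 1
      have e2 : d (g ^ (i + 1) • x) (g ^ i • x) = d x (g ^ 1 • x) := by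
        rw [hg.symm]; exact hs i 1
      rw [e1, e2] at h4
      have e3 : i + 1 + 1 = i + 2 := rfl
      rw [e3]
      omega
  intro i j
  rcases i with _ | i
  · rw [h00, Nat.zero_add, Nat.zero_add]; omega
  rcases j with _ | j
  · rw [h00]; simp only [Nat.add_zero]; omega
  have hA1 := A i
  have hA2 := A j
  have p1 := hh (g ^ i • x) (g ^ (i + 2) • x) (g ^ 0 • x) (g ^ (i + 1) • x)
  have p2 := hh (g ^ 0 • x) (g ^ (i + 2) • x) (g ^ (i + 1 + (j + 1)) • x) (g ^ (i + 1) • x)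
  have e0 : d (g ^ i • x) (g ^ (i + 2) • x) = d x (g ^ 2 • x) := hs i 2
  have e1 : d (g ^ (i + 2) • x) (g ^ (i + 1) • x) = d x (g ^ 1 • x) := by
    rw [hg.symm]; exact hs (i + 1) 1
  have e2 : d (g ^ i • x) (g ^ (i + 1) • x) = d x (g ^ 1 • x) := hs i 1
  have e3 : d (g ^ i • x) (g ^ 0 • x) = d x (g ^ i • x) := by rw [hg.symm]; exact hx0 i
  have e4 : d (g ^ (i + 2) • x) (g ^ 0 • x) = d x (g ^ (i + 2) • x) := by
    rw [hg.symm]; exact hx0 (i + 2)
  have e5 : d (g ^ (i + 1 + (j + 1)) • x) (g ^ (i + 1) • x) = d x (g ^ (j + 1) • x) := by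
    rw [hg.symm]; exact hs (i + 1) (j + 1)
  have e6 : d (g ^ (i + 2) • x) (g ^ (i + 1 + (j + 1)) • x) = d x (g ^ j • x) := by
    have : i + 1 + (j + 1) = i + 2 + j := by omega
    rw [this]; exact hs (i + 2) j
  rw [e0, e1, e2, e3, e4, hx0] at p1
  rw [e1, e5, e6, hx0, hx0, hx0] at p2
  omega

/-- some power of two has quickly growing squares -/
lemma lxg_two (L : Lx d δ κ f o) (a : ℕ) :
    ∃ N : ℕ, 0 < N ∧ 2 * d o (f ^ N • o) + a < 2 * d o (f ^ (2 * N) • o) := by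
  by_contra hcon
  push Not at hcon
  have h1 : ∀ r : ℕ, 2 * d o (f ^ (2 ^ r) • o) ≤ 2 * d o (f ^ 1 • o) + a * r := by
    intro r
    induction r with
    | zero => simp
    | succ r ih =>
      have h2 := hcon (2 ^ r) (by positivity)
      rw [← pow_succ'] at h2
      have e : a * (r + 1) = a * r + a := by ring
      rw [e]
      omega
  obtain ⟨r, hr1, hr⟩ := Burn.prod_exp (κ * (2 * d o (f ^ 1 • o) + a))
  have h2 := h1 r
  have h3 := L.lox (2 ^ r)
  have h4 : κ * (2 * d o (f ^ (2 ^ r) • o)) ≤ κ * (2 * d o (f ^ 1 • o) + a * r) :=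
    Nat.mul_le_mul_left _ h2
  have h5 : κ * (2 * d o (f ^ 1 • o) + a * r) ≤ κ * (2 * d o (f ^ 1 • o) + a) * r := by
    rw [mul_assoc]
    apply Nat.mul_le_mul_left
    nlinarith
  have h6 : κ * (2 * d o (f ^ (2 ^ r) • o)) = 2 * (κ * d o (f ^ (2 ^ r) • o)) := by ring
  omega

theorem lx_products (L : Lx d δ κ f o) :
    ∃ B : ℕ, ∀ i j : ℕ, d o (f ^ i • o) + d o (f ^ j • o) ≤ d o (f ^ (i + j) • o) + B := by
  obtain ⟨N, hN, h1⟩ := lxg_two L (3 * δ)
  have hg := L.geo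
  set M := ∑ r ∈ Finset.range N, d o (f ^ r • o) with hM
  have hMr : ∀ r, r < N → d o (f ^ r • o) ≤ M := fun r hr =>
    Finset.single_le_sum (f := fun r => d o (f ^ r • o)) (fun _ _ => Nat.zero_le _)
      (Finset.mem_range.2 hr)
  -- adding exponents
  have hadd : ∀ i j : ℕ, d o (f ^ (i + j) • o) ≤ d o (f ^ i • o) + d o (f ^ j • o) ∧
      d o (f ^ i • o) ≤ d o (f ^ (i + j) • o) + d o (f ^ j • o) := by
    intro i j
    have t1 := hg.tri o (f ^ i • o) (f ^ (i + j) • o)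
    have t2 := hg.tri o (f ^ (i + j) • o) (f ^ i • o)
    rw [hg.symm (f ^ (i + j) • o)] at t2
    rw [lx_dist L] at t1 t2
    exact ⟨t1, t2⟩
  have hmul : ∀ i : ℕ, (f ^ N) ^ i = f ^ (N * i) := fun i => (pow_mul f N i).symm
  have h2 := lxg_grow (g := f ^ N) (x := o) (a := 2 * d o (f ^ N • o) - d o (f ^ (2 * N) • o))
    hg L.hyp L.iso (by rw [hmul, mul_comm N 2]; omega) (by
      have := (hadd N N).1
      rw [← two_mul N] at this
      omega)
  set a := 2 * d o (f ^ N • o) - d o (f ^ (2 * N) • o) with ha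
  refine ⟨a + 2 * δ + 4 * M, ?_⟩
  intro i j
  have h3 := h2 (i / N) (j / N)
  rw [hmul, hmul, hmul] at h3
  have hi := Nat.div_add_mod i N
  have hj := Nat.div_add_mod j N
  have mi := Nat.mod_lt i hN
  have mj := Nat.mod_lt j hN
  have b1 := (hadd (N * (i / N)) (i % N)).1
  rw [hi] at b1
  have b2 := (hadd (N * (j / N)) (j % N)).1
  rw [hj] at b2
  have b3 := (hadd (N * (i / N + j / N)) (i % N)).2
  have b4 := (hadd (N * (i / N + j / N) + i % N) (j % N)).2
  have e : N * (i / N + j / N) + i % N + j % N = i + j := by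
    rw [mul_add]; omega
  rw [e] at b4
  have c1 := hMr _ mi
  have c2 := hMr _ mj
  omega

end

end AHA
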