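import Pool.Agent.AHA.Dfin
import Pool.Agent.AHA.Gra
import Pool.Agent.AHA.Hulld

set_option autoImplicit false

/-!
# AHA MAIN: a group with a WPD element which is not virtually cyclic is acylindrically hyperbolic
-/

namespace AHA

theorem acyl_of_wpd (G : Type) [Group G] (h : AHX.WPDHyp G) :
    (¬ ∃ H : Subgroup G, IsCyclic H ∧ H.FiniteIndex) ∧
    ∃ (X : Type) (_ : MetricSpace X) (_ : MulAction G X),
      (∀ (g : G) (x y : X), dist (g • x) (g • y) = dist x y) ∧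
      (∀ x y : X, ∃ γ : ℝ → X, γ 0 = x ∧ γ (dist x y) = y ∧
        ∀ s ∈ Set.Icc (0 : ℝ) (dist x y), ∀ t ∈ Set.Icc (0 : ℝ) (dist x y),
          dist (γ s) (γ t) = |s - t|) ∧
      (∃ δ : ℝ, ∀ x y z w : X,
        dist x y + dist z w ≤ max (dist x z + dist y w) (dist x w + dist y z) + 2 * δ) ∧
      (∀ ε : ℝ, 0 < ε → ∃ (R : ℝ) (N : ℕ), ∀ x y : X, R ≤ dist x y →
        ({g : G | dist x (g • x) ≤ ε ∧ dist y (g • y) ≤ ε} : Set G).Finite ∧
        ({g : G | dist x (g • x) ≤ ε ∧ dist y (g • y) ≤ ε} : Set G).ncard ≤ N) ∧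
      (∃ x : X, ¬ Bornology.IsBounded (MulAction.orbit G x)) := by
  refine ⟨h.1, ?_⟩
  obtain ⟨X, _, d, δ, κ, f, o, L, W⟩ := lx_of_wpd h
  obtain ⟨D, δ', F⟩ := dfin L W h.1
  exact hull G X D δ' o F

end AHA
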