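import Pool.Agent.AHA.Proj

set_option autoImplicit false

/-!
# AHA ORD: the order of the separating elements

`ds l x` means `ds (dh d C) (C l) x`.  Let `l, l' ∈ LL x y`, `l ≠ l'`, and let `p` be an electric
geodesic from `x` to `y` of length `n` (`pathR`).  By `sep_pos2` and `exists_lstep` it has a step
`(i, i+1)` inside `C l` and a step `(j, j+1)` inside `C l'`, and `i = ds l x`, `j = ds l' x`
(`lstep_eq`); `p i ∈ pj l x`, `p (i+1) ∈ pj l y`.

* `ord_ne` : if `i = j` then `p i, p (i+1) ∈ C l'`, so `|P l (p i) - P l (p (i+1))| ≤ c` by `S.sep`, and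
  `|P l x - P l y| ≤ 2 M + c` by `pj_pos`, contradiction to `sep_pos2`.
* `ord_pos` : let `i < j`.  The part of `p` up to `i` contains no step inside `C l'` (by `lstep_eq` such
  a step has index `j`), so `avd2` gives `|P l' x - P l' (p i)| ≤ M`; for `w ∈ C l`,
  `|P l' (p i) - P l' w| ≤ c` by `S.sep`.  In the same way the part from `j + 1` on contains no step
  inside `C l` (`path_tail`), `p (j+1) ∈ C l'`.
* `exact_pj` : for all `v ∈ C l`: `|P l' v - P l' w| ≤ c` (`S.sep`), so `|P l' v - P l' z| > M` and by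
  `pass_ds` `dh v z = ds l' v + 1 + ds l' z`.  So among the `v ∈ C l` the number `dh z v` is minimal iff
  `ds l' v` is minimal.
* `ord_exact` : from `ord_pos`, `sep_pos2` and `exact_pj`.
-/

namespace AHA

open Burn (Geo Btw Hyp Slim Fellow IsPath)

section
variable {X ι G : Type} [Group G] [MulAction G X] [MulAction G ι]
variable {d : X → X → ℕ} {C : ι → Set X} {P : ι → X → ℤ} {c M K : ℕ}

/-- A path with its steps inside `C l` and `C l'`. -/
theorem ord_path (S : Sys2 G d C P c M K) {l l' : ι} {x y : X} (hl : l ∈ LL d C K x y)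
    (hl' : l' ∈ LL d C K x y) : ∃ (p : ℕ → X) (n i j : ℕ), IsPath (dh d C) p n ∧ p 0 = x ∧ p n = y ∧
      i < n ∧ j < n ∧ p i ∈ C l ∧ p (i + 1) ∈ C l ∧ p j ∈ C l' ∧ p (j + 1) ∈ C l' ∧
      ds (dh d C) (C l) x = i ∧ ds (dh d C) (C l') x = j := by
  obtain ⟨p, hp, h0, h1⟩ := pathR (geoh S.toSys) (dh_eq0 S.toSys) x y
  have hM := Int.natCast_nonneg M
  have hc := Int.natCast_nonneg c
  have a1 := sep_pos2 S hl
  have a2 := sep_pos2 S hl'
  obtain ⟨i, hi, h2, h3⟩ := exists_lstep S (l := l) hp (by rw [h0, h1]; linarith)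
  obtain ⟨j, hj, h4, h5⟩ := exists_lstep S (l := l') hp (by rw [h0, h1]; linarith)
  have h6 := (lstep_eq S hp hi h2 h3).1
  have h7 := (lstep_eq S hp hj h4 h5).1
  rw [h0] at h6 h7
  exact ⟨p, _, i, j, hp, h0, h1, hi, hj, h2, h3, h4, h5, h6, h7⟩

theorem ord_ne (S : Sys2 G d C P c M K) {l l' : ι} {x y : X} (hl : l ∈ LL d C K x y)
    (hl' : l' ∈ LL d C K x y) (hne : l ≠ l') :
    ds (dh d C) (C l) x ≠ ds (dh d C) (C l') x := by
  obtain ⟨p, n, i, j, hp, h0, h1, hi, hj, h2, h3, h4, h5, h6, h7⟩ := ord_path S hl hl'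
  intro h
  rw [h6, h7] at h
  subst h
  have hM := Int.natCast_nonneg M
  have hc := Int.natCast_nonneg c
  have a1 := sep_pos2 S hl
  have a2 := S.sep l l' _ _ hne h4 h5
  have a3 : p i ∈ pj (dh d C) (C l) x := by
    refine ⟨h2, ?_⟩
    rw [h6, ← h0, hp 0 i (by omega) (by omega)]
    omega
  have a4 : p (i + 1) ∈ pj (dh d C) (C l) y := by
    refine ⟨h3, ?_⟩
    have a5 := (lstep_eq S hp hi h2 h3).2
    rw [h1] at a5
    have a6 := hp (i + 1) n (by omega) (by omega)
    rw [h1] at a6
    rw [a5, (geoh S.toSys).symm, a6]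
  have b1 := abs_le.1 (pj_pos S a3)
  have b2 := abs_le.1 (pj_pos S a4)
  have b3 := abs_le.1 a2
  have b4 : |P l x - P l y| ≤ 2 * M + c := by
    rw [abs_le]
    constructor <;> linarith [b1.1, b1.2, b2.1, b2.2, b3.1, b3.2]
  linarith

theorem ord_pos (S : Sys2 G d C P c M K) {l l' : ι} {x y : X} (hl : l ∈ LL d C K x y)
    (hl' : l' ∈ LL d C K x y) (hlt : ds (dh d C) (C l) x < ds (dh d C) (C l') x) :
    (∀ w ∈ C l, |P l' w - P l' x| ≤ M + c) ∧ ∀ w ∈ C l', |P l w - P l y| ≤ M + c := by
  obtain ⟨p, n, i, j, hp, h0, h1, hi, hj, h2, h3, h4, h5, h6, h7⟩ := ord_path S hl hl'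
  rw [h6, h7] at hlt
  have hne : l ≠ l' := by
    rintro rfl
    omega
  constructor
  · intro w hw
    have a1 := avd2 S (l := l') (path_head hp (show i ≤ n by omega)) (by
      rintro t ht ⟨b1, b2⟩
      have b3 := (lstep_eq S hp (show t < n by omega) b1 b2).1
      rw [h0] at b3
      omega)
    rw [h0] at a1
    have a2 := S.sep l' l _ _ hne.symm h2 hw
    have b1 := abs_le.1 a1
    have b2 := abs_le.1 a2
    rw [abs_le]
    constructor <;> linarith [b1.1, b1.2, b2.1, b2.2]
  · intro w hw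
    have a1 := avd2 S (l := l) (path_tail hp (show j + 1 ≤ n by omega)) (by
      rintro t ht ⟨b1, b2⟩
      have b3 := (lstep_eq S hp (show j + 1 + t < n by omega) b1 b2).1
      rw [h0] at b3
      omega)
    have e1 : j + 1 + (n - (j + 1)) = n := by omega
    simp only [add_zero, e1] at a1
    rw [h1] at a1
    have a2 := S.sep l l' _ _ hne h5 hw
    have b1 := abs_le.1 a1
    have b2 := abs_le.1 a2
    rw [abs_le]
    constructor <;> linarith [b1.1, b1.2, b2.1, b2.2]

theorem exact_pj (S : Sys2 G d C P c M K) {l l' : ι} {w z : X} (hne : l ≠ l') (hw : w ∈ C l)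
    (h : (M : ℤ) + c < |P l' w - P l' z|) : pj (dh d C) (C l) z = pr2 d C l l' := by
  have hg := geoh S.toSys
  have key : ∀ v ∈ C l, ds (dh d C) (C l') v + 1 + ds (dh d C) (C l') z = dh d C v z := by
    intro v hv
    apply pass_ds S
    have a1 := S.sep l' l _ _ hne.symm hv hw
    have a2 : |P l' w - P l' z| ≤ |P l' v - P l' w| + |P l' v - P l' z| := by
      have e1 : P l' w - P l' z = -(P l' v - P l' w) + (P l' v - P l' z) := by ring
      rw [e1]
      have a3 := abs_add_le (-(P l' v - P l' w)) (P l' v - P l' z)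
      rw [abs_neg] at a3
      exact a3
    linarith
  ext v
  constructor
  · intro hv
    refine ⟨hv.1, fun u hu => ?_⟩
    have a1 := key v hv.1
    have a2 := key u hu
    have a3 := ds_le (D := dh d C) hu z
    have a4 := hv.2
    have a5 := hg.symm v z
    have a6 := hg.symm u z
    omega
  · intro hv
    refine ⟨hv.1, ?_⟩
    obtain ⟨u, hu, hu'⟩ := ds_ex (D := dh d C) (S.ne l) z
    have a1 := key v hv.1
    have a2 := key u hu
    have a3 := ds_le (D := dh d C) hv.1 z
    have a4 := hv.2 u hu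
    have a5 := hg.symm v z
    have a6 := hg.symm u z
    omega

theorem ord_exact (S : Sys2 G d C P c M K) {l l' : ι} {x y : X} (hl : l ∈ LL d C K x y)
    (hl' : l' ∈ LL d C K x y) (hlt : ds (dh d C) (C l) x < ds (dh d C) (C l') x) :
    pj (dh d C) (C l) y = pr2 d C l l' ∧ pj (dh d C) (C l') x = pr2 d C l' l := by
  obtain ⟨h1, h2⟩ := ord_pos S hl hl' hlt
  have hne : l ≠ l' := by
    rintro rfl
    omega
  have hM := Int.natCast_nonneg M
  have hc := Int.natCast_nonneg c
  have a1 := sep_pos2 S hl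
  have a2 := sep_pos2 S hl'
  obtain ⟨w, hw⟩ := S.ne l
  obtain ⟨w', hw'⟩ := S.ne l'
  constructor
  · apply exact_pj S hne hw
    have a3 := h1 w hw
    have a4 : |P l' x - P l' y| ≤ |P l' w - P l' x| + |P l' w - P l' y| := by
      have e1 : P l' x - P l' y = -(P l' w - P l' x) + (P l' w - P l' y) := by ring
      rw [e1]
      have a5 := abs_add_le (-(P l' w - P l' x)) (P l' w - P l' y)
      rw [abs_neg] at a5
      exact a5
    linarith
  · apply exact_pj S hne.symm hw'
    have a3 := h2 w' hw'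
    have a4 : |P l x - P l y| ≤ |P l w' - P l x| + |P l w' - P l y| := by
      have e1 : P l x - P l y = -(P l w' - P l x) + (P l w' - P l y) := by ring
      rw [e1]
      have a5 := abs_add_le (-(P l w' - P l x)) (P l w' - P l y)
      rw [abs_neg] at a5
      exact a5
    linarith

/-- The order seen from the other end. -/
theorem ord_symm (S : Sys2 G d C P c M K) {l l' : ι} {x y : X} (hl : l ∈ LL d C K x y)
    (hl' : l' ∈ LL d C K x y) (hlt : ds (dh d C) (C l) x < ds (dh d C) (C l') x) :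
    ds (dh d C) (C l') y < ds (dh d C) (C l) y := by
  have hM := Int.natCast_nonneg M
  have hc := Int.natCast_nonneg c
  have a1 := sep_pos2 S hl
  have a2 := sep_pos2 S hl'
  have a3 := pass_ds S (l := l) (x := x) (y := y) (by linarith)
  have a4 := pass_ds S (l := l') (x := x) (y := y) (by linarith)
  omega

end

end AHA
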