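import Pool.Agent.AHA.Cone

set_option autoImplicit false

/-!
# AHA PROJ: nearest points of `C l` in the electric metric

Proofs (all paths are electric geodesics, `ds l x` means `ds (dh d C) (C l) x`).

* `lstep_eq` : `ds l (p 0) ≤ dh (p 0) (p i) = i`.  If `w ∈ C l` has `dh (p 0) w = s < i` then
  `i + 1 = dh (p 0) (p (i+1)) ≤ s + dh w (p (i+1)) ≤ s + 1`, contradiction (`dh_C`).  Same from the
  other end.
* `avd2` : `S.avoid` and `path_r1`.  `exists_lstep` : contraposition of `avd2`.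
* `pj_pos` : a geodesic from `x` to `u ∈ pj l x` has length `ds l x`; a step inside `C l` at index `i`
  would have `i = ds l x` by `lstep_eq`, but `i <` length.  So `avd2` applies.
* `pj_diam` : `S.emb` and `pj_pos` twice.
* `pass_ds` : `exists_lstep` for a geodesic from `x` to `y` (`pathR`) and `lstep_eq`.
* `pass_btw` : `dh x y ≤ dh x u + dh u y`, and for `v ∈ pj l y`
  `dh u y ≤ dh u v + dh v y ≤ 1 + ds l y`, so `dh x u + dh u y ≤ ds l x + 1 + ds l y = dh x y`.
* `sep_pos` : `K < d u v ≤ |P l u - P l v| + c` and `pj_pos`.  `sep_pos2` : with `S.big`.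
* `pos_sep` : take any `u ∈ pj l x`, `v ∈ pj l y` (`pj_ne`, `S.ne`), `pj_pos` gives
  `c K < |P l u - P l v| ≤ c d u v` (`S.lip`), so `K < d u v`.
-/

namespace AHA

open Burn (Geo Btw Hyp Slim Fellow IsPath)

section
variable {X ι G : Type} [Group G] [MulAction G X] [MulAction G ι]
variable {d : X → X → ℕ} {C : ι → Set X} {P : ι → X → ℤ} {c M K : ℕ}

theorem lstep_eq (S : Sys2 G d C P c M K) {p : ℕ → X} {n i : ℕ} {l : ι}
    (hp : IsPath (dh d C) p n) (hi : i < n) (h1 : p i ∈ C l) (h2 : p (i + 1) ∈ C l) :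
    ds (dh d C) (C l) (p 0) = i ∧ ds (dh d C) (C l) (p n) = n - (i + 1) := by
  have hg := geoh S.toSys
  constructor
  · have a1 := ds_le (D := dh d C) h1 (p 0)
    have a2 := hp 0 i (by omega) (by omega)
    obtain ⟨w, hw, hw'⟩ := ds_ex (D := dh d C) (S.ne l) (p 0)
    have a3 := hp 0 (i + 1) (by omega) (by omega)
    have a4 := hg.tri (p 0) w (p (i + 1))
    have a5 := dh_C (d := d) (C := C) hw h2
    omega
  · have a1 := ds_le (D := dh d C) h2 (p n)
    have a2 := hp (i + 1) n (by omega) (by omega)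
    obtain ⟨w, hw, hw'⟩ := ds_ex (D := dh d C) (S.ne l) (p n)
    have a3 := hp i n (by omega) (by omega)
    have a4 := hg.tri (p n) w (p i)
    have a5 := dh_C (d := d) (C := C) hw h1
    have s1 := hg.symm (p n) (p (i + 1))
    have s2 := hg.symm (p n) (p i)
    omega

theorem avd2 (S : Sys2 G d C P c M K) {p : ℕ → X} {n : ℕ} {l : ι} (hp : IsPath (dh d C) p n)
    (h : ∀ i, i < n → ¬ (p i ∈ C l ∧ p (i + 1) ∈ C l)) : |P l (p 0) - P l (p n)| ≤ M :=
  S.avoid l p n hp (path_r1 S.toSys hp) h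

theorem exists_lstep (S : Sys2 G d C P c M K) {p : ℕ → X} {n : ℕ} {l : ι}
    (hp : IsPath (dh d C) p n) (h : (M : ℤ) < |P l (p 0) - P l (p n)|) :
    ∃ i, i < n ∧ p i ∈ C l ∧ p (i + 1) ∈ C l := by
  by_contra hcon
  push Not at hcon
  have := avd2 S (l := l) hp (fun i hi h => hcon i hi h.1 h.2)
  omega

theorem pj_pos (S : Sys2 G d C P c M K) {l : ι} {x u : X} (hu : u ∈ pj (dh d C) (C l) x) :
    |P l x - P l u| ≤ M := by
  obtain ⟨p, hp, h0, h1⟩ := pathR (geoh S.toSys) (dh_eq0 S.toSys) x u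
  by_contra hcon
  push Not at hcon
  obtain ⟨i, hi, h2, h3⟩ := exists_lstep S (l := l) hp (by rw [h0, h1]; exact hcon)
  have h4 := (lstep_eq S hp hi h2 h3).1
  rw [h0] at h4
  have h5 := hu.2
  omega

theorem pj_diam (S : Sys2 G d C P c M K) {l : ι} {x u v : X} (hu : u ∈ pj (dh d C) (C l) x)
    (hv : v ∈ pj (dh d C) (C l) x) : d u v ≤ 2 * M + c := by
  have h1 := abs_le.1 (pj_pos S hu)
  have h2 := abs_le.1 (pj_pos S hv)
  have h3 := S.emb l u v hu.1 hv.1
  have h4 : |P l u - P l v| ≤ 2 * M := by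
    rw [abs_le]
    constructor <;> linarith [h1.1, h1.2, h2.1, h2.2]
  omega

theorem pass_ds (S : Sys2 G d C P c M K) {l : ι} {x y : X} (h : (M : ℤ) < |P l x - P l y|) :
    ds (dh d C) (C l) x + 1 + ds (dh d C) (C l) y = dh d C x y := by
  obtain ⟨p, hp, h0, h1⟩ := pathR (geoh S.toSys) (dh_eq0 S.toSys) x y
  obtain ⟨i, hi, h2, h3⟩ := exists_lstep S (l := l) hp (by rw [h0, h1]; exact h)
  obtain ⟨h4, h5⟩ := lstep_eq S hp hi h2 h3
  rw [h0] at h4
  rw [h1] at h5
  omega

theorem pass_btw (S : Sys2 G d C P c M K) {l : ι} {x y u : X} (h : (M : ℤ) < |P l x - P l y|)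
    (hu : u ∈ pj (dh d C) (C l) x) : Btw (dh d C) x u y := by
  have hg := geoh S.toSys
  obtain ⟨v, hv⟩ := pj_ne (D := dh d C) (S.ne l) y
  have h1 := pass_ds S h
  have h2 := hu.2
  have h3 := hv.2
  have h4 := dh_C (d := d) (C := C) hu.1 hv.1
  have h5 := hg.tri u v y
  have h6 := hg.tri x u y
  have h7 := hg.symm y v
  unfold Burn.Btw
  omega

theorem sep_pos (S : Sys2 G d C P c M K) {l : ι} {x y : X} (h : Sep d C K x y l) :
    (K : ℤ) < |P l x - P l y| + 2 * M + c := by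
  obtain ⟨u, hu, v, hv, h1⟩ := h
  have h2 := S.emb l u v hu.1 hv.1
  have h3 := pj_pos S hu
  have h4 := pj_pos S hv
  have h5 : |P l u - P l v| ≤ |P l x - P l y| + 2 * M := by
    have e1 : P l u - P l v = -(P l x - P l u) + (P l x - P l y) + (P l y - P l v) := by ring
    rw [e1]
    have a1 := abs_add_le (-(P l x - P l u) + (P l x - P l y)) (P l y - P l v)
    have a2 := abs_add_le (-(P l x - P l u)) (P l x - P l y)
    rw [abs_neg] at a2
    linarith
  have h6 : (K : ℤ) < d u v := by exact_mod_cast h1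
  linarith

theorem sep_pos2 (S : Sys2 G d C P c M K) {l : ι} {x y : X} (h : Sep d C K x y l) :
    8 * (M : ℤ) + 9 * c + 10 < |P l x - P l y| := by
  have h1 := sep_pos S h
  have h2 : 10 * ((M : ℤ) + c) + 10 ≤ K := by exact_mod_cast S.big
  linarith

theorem pos_sep (S : Sys2 G d C P c M K) {l : ι} {x y : X}
    (h : 2 * (M : ℤ) + c * K < |P l x - P l y|) : Sep d C K x y l := by
  obtain ⟨u, hu⟩ := pj_ne (D := dh d C) (S.ne l) x
  obtain ⟨v, hv⟩ := pj_ne (D := dh d C) (S.ne l) y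
  refine ⟨u, hu, v, hv, ?_⟩
  have h3 := pj_pos S hu
  have h4 := pj_pos S hv
  have h5 : |P l x - P l y| ≤ |P l u - P l v| + 2 * M := by
    have e1 : P l x - P l y = (P l x - P l u) + (P l u - P l v) + -(P l y - P l v) := by ring
    rw [e1]
    have a1 := abs_add_le ((P l x - P l u) + (P l u - P l v)) (-(P l y - P l v))
    have a2 := abs_add_le (P l x - P l u) (P l u - P l v)
    rw [abs_neg] at a1
    linarith
  have h6 := S.lip l u v
  have h7 : (c : ℤ) * K < c * d u v := by linarith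
  have h8 : c * K < c * d u v := by exact_mod_cast h7
  exact Nat.lt_of_mul_lt_mul_left h8

theorem sep_symm (S : Sys2 G d C P c M K) {l : ι} {x y : X} (h : Sep d C K x y l) :
    Sep d C K y x l := by
  obtain ⟨u, hu, v, hv, h1⟩ := h
  refine ⟨v, hv, u, hu, ?_⟩
  rw [S.geo.symm]
  exact h1

end

end AHA
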