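import Pool.Agent.AHA.Defs

set_option autoImplicit false

/-!
# AHA RELM: chain metrics, geodesic paths, distance to a set

Proofs.  `rc_append`, `rc_symm`, `rc_path`, `rc_of_path` : induction.  `dR_spec` : `Nat.sInf_mem`.
`geoR` : symmetry from `rc_symm`, triangle from `rc_append`, `mid` by cutting the path given by
`rc_path` (both parts are then shortest by the triangle inequality).  `rc_geo` : `Burn.exists_path` and
`rc_of_path`.  `pathR`, `pathR2` : `Burn.exists_path`, `Burn.exists_path_through` and `h0`.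
`ds_ex` : `Nat.sInf_mem`.  `ds_smul` : the two sets of values agree.
-/

namespace AHA

open Burn (Geo Btw Hyp Slim Fellow IsPath)

section
variable {X : Type} {R : X → X → Prop}

theorem rc_append {k m : ℕ} {x y z : X} (h : RC R k x y) (h' : RC R m y z) :
    RC R (k + m) x z := by
  induction h with
  | nil x => rwa [Nat.zero_add]
  | cons h1 _ ih =>
    rw [Nat.add_right_comm]
    exact RC.cons h1 (ih h')

theorem rc_symm (hs : ∀ x y, R x y → R y x) {k : ℕ} {x y : X} (h : RC R k x y) : RC R k y x := by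
  induction h with
  | nil x => exact RC.nil x
  | cons h1 _ ih => exact rc_append ih (RC.cons (hs _ _ h1) (RC.nil _))

theorem rc_path {k : ℕ} {x y : X} (h : RC R k x y) :
    ∃ p : ℕ → X, p 0 = x ∧ p k = y ∧ ∀ i, i < k → R (p i) (p (i + 1)) := by
  induction h with
  | nil x => exact ⟨fun _ => x, rfl, rfl, fun i hi => absurd hi (Nat.not_lt_zero i)⟩
  | @cons k x y z h1 _ ih =>
    obtain ⟨p, hp0, hpk, hp⟩ := ih
    refine ⟨fun i => match i with
      | 0 => x
      | j + 1 => p j, rfl, hpk, fun i hi => ?_⟩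
    cases i with
    | zero =>
      show R x (p 0)
      rw [hp0]
      exact h1
    | succ j => exact hp j (Nat.lt_of_succ_lt_succ hi)

theorem rc_of_path (p : ℕ → X) (k : ℕ) (h : ∀ i, i < k → R (p i) (p (i + 1))) :
    RC R k (p 0) (p k) := by
  induction k with
  | zero => exact RC.nil _
  | succ k ih =>
    exact rc_append (ih fun i hi => h i (Nat.lt_succ_of_lt hi))
      (RC.cons (h k (Nat.lt_succ_self k)) (RC.nil _))

theorem dR_le {k : ℕ} {x y : X} (h : RC R k x y) : dR R x y ≤ k := Nat.sInf_le h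

theorem dR_spec (hc : ∀ x y, ∃ k, RC R k x y) (x y : X) : RC R (dR R x y) x y :=
  Nat.sInf_mem (s := {k | RC R k x y}) (hc x y)

theorem dR_one {x y : X} (h : R x y) : dR R x y ≤ 1 := dR_le (RC.cons h (RC.nil _))

theorem dR_eq0 (hc : ∀ x y, ∃ k, RC R k x y) {x y : X} (h : dR R x y = 0) : x = y := by
  have h1 := dR_spec hc x y
  rw [h] at h1
  cases h1
  rfl

theorem dR_le_one (hr : ∀ x, R x x) (hc : ∀ x y, ∃ k, RC R k x y) {x y : X}
    (h : dR R x y ≤ 1) : R x y := by
  rcases Nat.lt_or_ge (dR R x y) 1 with h0 | h0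
  · have h1 := dR_eq0 hc (Nat.lt_one_iff.1 h0)
    rw [h1]
    exact hr y
  · have h1 := dR_spec hc x y
    rw [le_antisymm h h0] at h1
    cases h1 with
    | cons h2 h3 =>
      cases h3
      exact h2

private theorem rc_split {t : ℕ} {y : X} : ∀ {s : ℕ} {x : X}, RC R (s + t) x y →
    ∃ w, RC R s x w ∧ RC R t w y := by
  intro s
  induction s with
  | zero =>
    intro x h
    rw [Nat.zero_add] at h
    exact ⟨x, RC.nil x, h⟩
  | succ s ih =>
    intro x h
    rw [Nat.add_right_comm] at h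
    cases h with
    | cons h1 h2 =>
      obtain ⟨w, hw1, hw2⟩ := ih h2
      exact ⟨w, RC.cons h1 hw1, hw2⟩

theorem geoR (hs : ∀ x y, R x y → R y x) (hc : ∀ x y, ∃ k, RC R k x y) : Geo (dR R) where
  refl := fun x => Nat.le_zero.1 (dR_le (RC.nil x))
  symm := fun x y => le_antisymm (dR_le (rc_symm hs (dR_spec hc y x)))
    (dR_le (rc_symm hs (dR_spec hc x y)))
  tri := fun x y z => dR_le (rc_append (dR_spec hc x y) (dR_spec hc y z))
  mid := by
    intro x y s t h
    have h1 := dR_spec hc x y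
    rw [h] at h1
    obtain ⟨w, hw1, hw2⟩ := rc_split h1
    have h2 := dR_le hw1
    have h3 := dR_le hw2
    have h4 : dR R x y ≤ dR R x w + dR R w y :=
      dR_le (rc_append (dR_spec hc x w) (dR_spec hc w y))
    exact ⟨w, by omega, by omega⟩

private theorem rc_smul {G : Type} [Group G] [MulAction G X]
    (h : ∀ (g : G) (x y : X), R x y → R (g • x) (g • y)) (g : G) {k : ℕ} {x y : X}
    (hk : RC R k x y) : RC R k (g • x) (g • y) := by
  induction hk with
  | nil x => exact RC.nil _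
  | cons h1 _ ih => exact RC.cons (h g _ _ h1) ih

theorem dR_smul {G : Type} [Group G] [MulAction G X]
    (h : ∀ (g : G) (x y : X), R x y → R (g • x) (g • y)) (g : G) (x y : X) :
    dR R (g • x) (g • y) = dR R x y := by
  unfold dR
  congr 1
  ext k
  constructor
  · intro hk
    have h1 := rc_smul h g⁻¹ hk
    rwa [inv_smul_smul, inv_smul_smul] at h1
  · intro hk
    exact rc_smul h g hk

theorem rc_mono {R' : X → X → Prop} (h : ∀ x y, R x y → R' x y) {k : ℕ} {x y : X}
    (hk : RC R k x y) : RC R' k x y := by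
  induction hk with
  | nil x => exact RC.nil _
  | cons h1 _ ih => exact RC.cons (h _ _ h1) ih

theorem dR_mono {R' : X → X → Prop} (hc : ∀ x y, ∃ k, RC R k x y) (h : ∀ x y, R x y → R' x y)
    (x y : X) : dR R' x y ≤ dR R x y := dR_le (rc_mono h (dR_spec hc x y))

theorem rc_geo {d : X → X → ℕ} (hd : Geo d) (h0 : ∀ x y, d x y = 0 → x = y)
    (h : ∀ x y, d x y ≤ 1 → R x y) (x y : X) : RC R (d x y) x y := by
  generalize hn : d x y = n
  induction n generalizing x with
  | zero =>
    rw [h0 x y hn]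
    exact RC.nil y
  | succ n ih =>
    obtain ⟨w, hw1, hw2⟩ := hd.mid x y 1 n (by omega)
    exact RC.cons (h x w hw1.le) (ih w hw2)

end

section
variable {X : Type} {D : X → X → ℕ}

theorem pathR (hD : Geo D) (h0 : ∀ x y, D x y = 0 → x = y) (x y : X) :
    ∃ p : ℕ → X, IsPath D p (D x y) ∧ p 0 = x ∧ p (D x y) = y := by
  obtain ⟨p, hp, hp0, hp1⟩ := Burn.exists_path hD x y
  exact ⟨p, hp, hp0, h0 _ _ hp1⟩

/-- A path through a point between the ends. -/
theorem pathR2 (hD : Geo D) (h0 : ∀ x y, D x y = 0 → x = y) {x u y : X} (h : Btw D x u y) :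
    ∃ p : ℕ → X, IsPath D p (D x y) ∧ p 0 = x ∧ p (D x y) = y ∧ p (D x u) = u := by
  obtain ⟨p, hp, hp0, hp1, hp2⟩ := Burn.exists_path_through hD h
  exact ⟨p, hp, hp0, h0 _ _ hp2, h0 _ _ hp1⟩

theorem path_head {p : ℕ → X} {n m : ℕ} (hp : IsPath D p n) (hm : m ≤ n) : IsPath D p m :=
  fun i j hij hj => hp i j hij (hj.trans hm)

theorem path_tail {p : ℕ → X} {n i : ℕ} (hp : IsPath D p n) (hi : i ≤ n) :
    IsPath D (fun j => p (i + j)) (n - i) := by
  intro a b hab hb
  have h := hp (i + a) (i + b) (by omega) (by omega)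
  show D (p (i + a)) (p (i + b)) = b - a
  omega

theorem path_rev (hD : Geo D) {p : ℕ → X} {n : ℕ} (hp : IsPath D p n) :
    IsPath D (fun j => p (n - j)) n := by
  intro a b hab hb
  have h := hp (n - b) (n - a) (by omega) (by omega)
  have h1 := hD.symm (p (n - a)) (p (n - b))
  show D (p (n - a)) (p (n - b)) = b - a
  omega

theorem ds_le {A : Set X} {u : X} (hu : u ∈ A) (x : X) : ds D A x ≤ D x u :=
  Nat.sInf_le ⟨u, hu, rfl⟩

theorem ds_ex {A : Set X} (hA : A.Nonempty) (x : X) : ∃ u ∈ A, D x u = ds D A x := by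
  obtain ⟨u, hu⟩ := hA
  exact Nat.sInf_mem (s := {k | ∃ u ∈ A, D x u = k}) ⟨D x u, u, hu, rfl⟩

theorem pj_ne {A : Set X} (hA : A.Nonempty) (x : X) : (pj D A x).Nonempty := by
  obtain ⟨u, hu, hu'⟩ := ds_ex (D := D) hA x
  exact ⟨u, hu, hu'⟩

theorem pj_mem {A : Set X} {x u : X} (h : u ∈ pj D A x) : u ∈ A := h.1

theorem ds_zero (hD : Geo D) {A : Set X} {x : X} (hx : x ∈ A) : ds D A x = 0 := by
  have h := ds_le (D := D) hx x
  rw [hD.refl] at h
  exact Nat.le_zero.1 h

theorem pj_self (hD : Geo D) (h0 : ∀ x y, D x y = 0 → x = y) {A : Set X} {x : X} (hx : x ∈ A) :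
    pj D A x = {x} := by
  ext u
  constructor
  · rintro ⟨_, hu⟩
    rw [ds_zero hD hx] at hu
    exact (h0 x u hu).symm
  · intro hu
    have hu' : u = x := hu
    subst hu'
    exact ⟨hx, by rw [ds_zero hD hx, hD.refl]⟩

/-- The distance to a set changes by at most the distance of the points. -/
theorem ds_lip (hD : Geo D) {A : Set X} (hA : A.Nonempty) (x y : X) :
    ds D A x ≤ D x y + ds D A y := by
  obtain ⟨u, hu, hu'⟩ := ds_ex (D := D) hA y
  have h1 := ds_le (D := D) hu x
  have h2 := hD.tri x y u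
  omega

theorem ds_smul {G : Type} [Group G] [MulAction G X]
    (hD : ∀ (g : G) (x y : X), D (g • x) (g • y) = D x y) {A B : Set X} (g : G)
    (h : ∀ x, x ∈ A ↔ g • x ∈ B) (x : X) : ds D B (g • x) = ds D A x := by
  unfold ds
  congr 1
  ext k
  constructor
  · rintro ⟨u, hu, rfl⟩
    refine ⟨g⁻¹ • u, (h _).2 (by rwa [smul_inv_smul]), ?_⟩
    rw [← hD g x (g⁻¹ • u), smul_inv_smul]
  · rintro ⟨u, hu, rfl⟩
    exact ⟨g • u, (h u).1 hu, hD g x u⟩

theorem pj_smul {G : Type} [Group G] [MulAction G X]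
    (hD : ∀ (g : G) (x y : X), D (g • x) (g • y) = D x y) {A B : Set X} (g : G)
    (h : ∀ x, x ∈ A ↔ g • x ∈ B) (x u : X) : g • u ∈ pj D B (g • x) ↔ u ∈ pj D A x := by
  constructor
  · rintro ⟨h1, h2⟩
    refine ⟨(h u).2 h1, ?_⟩
    rw [hD, ds_smul hD g h x] at h2
    exact h2
  · rintro ⟨h1, h2⟩
    refine ⟨(h u).1 h1, ?_⟩
    rw [hD, ds_smul hD g h x]
    exact h2

end

end AHA
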