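import Pool.Agent.AHA.Cnt

set_option autoImplicit false

/-!
# AHA WIN: separating elements in a window

`ds l x` means `ds (dh d C) (C l) x`, `l < l'` means `ds l x < ds l' x`.

`between_LL`: by `ord_exact`, `pj l x = pr2 l l₁` and `pj l y = pr2 l l₂`.  Now `pj l u₁ = pr2 l l₁` too:
take `w ∈ C l`; `|P l₁ w - P l₁ y| ≤ M + c` (`ord_pos`), `|P l₁ u₁ - P l₁ x| ≤ M` (`pj_pos`),
`|P l₁ x - P l₁ y| > 8 M + 9 c + 10` (`sep_pos2`), so `|P l₁ w - P l₁ u₁| > M + c` and `exact_pj`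
applies.  In the same way `pj l v₂ = pr2 l l₂`.  So `l ∈ LL x y` gives `l ∈ LL u₁ v₂`.

`window`: if `W` has at most 2 elements nothing is to prove.  `W` is finite (`LL_fin`).  Let `l₁` be its
first and `l₂` its last element (they are different), `u₁ ∈ pj l₁ x`, `v₂ ∈ pj l₂ y` (`pj_ne`).  All
other elements of `W` are strictly between (`ord_ne`), so in `LL u₁ v₂` by `between_LL`, and
`ncard W ≤ 2 + 3 dD u₁ v₂` (`cnt_le`).  By `pass_btw` (and symmetry for `v₂`) `u₁` and `v₂` are between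
`x` and `y` in `dh`.  Let `p` be a `dD`-geodesic from `x` to `y` (`pathR`); `Fellow` gives `i, j` with
`dD u₁ (p i) ≤ k`, `dD v₂ (p j) ≤ k`.  By hypothesis and `dD_C`, `dD x u₁` and `dD x v₂` are in
`[b - 1, b + a + 1]`, and `dD x (p i) = i`, so `i, j ∈ [b - 1 - k, b + a + 1 + k]`,
`dD u₁ v₂ ≤ k + |i - j| + k ≤ a + 2 + 4 k`.
-/

namespace AHA

open Burn (Geo Btw Hyp Slim Fellow IsPath)

section
variable {X ι G : Type} [Group G] [MulAction G X] [MulAction G ι]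
variable {d : X → X → ℕ} {C : ι → Set X} {P : ι → X → ℤ} {c M K : ℕ}

/-- Four points on the line. -/
private theorem win_abs {a b w u : ℤ} {M c : ℕ} (h : 8 * (M : ℤ) + 9 * c + 10 < |a - b|)
    (hw : |w - b| ≤ M + c) (hu : |a - u| ≤ M) : (M : ℤ) + c < |w - u| := by
  have hM : (0 : ℤ) ≤ M := Int.natCast_nonneg _
  have hc : (0 : ℤ) ≤ c := Int.natCast_nonneg _
  have h1 : a - b = (a - u) - (w - u) + (w - b) := by ring
  rw [h1] at h
  have h2 := abs_add_le ((a - u) - (w - u)) (w - b)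
  have h3 := abs_sub (a - u) (w - u)
  linarith

theorem between_LL (S : Sys2 G d C P c M K) {l₁ l l₂ : ι} {x y u₁ v₂ : X}
    (h₁ : l₁ ∈ LL d C K x y) (h : l ∈ LL d C K x y) (h₂ : l₂ ∈ LL d C K x y)
    (hlt : ds (dh d C) (C l₁) x < ds (dh d C) (C l) x)
    (hlt' : ds (dh d C) (C l) x < ds (dh d C) (C l₂) x)
    (hu : u₁ ∈ pj (dh d C) (C l₁) x) (hv : v₂ ∈ pj (dh d C) (C l₂) y) :
    l ∈ LL d C K u₁ v₂ := by
  have hne : l ≠ l₁ := by
    rintro rfl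
    exact lt_irrefl _ hlt
  have hne' : l ≠ l₂ := by
    rintro rfl
    exact lt_irrefl _ hlt'
  have s1 := sep_pos2 S (show Sep d C K x y l₁ from h₁)
  have s2 := sep_pos2 S (show Sep d C K x y l₂ from h₂)
  obtain ⟨w, hw⟩ := S.ne l
  have e1 : pj (dh d C) (C l) u₁ = pr2 d C l l₁ :=
    exact_pj S hne hw (win_abs s1 ((ord_pos S h₁ h hlt).2 w hw) (pj_pos S hu))
  rw [abs_sub_comm] at s2
  have e2 : pj (dh d C) (C l) v₂ = pr2 d C l l₂ :=
    exact_pj S hne' hw (win_abs s2 ((ord_pos S h h₂ hlt').1 w hw) (pj_pos S hv))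
  have e3 := (ord_exact S h₁ h hlt).2
  have e4 := (ord_exact S h h₂ hlt').1
  obtain ⟨u, hu', v, hv', huv⟩ := (show Sep d C K x y l from h)
  rw [e3, ← e1] at hu'
  rw [e4, ← e2] at hv'
  exact ⟨u, hu', v, hv', huv⟩

/-- Distance of the extremal points. -/
private theorem win_dist (S : Sys2 G d C P c M K) {k : ℕ}
    (hk : Fellow (dh d C) (dD d C K) k) {x y : X} {a b : ℕ} {l₁ l₂ : ι} {u₁ v₂ : X}
    (h₁ : l₁ ∈ LL d C K x y) (h₂ : l₂ ∈ LL d C K x y)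
    (hw₁ : ∃ w ∈ C l₁, b ≤ dD d C K x w ∧ dD d C K x w ≤ b + a)
    (hw₂ : ∃ w ∈ C l₂, b ≤ dD d C K x w ∧ dD d C K x w ≤ b + a)
    (hu : u₁ ∈ pj (dh d C) (C l₁) x) (hv : v₂ ∈ pj (dh d C) (C l₂) y) :
    dD d C K u₁ v₂ ≤ a + 2 + 4 * k := by
  have hM : (0 : ℤ) ≤ M := Int.natCast_nonneg _
  have hc : (0 : ℤ) ≤ c := Int.natCast_nonneg _
  have s1 := sep_pos2 S (show Sep d C K x y l₁ from h₁)
  have s2 := sep_pos2 S (show Sep d C K x y l₂ from h₂)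
  have b1 : Btw (dh d C) x u₁ y := pass_btw S (by linarith) hu
  have b2 : Btw (dh d C) x v₂ y := by
    refine Burn.Btw.symm (geoh S.toSys) (pass_btw S (l := l₂) ?_ hv)
    rw [abs_sub_comm]
    linarith
  have hD := geoD S
  obtain ⟨p, hp, hp0, hp1⟩ := pathR hD (dD_eq0 S) x y
  obtain ⟨i, hi, hik⟩ := hk p _ u₁ hp (by rw [hp0, hp1]; exact b1)
  obtain ⟨j, hj, hjk⟩ := hk p _ v₂ hp (by rw [hp0, hp1]; exact b2)
  obtain ⟨w₁, hw1, hw2, hw3⟩ := hw₁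
  obtain ⟨w₂, hw4, hw5, hw6⟩ := hw₂
  have c1 := dD_C (K := K) S hw1 hu.1
  have c2 := dD_C (K := K) S hw4 hv.1
  have c1' := hD.symm w₁ u₁
  have c2' := hD.symm w₂ v₂
  have t1 := hD.tri x w₁ u₁
  have t2 := hD.tri x u₁ w₁
  have t3 := hD.tri x w₂ v₂
  have t4 := hD.tri x v₂ w₂
  have i0 := hp 0 i (Nat.zero_le _) hi
  have j0 := hp 0 j (Nat.zero_le _) hj
  rw [hp0] at i0 j0
  have q1 := hD.tri x u₁ (p i)
  have q2 := hD.tri x (p i) u₁
  have q3 := hD.tri x v₂ (p j)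
  have q4 := hD.tri x (p j) v₂
  have q5 := hD.symm u₁ (p i)
  have q6 := hD.symm v₂ (p j)
  have r1 := hD.tri u₁ (p i) v₂
  have r2 := hD.tri (p i) (p j) v₂
  have r3 : dD d C K (p i) (p j) = i - j + (j - i) := by
    rcases Nat.le_total i j with hij | hij
    · have := hp i j hij hj
      omega
    · have := hp j i hij hi
      rw [hD.symm]
      omega
  omega

theorem window (S : Sys2 G d C P c M K) {k : ℕ} (hk : Fellow (dh d C) (dD d C K) k) (x y : X)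
    (a b : ℕ) (W : Set ι) (hW : W ⊆ LL d C K x y)
    (h : ∀ l ∈ W, ∃ w ∈ C l, b ≤ dD d C K x w ∧ dD d C K x w ≤ b + a) :
    W.ncard ≤ 3 * (a + 2 + 4 * k) + 2 := by
  have hfin : W.Finite := (LL_fin S x y).1.subset hW
  rcases W.eq_empty_or_nonempty with h0 | h0
  · rw [h0, Set.ncard_empty]
    exact Nat.zero_le _
  obtain ⟨l₁, hl₁, hmin⟩ := Set.exists_min_image W (fun l => ds (dh d C) (C l) x) hfin h0
  obtain ⟨l₂, hl₂, hmax⟩ := Set.exists_max_image W (fun l => ds (dh d C) (C l) x) hfin h0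
  obtain ⟨u₁, hu⟩ := pj_ne (D := dh d C) (S.ne l₁) x
  obtain ⟨v₂, hv⟩ := pj_ne (D := dh d C) (S.ne l₂) y
  have hsub : W ⊆ {l₁, l₂} ∪ LL d C K u₁ v₂ := by
    intro l hl
    by_cases e1 : l = l₁
    · exact Or.inl (Or.inl e1)
    by_cases e2 : l = l₂
    · exact Or.inl (Or.inr e2)
    refine Or.inr (between_LL S (hW hl₁) (hW hl) (hW hl₂) ?_ ?_ hu hv)
    · exact lt_of_le_of_ne (hmin l hl) (ord_ne S (hW hl₁) (hW hl) (Ne.symm e1))
    · exact lt_of_le_of_ne (hmax l hl) (ord_ne S (hW hl) (hW hl₂) e2)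
  have h1 := Set.ncard_le_ncard hsub ((Set.toFinite {l₁, l₂}).union (LL_fin S u₁ v₂).1)
  have h2 := Set.ncard_union_le {l₁, l₂} (LL d C K u₁ v₂)
  have h3 : ({l₁, l₂} : Set ι).ncard ≤ 2 := by
    have := Set.ncard_insert_le l₁ {l₂}
    rw [Set.ncard_singleton] at this
    exact this
  have h4 := cnt_le S u₁ v₂
  have h5 := win_dist S hk (hW hl₁) (hW hl₂) (h l₁ hl₁) (h l₂ hl₂) hu hv
  omega

end

end AHA
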