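import Pool.Agent.AHA.Egrp

set_option autoImplicit false

/-!
# AHA WPF: two finite sets from WPD
-/

namespace AHA

open Burn (Geo Btw Hyp Slim Fellow IsPath)

section
variable {X G : Type} [Group G] [MulAction G X]
variable {d : X → X → ℕ} {δ κ q : ℕ} {f : G} {o : X} {P Q : X → ℤ}

theorem wset (L : Lx d δ κ f o) (W : Wpd d f o) (ρ : ℕ) :
    ∃ n : ℕ, 1 ≤ n ∧ {h : G | d o (h • o) ≤ ρ ∧ (d (h • f ^ n • o) (f ^ n • o) ≤ ρ ∨
      d (h • f ^ n • o) ((f ^ n)⁻¹ • o) ≤ ρ)}.Finite := by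
  obtain ⟨n, hn, hfin⟩ := W (2 * ρ)
  have hg := L.geo
  refine ⟨n, hn, ?_⟩
  have hfin2 : {h : G | d o (h • o) ≤ ρ ∧ d (h • f ^ n • o) ((f ^ n)⁻¹ • o) ≤ ρ}.Finite := by
    rcases Set.eq_empty_or_nonempty
      {h : G | d o (h • o) ≤ ρ ∧ d (h • f ^ n • o) ((f ^ n)⁻¹ • o) ≤ ρ} with h0 | ⟨h₁, h1, h2⟩
    · rw [h0]
      exact Set.finite_empty
    · refine (hfin.image (fun g => h₁ * g)).subset ?_
      rintro h ⟨h3, h4⟩
      refine ⟨h₁⁻¹ * h, ⟨?_, ?_⟩, mul_inv_cancel_left h₁ h⟩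
      · have e := L.iso h₁ o ((h₁⁻¹ * h) • o)
        rw [mul_smul, smul_inv_smul] at e
        rw [mul_smul, ← e]
        have := hg.tri (h₁ • o) o (h • o)
        have := hg.symm (h₁ • o) o
        omega
      · have e := L.iso h₁ (f ^ n • o) ((h₁⁻¹ * h) • f ^ n • o)
        rw [mul_smul, smul_inv_smul] at e
        rw [mul_smul, ← e]
        have := hg.tri (h₁ • f ^ n • o) ((f ^ n)⁻¹ • o) (h • f ^ n • o)
        have := hg.symm (h • f ^ n • o) ((f ^ n)⁻¹ • o)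
        omega
  refine (hfin.union hfin2).subset ?_
  rintro h ⟨h1, h2 | h2⟩
  · left
    refine ⟨by omega, ?_⟩
    rw [hg.symm]
    omega
  · right
    exact ⟨h1, h2⟩

theorem fin_E (L : Lx d δ κ f o) (A : LxAx d δ f o P Q q) (W : Wpd d f o) (r : ℕ) :
    {h : G | h ∈ EE d f o ∧ d o (h • o) ≤ r}.Finite := by
  have hg := L.geo
  obtain ⟨ρ, hρ⟩ := near_pm L A (9 * δ + 2 * q) r
  obtain ⟨n, -, hfin⟩ := wset L W (ρ + r)
  refine hfin.subset ?_
  rintro h ⟨h1, h2⟩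
  refine ⟨by omega, ?_⟩
  have h3 := ee_Q L A h1 n
  rw [zpow_natCast] at h3
  have e := L.iso h o (f ^ n • o)
  have t1 := hg.tri o (h • o) (h • f ^ n • o)
  have t2 := hg.tri (h • o) o (h • f ^ n • o)
  have s1 := hg.symm (h • o) o
  rcases hρ n (h • f ^ n • o) (by push_cast; exact h3) (by omega) (by omega) with h4 | h4
  · left; omega
  · right; omega

end

end AHA
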